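import Pool.Agent.P.MP_f30597_gt.Iface

/-! The determinant class property over sofic groups. -/

namespace Pool.Agent.P.MP_f30597_gt

open Matrix Finset Filter Topology MeasureTheory
open scoped Matrix.Norms.L2Operator

theorem t_DET (hMOM : S_MOM) (hLIM : S_LIM) (hMEAS : S_MEAS) : S_DET := by
  intro G κ κ' _ _ _ _ _ S y μ K hμ
  obtain ⟨M, hM⟩ := Sof.nrm_mdl (S := S) y
  let X : S.Mat κ κ := fun i => mdl (S.act i) y * (mdl (S.act i) y)ᴴ
  have hP : ∀ i, (X i).PosSemidef := fun i => posSemidef_self_mul_conjTranspose _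
  have hI : ∀ i, IsInt (X i) := fun i => (isInt_loc _ _).mul (isInt_loc _ _).conjT
  have hB : ∀ i, ‖X i‖ ≤ M * M := fun i =>
    nrm_mul (hM i) ((l2_opNorm_conjTranspose _).le.trans (hM i))
  have hN : S.Neg fun i => X i - mdl (S.act i) (y * cst y) :=
    (((Sof.neg_mdl_cst y).mul_left fun i => mdl (S.act i) y).congr fun _ =>
      Matrix.mul_sub _ _ _).trans (Sof.neg_mdl_mul y (cst y))
  have h0 : ∀ i, (0 : ℝ) < S.N i := fun i => by exact_mod_cast S.pos i
  have := S.ne
  refine (hMEAS S.Λ S.l (fun i g => (fc g (X i)).trace / S.N i) μ K _ hμ (fun i g h => ?_)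
    (fun i r g => ?_) (fun i g h hgh => ?_)
    (fun i => div_nonneg (int_log (hP i).1 (hI i)) (h0 i).le) fun g hg => ?_).1
  · rw [← fc_add (hP i).1, trace_add, add_div]
  · rw [← fc_smul (hP i).1, trace_smul, smul_eq_mul, mul_div_assoc]
  · rw [fc_trace (hP i).1, fc_trace (hP i).1]
    exact div_le_div_of_nonneg_right
      (sum_le_sum fun a _ => hgh _ ((hP i).eigenvalues_nonneg a)) (h0 i).le
  · simpa only [Matrix.one_mul] using hLIM S.Λ S.l (fun i => κ × Fin (S.N i)) (fun i => S.N i)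
      (Fintype.card κ) K (M * M) X (fun _ => 1) μ _ h0 (fun i => by simp) (fun i => (hP i).1) hB
      (fun _ => nrm_one) hμ
      (fun j => by simpa only [diagonal_one] using hMOM G κ S _ X _ (fun _ => 1) hB hN j) g hg

end Pool.Agent.P.MP_f30597_gt
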