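import Pool.Agent.P.MP_f30597_gt.Iface

/-! The L2-Laplacian as the operator of a matrix over the group ring. -/

namespace Pool.Agent.P.MP_f30597_gt

open Matrix Finset Filter Topology MeasureTheory
open scoped Matrix.Norms.L2Operator

theorem lap_sub {R ι : Type} [Ring R] [Fintype ι] (x y : Matrix ι ι R) (P Q : ι → Prop)
    [DecidablePred Q] (h : ∀ a b a', P a → P a' → ¬ Q b → x a b * y b a' = 0) :
    (x * y).submatrix (Subtype.val : {a // P a} → ι) (Subtype.val : {a // P a} → ι) =
      x.submatrix (Subtype.val : {a // P a} → ι) (Subtype.val : {a // Q a} → ι) *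
        y.submatrix (Subtype.val : {a // Q a} → ι) (Subtype.val : {a // P a} → ι) := by
  ext a a'
  simp only [Matrix.submatrix_apply, Matrix.mul_apply]
  rw [← Fintype.sum_subtype_add_sum_subtype Q,
    Finset.sum_eq_zero fun (b : {a // ¬ Q a}) _ => h a b a' a.2 a'.2 b.2, add_zero]

theorem lap_sub_pow {R ι : Type} [Ring R] [Fintype ι] [DecidableEq ι] (x : Matrix ι ι R)
    (P : ι → Prop) [DecidablePred P] (h : ∀ b a, P a → ¬ P b → x b a = 0) (m : ℕ) :
    (x ^ m).submatrix (Subtype.val : {a // P a} → ι) (Subtype.val : {a // P a} → ι) =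
      x.submatrix Subtype.val Subtype.val ^ m := by
  induction m with
  | zero => rw [pow_zero, pow_zero, Matrix.submatrix_one _ Subtype.val_injective]
  | succ m ih =>
    rw [pow_succ, pow_succ, lap_sub _ _ P P fun a b a' _ h2 h3 => by rw [h b a' h2 h3, mul_zero],
      ih]

theorem lap_rinv_zero {G : Type} [Group G] : rinv (0 : ZG G) = 0 := by
  ext g
  rw [rinv_coeff]
  rfl

theorem lap_wtr {G ι : Type} [Group G] [Fintype ι] (deg : ι → ℕ) (p : ℕ)
    (z : Matrix ι ι (ZG G)) : wtr (ind deg p) z = wtr (fun _ => 1)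
      (z.submatrix (Subtype.val : {a // deg a = p} → ι) Subtype.val) := by
  unfold wtr
  rw [← Fintype.sum_subtype_add_sum_subtype fun a => deg a = p,
    Finset.sum_eq_zero fun (b : {a // ¬ deg a = p}) _ => by rw [ind, if_neg b.2, zero_mul],
    add_zero]
  exact Finset.sum_congr rfl fun a _ => by rw [ind, if_pos a.2, Matrix.submatrix_apply]

theorem lap_ker {E F H : Type} [NormedAddCommGroup E] [InnerProductSpace ℂ E] [CompleteSpace E]
    [NormedAddCommGroup F] [InnerProductSpace ℂ F] [CompleteSpace F]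
    [NormedAddCommGroup H] [InnerProductSpace ℂ H] [CompleteSpace H]
    (A : E →L[ℂ] F) (B : H →L[ℂ] E) :
    A.ker ⊓ (B.range)ᗮ = (ContinuousLinearMap.adjoint A ∘L A +
      B ∘L ContinuousLinearMap.adjoint B).ker := by
  rw [ContinuousLinearMap.orthogonal_range]
  ext x
  simp only [Submodule.mem_inf, LinearMap.mem_ker, ContinuousLinearMap.coe_coe,
    _root_.add_apply, ContinuousLinearMap.comp_apply]
  constructor
  · rintro ⟨h1, h2⟩
    rw [h1, h2, map_zero, map_zero, add_zero]
  · intro h
    have h1 := congrArg (fun y => RCLike.re (inner ℂ y x)) h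
    simp only [inner_add_left, map_add, inner_zero_left, map_zero] at h1
    rw [ContinuousLinearMap.adjoint_inner_left, ← ContinuousLinearMap.adjoint_inner_right B,
      inner_self_eq_norm_sq, inner_self_eq_norm_sq] at h1
    exact ⟨norm_eq_zero.1 (by nlinarith [sq_nonneg ‖A x‖, sq_nonneg ‖B.adjoint x‖]),
      norm_eq_zero.1 (by nlinarith [sq_nonneg ‖A x‖, sq_nonneg ‖B.adjoint x‖])⟩

theorem t_LAP (hOP : S_OP) : S_LAP := by
  intro G _
  obtain ⟨hm, ha, h1, hs, ht⟩ := hOP G
  have hp : ∀ (κ : Type) [Fintype κ] [DecidableEq κ] (y : Matrix κ κ (ZG G)) (m : ℕ),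
      op y ^ m = op (y ^ m) := by
    intro κ _ _ y m
    induction m with
    | zero => rw [pow_zero, pow_zero, h1]
    | succ m ih => rw [pow_succ', pow_succ, hm, ih, ContinuousLinearMap.mul_def]
  refine ⟨fun κ κ' _ _ _ y m => by rw [hs, ← hm, hp, ht], fun ι _ _ deg c => ⟨fun p => ⟨?_, ?_⟩, ?_⟩⟩
  · exact (ContinuousLinearMap.isPositive_adjoint_comp_self _).add
      (ContinuousLinearMap.isPositive_self_comp_adjoint _)
  · rw [betti, lap, lap_ker]
  · intro hc p m
    have hz : ∀ a b, deg a ≠ deg b + 1 → c a b = 0 := fun a b h => by_contra fun h0 => h (hc a b h0)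
    have hz' : ∀ a b, deg a ≠ deg b + 1 → cst c b a = 0 := fun a b h => by
      rw [cst, Matrix.of_apply, hz a b h, lap_rinv_zero]
    have e : lap deg c p = op ((c * cst c + cst c * c).submatrix
        (Subtype.val : {a // deg a = p} → ι) Subtype.val) := by
      rw [Matrix.submatrix_add, Pi.add_apply, Pi.add_apply, ha,
        lap_sub c (cst c) (fun a => deg a = p) (fun a => deg a = p - 1)
          fun a b a' h2 _ h3 => by rw [hz a b (by omega), zero_mul],
        lap_sub (cst c) c (fun a => deg a = p) (fun a => deg a = p + 1)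
          fun a b a' _ h2 h3 => by rw [hz b a' (by omega), mul_zero],
        hm, hm, lap, blk, blk, hs, hs]
      rfl
    rw [e, hp, ht, lap_wtr, lap_sub_pow]
    intro b a h2 h3
    rw [Matrix.add_apply, Matrix.mul_apply, Matrix.mul_apply, Finset.sum_eq_zero,
      Finset.sum_eq_zero, add_zero]
    · intro j _
      by_cases h : deg j = deg b + 1
      · rw [hz j a (by omega), mul_zero]
      · rw [hz' j b h, zero_mul]
    · intro j _
      by_cases h : deg b = deg j + 1
      · rw [hz' a j (by omega), mul_zero]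
      · rw [hz b j h, zero_mul]

end Pool.Agent.P.MP_f30597_gt
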