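import Pool.Agent.P.MP_f30597_gt.Iface

/-! Convergence of moments gives convergence of traces of continuous functions. -/

namespace Pool.Agent.P.MP_f30597_gt

open Matrix Finset Filter Topology MeasureTheory
open scoped Matrix.Norms.L2Operator

theorem lim_ae {μ : Measure ℝ} {K : ℝ} {f : ℕ → ℝ} (h : Mom μ K f) :
    ∀ᵐ t ∂μ, t ∈ Set.Icc 0 K := mem_ae_iff.2 h.2.1

theorem lim_int {μ : Measure ℝ} {K : ℝ} {f : ℕ → ℝ} (h : Mom μ K f) {g : ℝ → ℝ}
    (hg : Continuous g) : Integrable g μ := by
  have := h.1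
  obtain ⟨C, hC⟩ := (isCompact_Icc (a := (0 : ℝ)) (b := K)).exists_bound_of_continuousOn
    hg.continuousOn
  exact Integrable.of_bound hg.aestronglyMeasurable C ((lim_ae h).mono hC)

theorem t_LIM : S_LIM := by
  intro Λ l I _ _ N m K K' X e μ f hN hm hX hK he hμ hf g hg
  have := hμ.1
  have hP : ∀ P : Polynomial ℝ, Tendsto (fun i => (e i * fc (fun t => P.eval t) (X i)).trace / N i)
      l (𝓝 (∫ t, P.eval t ∂μ)) := by
    intro P
    induction P using Polynomial.induction_on' with
    | add p q hp hq =>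
      simp only [Polynomial.eval_add]
      rw [integral_add (lim_int hμ p.continuous) (lim_int hμ q.continuous)]
      refine (hp.add hq).congr fun i => ?_
      rw [← fc_add (hX i), Matrix.mul_add, trace_add, add_div]
    | monomial n a =>
      simp only [Polynomial.eval_monomial]
      rw [integral_const_mul, hμ.2.2]
      refine ((hf n).const_mul a).congr fun i => ?_
      rw [← fc_smul (hX i), fc_pow (hX i), Matrix.mul_smul, trace_smul, smul_eq_mul, mul_div_assoc]
  refine Metric.tendsto_nhds.2 fun ε hε => ?_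
  set c : ℝ := max m 0 + μ.real Set.univ + 1 with hc
  have hm0 : 0 ≤ max m 0 := le_max_right _ _
  have hμ0 : 0 ≤ μ.real Set.univ := measureReal_nonneg
  have hc0 : 0 < c := by linarith
  have hδ : 0 < ε / c := div_pos hε hc0
  obtain ⟨P, hPg⟩ := exists_polynomial_near_of_continuousOn (-max K' 0) (max K K') g
    hg.continuousOn _ hδ
  filter_upwards [Metric.tendsto_nhds.1 (hP P) _ hδ] with i hi
  rw [Real.dist_eq] at hi ⊢
  have h1 : |(e i * fc g (X i)).trace / N i - (e i * fc (fun t => P.eval t) (X i)).trace / N i| ≤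
      max m 0 * (ε / c) := by
    rw [← sub_div, ← trace_sub, ← Matrix.mul_sub, fc_sub (hX i), abs_div, abs_of_pos (hN i),
      div_le_iff₀ (hN i)]
    have h2 : ‖fc (fun t => g t - P.eval t) (X i)‖ ≤ ε / c := fc_norm (hX i) hδ.le fun a => by
      have h3 := abs_le.1 ((eig_le (hX i) a).trans (hK i))
      rw [abs_sub_comm]
      exact (hPg _ ⟨(neg_le_neg (le_max_left _ _)).trans h3.1,
        h3.2.trans (le_max_right _ _)⟩).le
    have h4 := nrm_mul (he i) h2
    have h5 : (Fintype.card (I i) : ℝ) ≤ max m 0 * N i :=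
      (hm i).trans (mul_le_mul_of_nonneg_right (le_max_left _ _) (hN i).le)
    calc _ ≤ _ := trace_le _
      _ ≤ (max m 0 * N i) * (1 * (ε / c)) :=
        mul_le_mul h5 h4 (norm_nonneg _) (mul_nonneg hm0 (hN i).le)
      _ = _ := by ring
  have h6 : |∫ t, P.eval t ∂μ - ∫ t, g t ∂μ| ≤ ε / c * μ.real Set.univ := by
    rw [← integral_sub (lim_int hμ P.continuous) (lim_int hμ hg)]
    rw [← Real.norm_eq_abs]
    refine norm_integral_le_of_norm_le_const ((lim_ae hμ).mono fun t ht => ?_)
    exact (hPg t ⟨(neg_nonpos.2 (le_max_right _ _)).trans ht.1,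
      ht.2.trans (le_max_left _ _)⟩).le
  have h7 : ε = c * (ε / c) := by field_simp
  calc _ ≤ _ := abs_sub_le _ ((e i * fc (fun t => P.eval t) (X i)).trace / N i) _
    _ ≤ _ := add_le_add h1 (abs_sub_le _ (∫ t, P.eval t ∂μ) _)
    _ < max m 0 * (ε / c) + (ε / c + ε / c * μ.real Set.univ) := by linarith
    _ = c * (ε / c) := by
      generalize ε / c = d
      rw [hc]
      ring
    _ = ε := h7.symm

end Pool.Agent.P.MP_f30597_gt
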