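import Pool.Agent.P.MP_f30597_gt.Iface

/-! Integrability of the logarithm and the atom at zero of a limit measure. -/

namespace Pool.Agent.P.MP_f30597_gt

open Matrix Finset Filter Topology MeasureTheory
open scoped Matrix.Norms.L2Operator

/-- logarithm truncated at level `-L` -/
noncomputable def meas_b (L t : ℝ) : ℝ := Real.log (max t (Real.exp (-L)))

lemma meas_pos (L t : ℝ) : 0 < max t (Real.exp (-L)) := lt_max_of_lt_right (Real.exp_pos _)

lemma meas_cont (L : ℝ) : Continuous (meas_b L) :=
  (continuous_id.max continuous_const).log fun t => (meas_pos L t).ne'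

lemma meas_zero (L : ℝ) : meas_b L 0 = -L := by
  rw [meas_b, max_eq_right (Real.exp_pos _).le, Real.log_exp]

lemma meas_log_le (L : ℝ) {t : ℝ} (h : 0 < t) : Real.log t ≤ meas_b L t :=
  Real.log_le_log h (le_max_left _ _)

lemma meas_le {L : ℝ} (h : 0 ≤ L) (t : ℝ) : meas_b L t ≤ meas_b 0 t :=
  Real.log_le_log (meas_pos L t) (max_le_max le_rfl (Real.exp_le_exp.2 (by linarith)))

lemma meas_nonneg (t : ℝ) : 0 ≤ meas_b 0 t := Real.log_nonneg (by simp)

lemma meas_ae {μ : Measure ℝ} {K : ℝ} {f : ℕ → ℝ} (h : Mom μ K f) :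
    ∀ᵐ t ∂μ, t ∈ Set.Icc 0 K := h.2.1

lemma meas_int {μ : Measure ℝ} {K : ℝ} {f : ℕ → ℝ} (h : Mom μ K f) {g : ℝ → ℝ}
    (hg : Continuous g) : Integrable g μ := by
  haveI := h.1
  have h1 : IntegrableOn g (Set.Icc 0 K) μ := hg.continuousOn.integrableOn_compact isCompact_Icc
  rwa [IntegrableOn, Measure.restrict_eq_self_of_ae_mem (meas_ae h)] at h1

/-- continuous majorant of the logarithm vanishing at zero -/
noncomputable def meas_g (n : ℕ) (t : ℝ) : ℝ := max (meas_b n t) (-(n * t))

lemma meas_g_cont (n : ℕ) : Continuous (meas_g n) := (meas_cont n).max (by fun_prop)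

lemma meas_g_ge (n : ℕ) {t : ℝ} (h : 0 ≤ t) : Real.log t ≤ meas_g n t := by
  rcases h.eq_or_lt with rfl | h
  · simp [meas_g]
  · exact le_max_of_le_left (meas_log_le n h)

lemma meas_g_le (n : ℕ) {t : ℝ} (h : 0 ≤ t) : meas_g n t ≤ meas_b 0 t :=
  max_le (meas_le n.cast_nonneg t)
    ((neg_nonpos.2 (mul_nonneg n.cast_nonneg h)).trans (meas_nonneg t))

lemma meas_g_ev {t : ℝ} (h : 0 ≤ t) : ∀ᶠ n : ℕ in atTop, meas_g n t = Real.log t := by
  rcases h.eq_or_lt with rfl | h
  · exact Eventually.of_forall fun n => by simp [meas_g, meas_zero]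
  · have h1 := tendsto_natCast_atTop_atTop (R := ℝ)
    filter_upwards [h1.eventually_ge_atTop (-Real.log t),
      h1.eventually_ge_atTop (-Real.log t / t)] with n h2 h3
    have h4 : Real.exp (-(n : ℝ)) ≤ t := by
      rw [← Real.le_log_iff_exp_le h]
      linarith
    rw [div_le_iff₀ h] at h3
    rw [meas_g, meas_b, max_eq_left h4, max_eq_left (by linarith)]

theorem t_MEAS : S_MEAS := by
  intro Λ l _ ν μ K f hM hadd hmul hmono hlog hlim
  haveI := hM.1
  have hb := fun L => meas_int hM (meas_cont L)
  constructor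
  · have hg := fun n => meas_int hM (meas_g_cont n)
    have h1 : ∀ n, 0 ≤ ∫ t, meas_g n t ∂μ := fun n =>
      ge_of_tendsto' (hlim _ (meas_g_cont n)) fun i =>
        (hlog i).trans (hmono i _ _ fun t ht => meas_g_ge n ht)
    have h2 : ∀ n, ∫⁻ t, ‖meas_b 0 t - meas_g n t‖ₑ ∂μ ≤ ENNReal.ofReal (∫ t, meas_b 0 t ∂μ) := by
      intro n
      rw [← ofReal_integral_norm_eq_lintegral_enorm (f := fun t => meas_b 0 t - meas_g n t)
        ((hb 0).sub (hg n))]
      refine ENNReal.ofReal_le_ofReal ?_
      rw [integral_congr_ae (g := fun t => meas_b 0 t - meas_g n t), integral_sub (hb 0) (hg n)]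
      · linarith [h1 n]
      · filter_upwards [meas_ae hM] with t ht
        exact Real.norm_of_nonneg (sub_nonneg.2 (meas_g_le n ht.1))
    have h3 : Integrable (fun t => meas_b 0 t - Real.log t) μ := by
      refine ⟨((meas_cont 0).measurable.sub Real.measurable_log).aestronglyMeasurable, ?_⟩
      have h4 : ∀ᵐ t ∂μ, ‖meas_b 0 t - Real.log t‖ₑ =
          liminf (fun n => ‖meas_b 0 t - meas_g n t‖ₑ) atTop := by
        filter_upwards [meas_ae hM] with t ht
        refine (Tendsto.liminf_eq (tendsto_const_nhds.congr' ?_)).symm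
        filter_upwards [meas_g_ev ht.1] with n hn
        rw [hn]
      rw [HasFiniteIntegral, lintegral_congr_ae h4]
      refine (lintegral_liminf_le fun n =>
        ((meas_cont 0).sub (meas_g_cont n)).measurable.enorm).trans_lt ?_
      exact (liminf_le_of_frequently_le' (Frequently.of_forall h2)).trans_lt ENNReal.ofReal_lt_top
    have h5 := (hb 0).sub h3
    refine Integrable.integrableOn (h5.congr (Eventually.of_forall fun t => ?_))
    simp
  · intro δ hδ
    have h1 : ∀ L : ℝ, 0 ≤ L → L * μ.real {0} ≤ (∫ t, meas_b 0 t ∂μ) + L * δ := by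
      intro L hL
      have h2 : -(L * δ) ≤ ∫ t, meas_b L t ∂μ := by
        refine ge_of_tendsto (hlim _ (meas_cont L)) ?_
        filter_upwards [hδ] with i hi
        have h3 := hmono i Real.log (fun t => meas_b L t + L * z0 t) fun t ht => by
          rcases ht.eq_or_lt with rfl | ht
          · simp [z0, meas_zero]
          · simpa [z0, ht.ne'] using meas_log_le L ht
        rw [hadd, hmul] at h3
        nlinarith [hlog i, mul_le_mul_of_nonneg_left hi hL]
      have h4 : Integrable (({0} : Set ℝ).indicator fun _ => L) μ :=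
        (integrable_const L).indicator (measurableSet_singleton 0)
      have h5 := integral_mono ((hb L).add h4) (hb 0) fun t => by
        by_cases ht : t = 0
        · subst ht
          simp [meas_zero]
        · simpa [ht] using meas_le hL t
      simp only [Pi.add_apply] at h5
      rw [integral_add (hb L) h4, integral_indicator_const _ (measurableSet_singleton 0),
        smul_eq_mul] at h5
      linarith
    by_contra h
    have h6 : 0 < μ.real {0} - δ := sub_pos.2 (not_le.1 h)
    have h7 : 0 ≤ ∫ t, meas_b 0 t ∂μ := integral_nonneg meas_nonneg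
    have h8 := h1 (((∫ t, meas_b 0 t ∂μ) + 1) / (μ.real {0} - δ)) (by positivity)
    have h9 := div_mul_cancel₀ ((∫ t, meas_b 0 t ∂μ) + 1) h6.ne'
    nlinarith

end Pool.Agent.P.MP_f30597_gt
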