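import Pool.Agent.P.MP_f30597_gt.Iface

/-! Convergence of the weighted moments on the models. -/

namespace Pool.Agent.P.MP_f30597_gt

open Matrix Finset Filter Topology MeasureTheory
open scoped Matrix.Norms.L2Operator

section

variable {G κ : Type} [Group G] [Fintype κ] [DecidableEq κ] {S : Sof G}

theorem mom_tr {A B D : S.Mat κ κ} {M M' K r : ℝ} (hA : ∀ i, ‖A i‖ ≤ M) (hB : ∀ i, ‖B i‖ ≤ M')
    (hD : ∀ i, ‖D i‖ ≤ K) (h : S.Neg fun i => A i - B i)
    (hr : Tendsto (fun i => (D i * B i).trace / S.N i) S.l (𝓝 r)) :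
    Tendsto (fun i => (D i * A i).trace / S.N i) S.l (𝓝 r) := by
  have h1 : Tendsto (fun i => (D i * (A i - B i)).trace / S.N i) S.l (𝓝 0) := by
    have h2 := (h.mul_left D).const_mul (2 * (K * (M + M')))
    rw [mul_zero] at h2
    refine squeeze_zero_norm (fun i => ?_) h2
    have h0 : (0 : ℝ) < S.N i := by exact_mod_cast S.pos i
    have h3 : ‖D i * (A i - B i)‖ ≤ K * (M + M') :=
      nrm_mul (hD i) ((norm_sub_le _ _).trans (add_le_add (hA i) (hB i)))
    rw [Real.norm_eq_abs, abs_div, abs_of_pos h0, ← mul_div_assoc]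
    gcongr
    refine (trace_le_rank _).trans ?_
    have h4 : (0 : ℝ) ≤ ((D i * (A i - B i)).rank : ℝ) := Nat.cast_nonneg _
    nlinarith
  have h5 := h1.add hr
  rw [zero_add] at h5
  refine h5.congr fun i => ?_
  rw [Matrix.mul_sub, trace_sub]
  ring

theorem mom_pow {y : Matrix κ κ (ZG G)} {X : S.Mat κ κ}
    (h : S.Neg fun i => X i - mdl (S.act i) y) (j : ℕ) :
    S.Neg fun i => X i ^ j - mdl (S.act i) (y ^ j) := by
  induction j with
  | zero => simpa only [pow_zero] using (Sof.neg_mdl_one (S := S) (κ := κ)).symm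
  | succ j ih =>
    simp only [pow_succ]
    exact (ih.mul_congr h).trans (Sof.neg_mdl_mul (y ^ j) y)

theorem mom_nrm {I : Type} [Fintype I] [DecidableEq I] {X : Matrix I I ℝ} {M : ℝ}
    (h : ‖X‖ ≤ M) (j : ℕ) : ‖X ^ j‖ ≤ M ^ j := by
  induction j with
  | zero => simpa only [pow_zero] using nrm_one
  | succ j ih =>
    rw [pow_succ, pow_succ]
    exact nrm_mul ih h

theorem mom_diag (z : Matrix κ κ (ZG G)) : S.AE fun i v => ∀ a,
    mdl (S.act i) z (a, v) (a, v) = (((z a a).coeff 1 : ℤ) : ℝ) := by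
  classical
  obtain ⟨T, M, h⟩ := Sof.mdl_bdd z
  refine ((Sof.ae_finset (T.erase 1) fun g hg => S.ae_free (ne_of_mem_erase hg)).and
    Sof.ae_one).mono fun i v hv a => ?_
  rw [mdl_row, pl_eq _ _ fun b => ((h a b).1.trans (subset_insert 1 T)), sum_eq_single 1]
  · simp [hv.2]
  · intro g hg h1
    rw [if_neg (hv.1 g (mem_erase.2 ⟨h1, (mem_insert.1 hg).resolve_left h1⟩))]
  · simp

end

theorem t_MOM : S_MOM := by
  intro G κ _ _ _ S y X M w hX h j
  obtain ⟨M', hM'⟩ := Sof.nrm_mdl (S := S) (y ^ j)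
  have hD : ∀ i, ‖(diagonal (fun p : κ × Fin (S.N i) => w p.1) :
      Matrix (κ × Fin (S.N i)) (κ × Fin (S.N i)) ℝ)‖ ≤ ∑ a, |w a| := fun i =>
    nrm_diag (sum_nonneg fun _ _ => abs_nonneg _) fun p =>
      single_le_sum (f := fun a => |w a|) (fun _ _ => abs_nonneg _) (mem_univ p.1)
  refine mom_tr (fun i => mom_nrm (hX i) j) hM' hD (mom_pow h j) ?_
  have h1 := mom_tr (S := S) (r := wtr w (y ^ j))
    (A := fun i => diagonal fun p => mdl (S.act i) (y ^ j) p p)
    (B := fun i => diagonal fun p => ((((y ^ j) p.1 p.1).coeff 1 : ℤ) : ℝ))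
    (M := M') (M' := ∑ a, |((((y ^ j) a a).coeff 1 : ℤ) : ℝ)|)
    (fun i => nrm_diag ((norm_nonneg _).trans (hM' i)) fun p => (entry_le _ p p).trans (hM' i))
    (fun i => nrm_diag (sum_nonneg fun _ _ => abs_nonneg _) fun p =>
      single_le_sum (f := fun a => |((((y ^ j) a a).coeff 1 : ℤ) : ℝ)|)
        (fun _ _ => abs_nonneg _) (mem_univ p.1)) hD
    (Sof.neg_of_rows ((mom_diag (y ^ j)).mono fun i v hv a => by
      ext q
      simp only [diagonal_apply, hv a]))
    (tendsto_const_nhds.congr fun i => by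
      have h0 : (S.N i : ℝ) ≠ 0 := by exact_mod_cast (S.pos i).ne'
      rw [diagonal_mul_diagonal, trace_diagonal, Fintype.sum_prod_type, eq_div_iff h0, wtr,
        sum_mul]
      simp [mul_comm])
  refine h1.congr fun i => ?_
  simp [trace, diagonal_mul]

end Pool.Agent.P.MP_f30597_gt
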