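import Pool.Agent.P.MP_f30597_gt.Iface

/-! The spectral measure of a positive operator and the dimension of its kernel. -/

namespace Pool.Agent.P.MP_f30597_gt

open Finset Filter Topology MeasureTheory
open scoped CompactlySupported

noncomputable section

section General

variable {H : Type} [NormedAddCommGroup H] [InnerProductSpace ℂ H] [CompleteSpace H]
  {κ : Type} [Fintype κ]

/-- The trace along a finite family of vectors. -/
def spec_tau (v : κ → H) (A : H →L[ℂ] H) : ℝ := ∑ a, (inner ℂ (v a) (A (v a))).re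

theorem spec_exists (v : κ → H) {T : H →L[ℂ] H} (hT : IsSelfAdjoint T) :
    ∃ μ : Measure ℝ, IsFiniteMeasure μ ∧ μ (spectrum ℝ T)ᶜ = 0 ∧
      ∀ g : ℝ → ℝ, Continuous g → ∫ t, g t ∂μ = spec_tau v (cfc g T) := by
  let L : C_c(spectrum ℝ T, ℝ) →ₗ[ℝ] ℝ :=
    { toFun := fun f => spec_tau v (cfcHom hT f.toContinuousMap)
      map_add' := fun f g => by
        have : (f + g).toContinuousMap = f.toContinuousMap + g.toContinuousMap := rfl
        simp only [this, map_add, spec_tau, add_apply, inner_add_right,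
          Complex.add_re, Finset.sum_add_distrib]
      map_smul' := fun r f => by
        have : (r • f).toContinuousMap = r • f.toContinuousMap := rfl
        simp only [this, map_smul, spec_tau, smul_apply, RingHom.id_apply,
          smul_eq_mul, Finset.mul_sum]
        refine Finset.sum_congr rfl fun a _ => ?_
        rw [← Complex.coe_smul, inner_smul_right, Complex.re_ofReal_mul] }
  let Λ : C_c(spectrum ℝ T, ℝ) →ₚ[ℝ] ℝ := PositiveLinearMap.mk₀ L fun f hf => by
    have h1 : 0 ≤ cfcHom hT f.toContinuousMap := (cfcHom_nonneg_iff hT).2 fun x => hf x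
    exact Finset.sum_nonneg fun a _ =>
      ((ContinuousLinearMap.nonneg_iff_isPositive _).1 h1).re_inner_nonneg_right (v a)
  have hc : IsClosed (spectrum ℝ T) := (spectrum.isCompact T).isClosed
  refine ⟨(RealRMK.rieszMeasure Λ).map Subtype.val, inferInstance, ?_, fun g hg => ?_⟩
  · rw [Measure.map_apply measurable_subtype_coe hc.measurableSet.compl]
    have : (Subtype.val ⁻¹' (spectrum ℝ T)ᶜ : Set (spectrum ℝ T)) = ∅ :=
      Set.eq_empty_of_forall_notMem fun x hx => hx x.2
    rw [this, measure_empty]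
  · rw [integral_map measurable_subtype_coe.aemeasurable hg.aestronglyMeasurable,
      cfc_apply g T hT hg.continuousOn]
    exact RealRMK.integral_rieszMeasure Λ (CompactlySupportedContinuousMap.continuousMapEquiv
      ⟨_, hg.continuousOn.domRestrict⟩)

/-- Continuous approximations of the indicator of zero. -/
def spec_g (n : ℕ) (t : ℝ) : ℝ := 1 / (1 + (n * t) ^ 2)

theorem spec_g_cont (n : ℕ) : Continuous (spec_g n) :=
  continuous_const.div (by fun_prop) fun t => by positivity

theorem spec_g_le (n : ℕ) (t : ℝ) : ‖spec_g n t‖ ≤ 1 := by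
  rw [spec_g, Real.norm_of_nonneg (by positivity), div_le_one (by positivity)]
  nlinarith [sq_nonneg (n * t)]

theorem spec_g_mul (n : ℕ) (hn : 0 < n) (t : ℝ) : ‖spec_g n t * t‖ ≤ 1 / n := by
  have h : (0 : ℝ) < n := by exact_mod_cast hn
  rw [spec_g, norm_mul, Real.norm_of_nonneg (by positivity), Real.norm_eq_abs, div_mul_eq_mul_div,
    one_mul, div_le_div_iff₀ (by positivity) h, one_mul, mul_pow, ← sq_abs t]
  nlinarith [sq_nonneg (n * |t| - 1), mul_nonneg h.le (abs_nonneg t)]

theorem spec_g_lim (t : ℝ) :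
    Tendsto (fun n => spec_g n t) atTop (𝓝 (({0} : Set ℝ).indicator 1 t)) := by
  by_cases ht : t = 0
  · simp [ht, spec_g]
  · rw [Set.indicator_of_notMem (by simpa using ht)]
    refine tendsto_const_nhds.div_atTop (tendsto_atTop_add_const_left _ _ ?_)
    simp only [mul_pow]
    exact ((tendsto_pow_atTop two_ne_zero).comp tendsto_natCast_atTop_atTop).atTop_mul_const
      (by positivity)

theorem spec_ker {T : H →L[ℂ] H} (hT : IsSelfAdjoint T) (n : ℕ) {x : H} (hx : T x = 0) :
    cfc (spec_g n) T x = x := by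
  have hc : Continuous fun t : ℝ => spec_g n t * (n ^ 2 * t) := (spec_g_cont n).mul (by fun_prop)
  have h1 : cfc (spec_g n) T + cfc (fun t : ℝ => spec_g n t * (n ^ 2 * t)) T * T = 1 := by
    conv_lhs => enter [2, 2]; rw [← cfc_id' ℝ T hT]
    have hc' : Continuous fun t : ℝ => spec_g n t * (n ^ 2 * t) * t := hc.mul continuous_id'
    rw [← cfc_mul _ _ T hc.continuousOn, ← cfc_add T _ _ (spec_g_cont n).continuousOn
      hc'.continuousOn, ← cfc_one ℝ T hT]
    congr 1
    ext t
    simp only [spec_g, Pi.one_apply]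
    field_simp
  have h2 := congrArg (fun A : H →L[ℂ] H => A x) h1
  simpa [hx] using h2

theorem spec_norm_le (T : H →L[ℂ] H) (n : ℕ) : ‖cfc (spec_g n) T‖ ≤ 1 :=
  norm_cfc_le zero_le_one fun t _ => spec_g_le n t

theorem spec_norm_mul {T : H →L[ℂ] H} (hT : IsSelfAdjoint T) (n : ℕ) (hn : 0 < n) :
    ‖cfc (spec_g n) T * T‖ ≤ 1 / n := by
  conv_lhs => enter [1, 2]; rw [← cfc_id' ℝ T hT]
  rw [← cfc_mul _ _ T (spec_g_cont n).continuousOn]
  exact norm_cfc_le (by positivity) fun t _ => spec_g_mul n hn t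

theorem spec_orth {T : H →L[ℂ] H} (hT : IsSelfAdjoint T) {q : H} (hq : q ∈ T.kerᗮ) :
    Tendsto (fun n => cfc (spec_g n) T q) atTop (𝓝 0) := by
  rw [ContinuousLinearMap.orthogonal_ker, hT.adjoint_eq] at hq
  rw [NormedAddGroup.tendsto_nhds_zero]
  intro ε hε
  obtain ⟨_, ⟨y, rfl⟩, hy⟩ := Metric.mem_closure_iff.1 hq (ε / 2) (by positivity)
  have h1 : Tendsto (fun n : ℕ => 1 / (n : ℝ) * ‖y‖) atTop (𝓝 (0 * ‖y‖)) :=
    tendsto_one_div_atTop_nhds_zero_nat.mul_const _
  rw [zero_mul] at h1
  filter_upwards [h1.eventually (gt_mem_nhds (half_pos hε)), eventually_gt_atTop 0] with n h2 hn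
  have e : cfc (spec_g n) T q = cfc (spec_g n) T (q - T y) + (cfc (spec_g n) T * T) y := by
    simp
  rw [dist_eq_norm] at hy
  have h3 := (cfc (spec_g n) T).le_of_opNorm_le (spec_norm_le T n) (q - T y)
  have h4 := (cfc (spec_g n) T * T).le_of_opNorm_le (spec_norm_mul hT n hn) y
  have h5 : ‖q - T y‖ < ε / 2 := hy
  rw [e]
  refine (norm_add_le _ _).trans_lt ?_
  linarith

theorem spec_proj {T : H →L[ℂ] H} (hT : IsSelfAdjoint T) (x : H) :
    Tendsto (fun n => cfc (spec_g n) T x) atTop
      (𝓝 (T.ker.topologicalClosure.starProjection x)) := by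
  have hK : T.ker.topologicalClosure = T.ker := T.isClosed_ker.submodule_topologicalClosure_eq
  have h1 : T.ker.topologicalClosure.starProjection x ∈ T.ker :=
    hK.le (Submodule.starProjection_apply_mem _ x)
  have h2 : x - T.ker.topologicalClosure.starProjection x ∈ T.kerᗮ :=
    Submodule.orthogonal_le hK.ge (Submodule.sub_starProjection_mem_orthogonal x)
  have h3 := (spec_orth hT h2).const_add (T.ker.topologicalClosure.starProjection x)
  rw [add_zero] at h3
  refine h3.congr fun n => ?_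
  rw [map_sub, spec_ker hT n h1, add_sub_cancel]

theorem spec_general (v : κ → H) {T : H →L[ℂ] H} (hT : T.IsPositive) :
    ∃ μ : Measure ℝ, IsFiniteMeasure μ ∧ μ (Set.Icc 0 ‖T‖)ᶜ = 0 ∧
      (∀ m : ℕ, ∫ t, t ^ m ∂μ = spec_tau v (T ^ m)) ∧
      spec_tau v T.ker.topologicalClosure.starProjection = μ.real {0} := by
  obtain ⟨μ, h1, h2, h3⟩ := spec_exists v hT.isSelfAdjoint
  refine ⟨μ, h1, measure_mono_null (Set.compl_subset_compl.2 fun t ht => ⟨?_, ?_⟩) h2,
    fun m => ?_, ?_⟩
  · exact spectrum_nonneg_of_nonneg ((ContinuousLinearMap.nonneg_iff_isPositive _).2 hT) ht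
  · have := norm_apply_le_norm_cfc (fun t : ℝ => t) T ht continuousOn_id hT.isSelfAdjoint
    rw [cfc_id' ℝ T hT.isSelfAdjoint] at this
    exact (le_abs_self t).trans this
  · rw [h3 _ (continuous_pow m), cfc_pow_id T m hT.isSelfAdjoint]
  · have h4 : Tendsto (fun n => ∫ t, spec_g n t ∂μ) atTop
        (𝓝 (∫ t, ({0} : Set ℝ).indicator 1 t ∂μ)) :=
      tendsto_integral_of_dominated_convergence (fun _ => 1)
        (fun n => (spec_g_cont n).aestronglyMeasurable) (integrable_const _)
        (fun n => Eventually.of_forall (spec_g_le n)) (Eventually.of_forall spec_g_lim)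
    rw [integral_indicator_one (measurableSet_singleton 0)] at h4
    simp only [h3 _ (spec_g_cont _)] at h4
    refine tendsto_nhds_unique (tendsto_finsetSum _ fun a _ => ?_) h4
    exact (Complex.continuous_re.tendsto _).comp
      (tendsto_const_nhds.inner (spec_proj hT.isSelfAdjoint (v a)))

end General

open Classical in
theorem spec_vnTr {G κ : Type} [Group G] [Fintype κ] (A : L2 (G × κ) →L[ℂ] L2 (G × κ)) :
    vnTr A = spec_tau (fun a : κ => (lp.single 2 ((1 : G), a) (1 : ℂ) : L2 (G × κ))) A := by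
  refine Finset.sum_congr rfl fun a _ => ?_
  rw [lp.inner_single_left]
  simp

theorem t_SPEC : S_SPEC := by
  classical
  intro G κ _ _ T hT
  obtain ⟨μ, h1, h2, h3, h4⟩ :=
    spec_general (fun a : κ => (lp.single 2 ((1 : G), a) (1 : ℂ) : L2 (G × κ))) hT
  refine ⟨μ, ⟨h1, h2, fun m => ?_⟩, ?_⟩
  · rw [h3, spec_vnTr]
  · rw [vnDim, spec_vnTr]
    exact h4

end

end Pool.Agent.P.MP_f30597_gt
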