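import Pool.Agent.P.MP_f30597_gt.OP
import Pool.Agent.P.MP_f30597_gt.LAP
import Pool.Agent.P.MP_f30597_gt.SPEC
import Pool.Agent.P.MP_f30597_gt.MOM
import Pool.Agent.P.MP_f30597_gt.LIM
import Pool.Agent.P.MP_f30597_gt.MEAS
import Pool.Agent.P.MP_f30597_gt.DET

/-! Assembly of the spectral data. -/

namespace Pool.Agent.P.MP_f30597_gt

open Matrix MeasureTheory

section Rel

variable {α β γ H K L : Type}
  [NormedAddCommGroup H] [InnerProductSpace ℂ H] [CompleteSpace H]
  [NormedAddCommGroup K] [InnerProductSpace ℂ K] [CompleteSpace K]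
  [NormedAddCommGroup L] [InnerProductSpace ℂ L] [CompleteSpace L]

/-- `T'` is `T` in coordinates -/
def Rel (b : HilbertBasis α ℂ H) (b' : HilbertBasis β ℂ K) (T : H →L[ℂ] K)
    (T' : L2 α →L[ℂ] L2 β) : Prop := ∀ v, b'.repr (T v) = T' (b.repr v)

variable {b : HilbertBasis α ℂ H} {b' : HilbertBasis β ℂ K} {b'' : HilbertBasis γ ℂ L}

theorem Rel.adj {T : H →L[ℂ] K} {T' : L2 α →L[ℂ] L2 β} (h : Rel b b' T T') :
    Rel b' b (ContinuousLinearMap.adjoint T) (ContinuousLinearMap.adjoint T') := by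
  intro v
  refine ext_inner_left ℂ fun u => ?_
  obtain ⟨u, rfl⟩ := b.repr.surjective u
  rw [ContinuousLinearMap.adjoint_inner_right, ← h, LinearIsometryEquiv.inner_map_map,
    LinearIsometryEquiv.inner_map_map, ContinuousLinearMap.adjoint_inner_right]

omit [CompleteSpace H] [CompleteSpace K] [CompleteSpace L] in
theorem Rel.comp {T : H →L[ℂ] K} {T' : L2 α →L[ℂ] L2 β} {R : K →L[ℂ] L} {R' : L2 β →L[ℂ] L2 γ}
    (h' : Rel b' b'' R R') (h : Rel b b' T T') : Rel b b'' (R ∘L T) (R' ∘L T') := fun v =>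
  (h' _).trans (congrArg R' (h v))

omit [CompleteSpace H] [CompleteSpace K] in
theorem Rel.add {T R : H →L[ℂ] K} {T' R' : L2 α →L[ℂ] L2 β} (h : Rel b b' T T')
    (h' : Rel b b' R R') : Rel b b' (T + R) (T' + R') := fun v => by
  rw [_root_.add_apply, map_add, h, h']
  rfl

omit [CompleteSpace H] in
theorem Rel.pow {T : H →L[ℂ] H} {T' : L2 α →L[ℂ] L2 α} (h : Rel b b T T') (m : ℕ) :
    Rel b b (T ^ m) (T' ^ m) := by
  induction m with
  | zero => exact fun _ => rfl
  | succ m ih => rw [pow_succ, pow_succ]; exact ih.comp h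

variable {G κ κ' : Type} [Group G] [Fintype κ] [Fintype κ']

omit [CompleteSpace H] in
theorem Rel.tr {b : HilbertBasis (G × κ) ℂ H} {T : H →L[ℂ] H}
    {T' : L2 (G × κ) →L[ℂ] L2 (G × κ)} (h : Rel b b T T') : vnTrace b T = vnTr T' := by
  classical
  refine Finset.sum_congr rfl fun a _ => ?_
  rw [← b.repr_apply_apply, h, b.repr_self]

omit [CompleteSpace H] [CompleteSpace K] in
theorem IsRightMul.rel {b : HilbertBasis (G × κ) ℂ H} {b' : HilbertBasis (G × κ') ℂ K}
    {x : Matrix κ κ' (ZG G)} {T : H →L[ℂ] K} (h : IsRightMul b b' x T) : Rel b b' T (op x) := by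
  classical
  have e : (b'.repr.toContinuousLinearEquiv : K →L[ℂ] L2 (G × κ')) ∘L T =
      op x ∘L (b.repr.toContinuousLinearEquiv : H →L[ℂ] L2 (G × κ)) := by
    refine ContinuousLinearMap.ext_on (s := Set.range b)
      (Submodule.dense_iff_topologicalClosure_eq_top.2 b.dense_span) ?_
    rintro _ ⟨⟨g, a⟩, rfl⟩
    ext ⟨g', a'⟩
    change b'.repr (T (b (g, a))) (g', a') = op x (b.repr (b (g, a))) (g', a')
    rw [op_apply, b.repr_self, b'.repr_apply_apply, h, inner_sum, Finset.sum_eq_single a',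
      Finset.sum_eq_single a, op_ev_apply, Finsupp.sum, Finsupp.sum, inner_sum]
    · refine Finset.sum_congr rfl fun t _ => ?_
      rw [inner_smul_right, orthonormal_iff_ite.1 b'.orthonormal]
      simp [lp.single_apply, Pi.single_apply, mul_inv_eq_iff_eq_mul]
    · intro c _ hc
      simp [op_ev_apply, lp.single_apply, hc]
    · simp
    · intro c _ hc
      rw [Finsupp.sum, inner_sum]
      refine Finset.sum_eq_zero fun t _ => ?_
      rw [inner_smul_right, orthonormal_iff_ite.1 b'.orthonormal]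
      simp [hc.symm]
    · simp
  exact fun v => congrArg (fun Z : H →L[ℂ] L2 (G × κ') => Z v) e

end Rel

variable {G ι : Type} [Group G] [Fintype ι] {deg : ι → ℕ} {c : Matrix ι ι (ZG G)}

theorem IsResolution.sq {w : ι → ℤ} (h : IsResolution deg c w) : c * c = 0 := by
  classical
  refine Matrix.ext fun a b => ?_
  have := ((h.exact _).2 ⟨Pi.single a 1, rfl⟩).1
  rw [vecMul_vecMul, single_one_vecMul] at this
  exact congrFun this b

variable {H : ℕ → Type} [∀ p, NormedAddCommGroup (H p)] [∀ p, InnerProductSpace ℂ (H p)]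
  [∀ p, CompleteSpace (H p)]
  {b : ∀ p, HilbertBasis (G × {a // deg a = p}) ℂ (H p)} {D : ∀ p q, H p →L[ℂ] H q}
  (hD : ∀ p q, IsRightMul (b p) (b q) (c.submatrix Subtype.val Subtype.val) (D p q))

include hD

theorem asm_det (S : Sof G) : IsDetClass b D := by
  classical
  intro p
  obtain ⟨μ, h1, h2, h3, -⟩ := spec_general (fun a => b (p + 1) (1, a))
    (ContinuousLinearMap.isPositive_adjoint_comp_self (D (p + 1) p))
  exact ⟨μ, h1, h2, h3, t_DET t_MOM t_LIM t_MEAS G _ _ S _ μ _ ⟨h1, h2, fun m => (h3 m).trans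
    ((((hD _ _).rel.adj.comp (hD _ _).rel).pow m).tr.trans ((t_LAP t_OP G).1 _ _ _ m))⟩⟩

theorem asm_spec [DecidableEq ι] (hc : ∀ a b, c a b ≠ 0 → deg a = deg b + 1) :
    ∃ (μ : ℕ → Measure ℝ) (K : ℕ → ℝ), ∀ p, l2Betti b D p = (μ p).real {0} ∧
      (Mom (μ p) (K p) fun j => wtr (ind deg p) ((c * cst c + cst c * c) ^ j)) ∧
      (IntegrableOn Real.log (Set.Ioi 0) (μ p) →
        IsLogSpectral (b p) (laplacian (D p (p - 1)) (D (p + 1) p)) (μ p)) := by
  choose μ h1 h2 h3 h4 using fun p => spec_general (fun a => b p (1, a))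
    ((ContinuousLinearMap.isPositive_adjoint_comp_self (D p (p - 1))).add
      (ContinuousLinearMap.isPositive_self_comp_adjoint (D (p + 1) p)))
  refine ⟨μ, _, fun p => ⟨?_, ⟨h1 p, h2 p, fun m => (h3 p m).trans ?_⟩,
    fun h => ⟨h1 p, h2 p, h3 p, h⟩⟩⟩
  · rw [← h4, ← lap_ker]
    rfl
  · exact ((((hD _ _).rel.adj.comp (hD _ _).rel).add
      ((hD _ _).rel.comp (hD _ _).rel.adj)).pow m).tr.trans
        (((t_LAP t_OP G).2 ι deg c).2 hc p m)

theorem asm_zero (hF : S_FINAL) {κ : Type} [Fintype κ] [DecidableEq κ] [DecidableEq ι]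
    (dκ : κ → ℕ) (S : Sof G) {n : ℕ} (hn : ∀ a, deg a ≤ n)
    (hc : ∀ a b, c a b ≠ 0 → deg a = deg b + 1) (h2 : c * c = 0)
    (hd : ∀ δ : ℝ, 0 < δ → Data S deg dκ c δ) :
    (∀ p, l2Betti b D p = 0) ∧ IsL2Torsion b D n 0 := by
  obtain ⟨μ, K, hμ⟩ := asm_spec hD hc
  obtain ⟨C, hC, h⟩ := hF n
  have h1 := fun δ hδ => h G ι κ S deg dκ c δ μ _ hn hc h2 (hd δ hδ) fun p => (hμ p).2.1
  have h3 : ∀ p, (μ p).real {0} = 0 := fun p =>
    le_antisymm (le_of_forall_pos_le_add fun δ hδ => by simpa using ((h1 δ hδ).1 p).2)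
      measureReal_nonneg
  refine ⟨fun p => (hμ p).1.trans (h3 p), μ, fun p => (hμ p).2.2 ((h1 1 one_pos).1 p).1, ?_⟩
  refine (mul_eq_zero_of_right _ (abs_nonpos_iff.1 (le_of_forall_pos_le_add fun δ hδ => ?_))).symm
  simpa [mul_div_cancel₀ _ hC.ne'] using (h1 (δ / C) (by positivity)).2 h3

end Pool.Agent.P.MP_f30597_gt
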