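import Pool.Agent.P.MP_f30597_gt.Core2

/-! The determinant inequality. -/

namespace Pool.Agent.P.MP_f30597_gt

open Matrix Finset
open scoped Matrix.Norms.L2Operator

set_option linter.unusedSectionVars false

variable {I J : Type} [Fintype I] [DecidableEq I] [Fintype J] [DecidableEq J]

theorem core_div {X : Matrix I I ℝ} (hX : X.IsHermitian) {F : ℝ → ℝ} (hF : F 0 = 0) :
    fc F X = fc (fun t => F t / t) X * X := by
  rw [fc_mul_self hX]
  congr 1
  funext t
  by_cases h : t = 0
  · simp [h, hF]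
  · field_simp

theorem core_orth {a b : Matrix I I ℝ} (ha : a.IsHermitian) (hb : b.IsHermitian)
    (h1 : a * b = 0) (h2 : b * a = 0) {F : ℝ → ℝ} (hF : F 0 = 0) :
    fc F (a + b) = fc F a + fc F b := by
  rw [core_div (ha.add hb) hF, core_div ha hF, core_div hb hF, Matrix.mul_add,
    fc_inter (ha.add hb) ha (Z := a) (by rw [Matrix.add_mul, h2, add_zero]),
    fc_inter (ha.add hb) hb (Z := b) (by rw [Matrix.add_mul, h1, zero_add]),
    fc_inter ha ha rfl, fc_inter hb hb rfl]

theorem core_shift {dI : I → ℕ} {d : Matrix I I ℝ} (dd : Deg dI dI 1 d) {F : ℝ → ℝ}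
    (hF : F 0 = 0) (u : ℕ → ℝ) :
    (diagonal (fun a => u (dI a)) * fc F (d * dᴴ)).trace =
      (diagonal (fun a => u (dI a + 1)) * fc F (dᴴ * d)).trace := by
  have ha := isHermitian_conjTranspose_mul_self d
  have hb := isHermitian_mul_conjTranspose_self d
  have h1 := dd.comm u (fun k => u (k + 1)) fun a b e => by
    rw [show a = b + 1 by omega]
  rw [core_div hb hF, core_div ha hF, ← Matrix.mul_assoc _ d,
    fc_inter hb ha (Z := d) (Matrix.mul_assoc _ _ _), ← Matrix.mul_assoc, ← Matrix.mul_assoc, h1,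
    Matrix.mul_assoc, Matrix.mul_assoc, trace_mul_comm]
  simp only [Matrix.mul_assoc]

theorem core_par (n : ℕ) : ∃ j : ℕ, ∀ (X Y : Type) [Fintype X] [DecidableEq X]
    [Fintype Y] [DecidableEq Y] (dX : X → ℕ) (dY : Y → ℕ) (d h : Matrix X X ℝ) (φ : Matrix X Y ℝ)
    (ψ : Matrix Y X ℝ) (s : Matrix Y Y ℝ) (B : ℝ) (r : ℕ), (∀ x, dX x ≤ n) → 2 ≤ B →
    ‖d‖ ≤ B → ‖h‖ ≤ B → ‖φ‖ ≤ B → ‖ψ‖ ≤ B → ‖s‖ ≤ B →
    IsInt d → IsInt h → IsInt φ → IsInt ψ → IsInt s → d * d = 0 →
    Deg dX dX 1 d → Deg dX dX (-1) h → Deg dX dY 0 φ → Deg dY dX 0 ψ → Deg dY dY 1 s →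
    (d * φ - φ * s).rank ≤ r → (s * ψ - ψ * d).rank ≤ r →
    (φ * ψ - 1 - (h * d + d * h)).rank ≤ r → ∀ i : ℕ,
    (diagonal (fun a => (-1 : ℝ) ^ (dX a + i)) * fc (fl (1 / B)) (dᴴ * d)).trace ≤
      j * ((s * sᴴ).trace +
        (r + (1 - fc (chi (1 / B)) (d * dᴴ + dᴴ * d)).rank) * Real.log B) := by
  obtain ⟨j, hj⟩ := core_half n
  refine ⟨j, ?_⟩
  intro X Y _ _ _ _ dX dY d h φ ψ s B r hn hB bd bh bφ bψ bs id ih iφ iψ is hd dd dh dφ dψ ds
    r1 r2 r3 i
  obtain ⟨u, hu⟩ : ∃ u : ℕ → ℝ, u = fun k => if Even (k + i) then 1 else 0 := ⟨_, rfl⟩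
  have u1 : ∀ k, u (k + 1) = 1 - u k := fun k => by
    rw [hu]
    simp only [show k + 1 + i = k + i + 1 by ring, Nat.even_add_one]
    by_cases h : Even (k + i) <;> simp [h]
  have u2 : ∀ k, u k * u k = u k := fun k => by
    rw [hu]
    by_cases h : Even (k + i) <;> simp [h]
  have u3 : ∀ k, |u k| ≤ 1 := fun k => by
    rw [hu]
    by_cases h : Even (k + i) <;> simp [h]
  have u4 : ∀ k, u k - u (k + 1) = (-1) ^ (k + i) := fun k => by
    rw [u1, hu]
    by_cases h : Even (k + i)
    · simp [h]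
    · simp [h, (Nat.not_even_iff_odd.1 h).neg_one_pow]
  have one : ∀ {K : Type} [Fintype K] [DecidableEq K] (dK : K → ℕ),
      diagonal (fun a => 1 - u (dK a)) = 1 - diagonal fun a => u (dK a) := fun dK => by
    rw [← diagonal_one, diagonal_sub]
  obtain ⟨e, he⟩ : ∃ e : Matrix X X ℝ, e = diagonal fun a => u (dX a) := ⟨_, rfl⟩
  obtain ⟨f, hf⟩ : ∃ e : Matrix Y Y ℝ, e = diagonal fun a => u (dY a) := ⟨_, rfl⟩
  have B1 : ∀ {K L : Type} [Fintype K] [DecidableEq K] [Fintype L] [DecidableEq L]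
      {Z : Matrix K L ℝ}, ‖Z‖ ≤ B → Bd B 1 Zᴴ := fun h => Bd.conjT (by rwa [Bd, pow_one])
  have be : Bd B 0 e := by rw [Bd, pow_zero, he]; exact nrm_diag zero_le_one fun _ => u3 _
  have bf : Bd B 0 f := by rw [Bd, pow_zero, hf]; exact nrm_diag zero_le_one fun _ => u3 _
  have ie : IsInt e := by rw [he, hu]; exact isInt_diag _
  have if' : IsInt f := by rw [hf, hu]; exact isInt_diag _
  have eh : eᴴ = e := he ▸ isHermitian_diagonal _
  have fh : fᴴ = f := hf ▸ isHermitian_diagonal _
  have ee : e * e = e := by rw [he, diagonal_mul_diagonal]; simp only [u2]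
  have ff : f * f = f := by rw [hf, diagonal_mul_diagonal]; simp only [u2]
  have c1 : e * dᴴ = dᴴ - dᴴ * e := by
    rw [he, dd.conjT.comm u (fun k => 1 - u k) fun a b h => by
      rw [show b = a + 1 by omega, u1]; ring, one, Matrix.mul_sub, Matrix.mul_one]
  have c2 : e * dᴴᴴ = dᴴᴴ - dᴴᴴ * e := by
    rw [conjTranspose_conjTranspose, he, dd.comm u (fun k => 1 - u k) fun a b h => by
      rw [show a = b + 1 by omega, u1], one, Matrix.mul_sub, Matrix.mul_one]
  have c3 : f * s = s - s * f := by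
    rw [hf, ds.comm u (fun k => 1 - u k) fun a b h => by
      rw [show a = b + 1 by omega, u1], one, Matrix.mul_sub, Matrix.mul_one]
  have c4 : f * φᴴ = φᴴ * e := by
    rw [he, hf]
    exact dφ.conjT.comm u u fun a b h => by rw [show a = b by omega]
  have c5 : e * ψᴴ = ψᴴ * f := by
    rw [he, hf]
    exact dψ.conjT.comm u u fun a b h => by rw [show a = b by omega]
  have c6 : f * (sᴴ * s) = sᴴ * s * f := by
    rw [hf]
    exact (ds.conjT.mul ds).comm u u fun a b h => by rw [show a = b by omega]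
  have main := hj X Y dX dY dᴴ hᴴ e φᴴ ψᴴ (f * sᴴ) B r hn hB (B1 bd) (B1 bh) (B1 bφ) (B1 bψ)
    (bf.mul (B1 bs)) be id.conjT ih.conjT iφ.conjT iψ.conjT (if'.mul is.conjT) ie
    (by rw [← conjTranspose_mul, hd, conjTranspose_zero]) dd.conjT dh.conjT dφ.conjT dψ.conjT
    (((hf ▸ deg_diag _ : Deg dY dY 0 f).mul ds.conjT).of_eq (by norm_num)) (he ▸ deg_diag _)
    eh ee c1 c2
    (fun Z hZ => he ▸ hZ.comm u u fun a b h => by rw [show a = b by omega])
    (fun Z hZ => he ▸ hZ.comm u u fun a b h => by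
      rw [show a = b + 1 + 1 by omega, u1, u1]; ring)
    (by
      rw [conjTranspose_mul, conjTranspose_conjTranspose, fh, ← Matrix.mul_assoc, c5,
        Matrix.mul_assoc, ← Matrix.mul_assoc f, c3, Matrix.sub_mul, Matrix.mul_assoc s, ff]
      simp)
    (by
      have : φᴴ * (e * dᴴ) - f * sᴴ * φᴴ = f * (d * φ - φ * s)ᴴ := by
        rw [← Matrix.mul_assoc, ← c4]
        simp only [conjTranspose_sub, conjTranspose_mul, Matrix.mul_sub, Matrix.mul_assoc]
      rw [this]
      exact (rank_mul_le_right _ _).trans (by rwa [rank_conjTranspose]))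
    (by
      have : dᴴ * (ψᴴ * (f * sᴴ)ᴴ) - ψᴴ * (f * sᴴ * (f * sᴴ)ᴴ) =
          -((s * ψ - ψ * d)ᴴ * (s * f)) := by
        rw [conjTranspose_mul, conjTranspose_conjTranspose, fh, Matrix.mul_assoc f,
          ← Matrix.mul_assoc sᴴ, ← Matrix.mul_assoc f, c6, Matrix.mul_assoc _ f, ff]
        simp only [conjTranspose_sub, conjTranspose_mul, Matrix.sub_mul, Matrix.mul_assoc, neg_sub]
      rw [this]
      exact (rk_neg _).trans ((rank_mul_le_left _ _).trans (by rwa [rank_conjTranspose])))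
    (by
      have : ψᴴ * φᴴ - 1 - (dᴴ * hᴴ + hᴴ * dᴴ) = (φ * ψ - 1 - (h * d + d * h))ᴴ := by
        simp only [conjTranspose_sub, conjTranspose_mul, conjTranspose_add, conjTranspose_one]
      rwa [this, rank_conjTranspose])
  have t1 : (f * sᴴ * (f * sᴴ)ᴴ).trace ≤ (s * sᴴ).trace := by
    have t2 := (posSemidef_self_mul_conjTranspose ((1 - f) * sᴴ)).trace_nonneg
    have t3 : (f * sᴴ * (f * sᴴ)ᴴ).trace + ((1 - f) * sᴴ * ((1 - f) * sᴴ)ᴴ).trace =
        (s * sᴴ).trace := by
      rw [trace_mul_comm, trace_mul_comm ((1 - f) * sᴴ), ← trace_add]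
      congr 1
      simp only [conjTranspose_mul, conjTranspose_conjTranspose, fh, conjTranspose_sub,
        Matrix.mul_assoc, Matrix.sub_mul, Matrix.mul_sub, Matrix.one_mul,
        ← Matrix.mul_assoc f f, ff]
      abel
    linarith
  rw [conjTranspose_conjTranspose, he, core_shift dd (by simp [fl]), ← trace_sub,
    ← Matrix.sub_mul, diagonal_sub] at main
  simp only [u4] at main
  exact main.trans (mul_le_mul_of_nonneg_left (by linarith) (Nat.cast_nonneg j))

theorem t_CORE : S_CORE := by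
  intro n
  obtain ⟨j, hj⟩ := core_par n
  refine ⟨j + 2 * n + 1, by positivity, ?_⟩
  intro X Y _ _ _ _ dX dY d h φ ψ s B r hn hB bd bh bφ bψ bs id ih iφ iψ is hd dd dh dφ dψ ds
    r1 r2 r3
  have ha := isHermitian_conjTranspose_mul_self d
  have hb := isHermitian_mul_conjTranspose_self d
  have hD := hb.add ha
  have hB0 : 0 < B := by linarith
  have hd' : dᴴ * dᴴ = 0 := by rw [← conjTranspose_mul, hd, conjTranspose_zero]
  constructor
  · have m := hj X Y dX dY d h φ ψ s B r hn hB bd bh bφ bψ bs id ih iφ iψ is hd dd dh dφ dψ ds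
      r1 r2 r3
    have e1 : ∀ Z : Matrix X X ℝ, ∑ p ∈ range (n + 1), (-1) ^ p * (p : ℝ) *
        (diagonal (ind dX p) * Z).trace =
        (diagonal (fun a => (-1) ^ dX a * (dX a : ℝ)) * Z).trace := fun Z => by
      simp only [trace, diag_apply, diagonal_mul, mul_sum, ind]
      rw [sum_comm]
      refine sum_congr rfl fun a _ => ?_
      rw [sum_eq_single (dX a) (fun b _ hb => by simp [hb.symm])
        (fun h => absurd (mem_range.2 (Nat.lt_succ_of_le (hn a))) h)]
      simp
    have e2 : fc (lg B) (d * dᴴ + dᴴ * d) = fc (fl (1 / B)) (d * dᴴ + dᴴ * d) -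
        Real.log B • (1 - fc (chi (1 / B)) (d * dᴴ + dᴴ * d)) := by
      rw [← fc_one hD, fc_sub hD, fc_smul hD, fc_sub hD]
      congr 1
      funext t
      unfold lg fl chi
      split_ifs with h
      · simp only [max_eq_left h, sub_self, mul_zero, sub_zero]
      · rw [max_eq_right (not_le.1 h).le, one_div, Real.log_inv]
        ring
    have e3 : 1 - fc (chi (1 / B)) (d * dᴴ + dᴴ * d) =
        fc (fun t => if t < 1 / B then 1 else 0) (d * dᴴ + dᴴ * d) := by
      rw [← fc_one hD, fc_sub hD]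
      congr 1
      funext t
      unfold chi
      by_cases h : t < 1 / B
      · rw [if_pos h, if_neg (not_le.2 h), sub_zero]
      · rw [if_neg h, if_pos (not_lt.1 h), sub_self]
    have e4 : ((1 - fc (chi (1 / B)) (d * dᴴ + dᴴ * d)).rank : ℝ) ≤
        (fc (tent B) (d * dᴴ + dᴴ * d)).trace := by
      rw [e3, fc_rank hD, fc_trace hD, fc_trace hD]
      refine sum_le_sum fun i _ => ?_
      unfold tent
      split_ifs with h
      · rw [lt_div_iff₀ hB0] at h
        exact le_max_of_le_right (le_min le_rfl (by linarith))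
      · exact le_max_left _ _
    have e5 : |(diagonal (fun a => (-1) ^ dX a * (dX a : ℝ)) *
        (1 - fc (chi (1 / B)) (d * dᴴ + dᴴ * d))).trace| ≤
        2 * (1 - fc (chi (1 / B)) (d * dᴴ + dᴴ * d)).rank * n := by
      refine (trace_le_rank _).trans (mul_le_mul (mul_le_mul_of_nonneg_left
        (Nat.cast_le.2 (rank_mul_le_right _ _)) zero_le_two) ?_ (norm_nonneg _) (by positivity))
      rw [← mul_one (n : ℝ)]
      refine nrm_mul (nrm_diag (Nat.cast_nonneg n) fun a => ?_) ?_
      · simpa [abs_mul] using hn a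
      · rw [e3]
        exact fc_norm hD zero_le_one fun i => by split_ifs <;> simp
    have e6 : (diagonal (fun a => (-1) ^ dX a * (dX a : ℝ)) *
        fc (fl (1 / B)) (d * dᴴ + dᴴ * d)).trace =
        (diagonal (fun a => (-1 : ℝ) ^ (dX a + 1)) * fc (fl (1 / B)) (dᴴ * d)).trace := by
      rw [core_orth hb ha (by rw [Matrix.mul_assoc, ← Matrix.mul_assoc dᴴ, hd']; simp)
        (by rw [Matrix.mul_assoc, ← Matrix.mul_assoc d, hd]; simp) (by simp [fl]), Matrix.mul_add,
        trace_add, core_shift dd (by simp [fl]) fun k => (-1) ^ k * (k : ℝ), ← trace_add,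
        ← Matrix.add_mul, diagonal_add]
      congr 3
      funext a
      push_cast
      ring
    have e7 : (diagonal (fun a => (-1 : ℝ) ^ (dX a + 0)) * fc (fl (1 / B)) (dᴴ * d)).trace =
        -(diagonal (fun a => (-1 : ℝ) ^ (dX a + 1)) * fc (fl (1 / B)) (dᴴ * d)).trace := by
      rw [← trace_neg, ← Matrix.neg_mul, diagonal_neg]
      simp [pow_succ]
    have m0 := m 0
    have m1 := m 1
    rw [e7] at m0
    rw [e1, e2, Matrix.mul_sub, trace_sub, Matrix.mul_smul, trace_smul, smul_eq_mul, e6]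
    have hL : 0 ≤ Real.log B := Real.log_nonneg (by linarith)
    have hs := (posSemidef_self_mul_conjTranspose s).trace_nonneg
    have x0 := (Nat.cast_nonneg _).trans e4
    generalize ((1 - fc (chi (1 / B)) (d * dᴴ + dᴴ * d)).rank : ℝ) = R at *
    generalize (fc (tent B) (d * dᴴ + dᴴ * d)).trace = T at *
    have x1 := mul_le_mul_of_nonneg_left (mul_le_mul_of_nonneg_right e4 hL) (Nat.cast_nonneg j)
    have x2 := mul_le_mul_of_nonneg_left (mul_le_mul_of_nonneg_right e4 hL) (Nat.cast_nonneg n)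
    have x3 := mul_le_mul_of_nonneg_left (abs_le.1 e5).1 hL
    have x4 := mul_le_mul_of_nonneg_left (abs_le.1 e5).2 hL
    have x5 : 0 ≤ (r : ℝ) * Real.log B := by positivity
    have x6 := mul_nonneg (Nat.cast_nonneg n) x5
    have x7 := mul_nonneg (Nat.cast_nonneg n) hs
    have x8 : 0 ≤ T * Real.log B := mul_nonneg x0 hL
    rw [abs_le]
    constructor <;> nlinarith
  · obtain ⟨P, hP⟩ : ∃ P, P = fc z0 (d * dᴴ + dᴴ * d) := ⟨_, rfl⟩
    have Ph : Pᴴ = P := hP ▸ fc_conjT _ _
    have PP : P * P = P := by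
      rw [hP, fc_mul hD]
      congr 1
      funext t
      by_cases h : t = 0 <;> simp [z0, h]
    have e1 : (dᴴ * P)ᴴ * (dᴴ * P) + (d * P)ᴴ * (d * P) = 0 := by
      have : P * (d * dᴴ + dᴴ * d) = 0 := by
        rw [hP, fc_mul_self hD, ← fc_zero hD]
        congr 1
        funext t
        by_cases h : t = 0 <;> simp [z0, h]
      simpa only [conjTranspose_mul, conjTranspose_conjTranspose, Ph, Matrix.mul_add,
        Matrix.add_mul, Matrix.mul_assoc, Matrix.zero_mul] using congrArg (· * P) this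
    have e2 := congrArg trace e1
    rw [trace_add, trace_zero] at e2
    have e3 := (posSemidef_conjTranspose_mul_self (dᴴ * P)).trace_nonneg
    have e4 := (posSemidef_conjTranspose_mul_self (d * P)).trace_nonneg
    have e5 : dᴴ * P = 0 := trace_conjTranspose_mul_self_eq_zero_iff.1 (by linarith)
    have e6 : d * P = 0 := trace_conjTranspose_mul_self_eq_zero_iff.1 (by linarith)
    have e7 : P * d = 0 := by
      simpa only [conjTranspose_mul, conjTranspose_conjTranspose, Ph, conjTranspose_zero] using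
        congrArg conjTranspose e5
    have e8 : P = P * φ * (ψ * P) - P * ((φ * ψ - 1 - (h * d + d * h)) * P) := by
      simp only [Matrix.sub_mul, Matrix.mul_sub, Matrix.add_mul, Matrix.mul_add, Matrix.mul_assoc,
        e6, ← Matrix.mul_assoc P d, e7, Matrix.one_mul, PP]
      simp
    have e9 : P.rank ≤ φ.rank + r := by
      conv_lhs => rw [e8]
      exact (rk_sub _ _).trans (Nat.add_le_add
        ((rank_mul_le_left _ _).trans (rank_mul_le_right _ _))
        ((rank_mul_le_right _ _).trans ((rank_mul_le_left _ _).trans r3)))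
    have e10 : (P.rank : ℝ) = P.trace := by
      rw [hP]
      exact fc_rank hD (· = 0)
    rw [← hP, ← e10]
    exact_mod_cast e9

end Pool.Agent.P.MP_f30597_gt
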