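import Pool.Agent.P.MP_f30597_gt.Iface

/-! Preliminaries for the determinant inequality. -/

namespace Pool.Agent.P.MP_f30597_gt

open Matrix Finset
open scoped Matrix.Norms.L2Operator

set_option linter.unusedSectionVars false

variable {I J L : Type} [Fintype I] [DecidableEq I] [Fintype J] [DecidableEq J] [Fintype L]
  [DecidableEq L]

theorem core_abs {Ξ X P P0 G' : Matrix I I ℝ} {b b' : ℝ} {ρ1 ρ2 : ℕ} (hi : IsInt Ξ)
    (hG : (Xᴴ * X + P) * G' = 1) (h1 : Ξ * P0 = 0) (h2 : P0ᴴ = P0) (h3 : P0 * P0 = P0)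
    (r1 : (Ξ - X).rank ≤ ρ1) (r2 : (P - P0).rank ≤ ρ2) (n1 : ‖Ξ‖ ≤ b) (n2 : ‖X‖ ≤ b)
    (n3 : ‖P‖ ≤ 1) (n4 : ‖G'‖ ≤ b') :
    1 ≤ |(Xᴴ * X + P).det| * (1 + b' * (2 * b ^ 2 + 2)) ^ (2 * (3 * ρ1 + 2 * ρ2)) := by
  have hA := posSemidef_conjTranspose_mul_self Ξ
  obtain ⟨π, hπ⟩ : ∃ π, π = fc z0 (Ξᴴ * Ξ) := ⟨_, rfl⟩
  have hY : Ξᴴ * Ξ + π = fc (fun t => Real.exp (Real.log t)) (Ξᴴ * Ξ) := by
    rw [hπ]
    conv_lhs => arg 1; rw [← fc_id hA.1]
    rw [fc_add hA.1]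
    refine fc_congr_pos hA fun t ht => ?_
    rcases ht.eq_or_lt with rfl | ht
    · simp [z0]
    · simp [z0, ht.ne', Real.exp_log ht]
  have hd : 1 ≤ |(Ξᴴ * Ξ + π).det| := by
    rw [hY, fc_det_exp hA.1]
    exact (Real.one_le_exp (int_log hA.1 (hi.conjT.mul hi))).trans (le_abs_self _)
  have hπh : πᴴ = π := hπ ▸ fc_conjT _ _
  have e1 : Ξ * π = 0 := by
    rw [← conjTranspose_mul_self_eq_zero, conjTranspose_mul, hπh, Matrix.mul_assoc,
      ← Matrix.mul_assoc Ξᴴ, hπ, self_mul_fc hA.1, fc_mul hA.1, ← fc_zero hA.1]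
    congr 1
    funext t
    by_cases h : t = 0 <;> simp [z0, h]
  have e2 : π * P0 = P0 := by
    have : π = 1 - fc (fun t => t⁻¹) (Ξᴴ * Ξ) * (Ξᴴ * Ξ) := by
      rw [fc_mul_self hA.1, ← fc_one hA.1, fc_sub hA.1, hπ]
      congr 1
      funext t
      by_cases h : t = 0 <;> simp [z0, h]
    rw [this, Matrix.sub_mul, Matrix.one_mul, Matrix.mul_assoc, Matrix.mul_assoc, h1]
    simp
  have e3 : P0 * π = P0 := by
    have := congrArg conjTranspose e2
    rwa [conjTranspose_mul, h2, hπh] at this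
  have e4 : π - P0 = G' * (Xᴴ * (-(Ξ - X) * (π - P0)) + (P - P0) * (π - P0)) := by
    have e5 : Xᴴ * (-(Ξ - X) * (π - P0)) + (P - P0) * (π - P0) = (Xᴴ * X + P) * (π - P0) := by
      simp only [neg_sub, Matrix.sub_mul, Matrix.mul_sub, Matrix.add_mul, e1, h1, e3, h3,
        Matrix.mul_assoc, Matrix.mul_zero]
      abel
    rw [e5, ← Matrix.mul_assoc, mul_eq_one_comm.1 hG, Matrix.one_mul]
  have r3 : (π - P0).rank ≤ ρ1 + ρ2 := by
    rw [e4]
    refine (rank_mul_le_right _ _).trans ((rk_add _ _).trans (Nat.add_le_add ?_ ?_))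
    · exact (rank_mul_le_right _ _).trans ((rank_mul_le_left _ _).trans ((rk_neg _).trans r1))
    · exact (rank_mul_le_left _ _).trans r2
  have e6 : Ξᴴ * Ξ + π - (Xᴴ * X + P) =
      Ξᴴ * (Ξ - X) + (Ξ - X)ᴴ * X + (π - P0) - (P - P0) := by
    simp only [conjTranspose_sub, Matrix.mul_sub, Matrix.sub_mul]
    abel
  have r4 : (Ξᴴ * Ξ + π - (Xᴴ * X + P)).rank ≤ 3 * ρ1 + 2 * ρ2 := by
    rw [e6]
    have a1 := rk_sub (Ξᴴ * (Ξ - X) + (Ξ - X)ᴴ * X + (π - P0)) (P - P0)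
    have a2 := rk_add (Ξᴴ * (Ξ - X) + (Ξ - X)ᴴ * X) (π - P0)
    have a3 := rk_add (Ξᴴ * (Ξ - X)) ((Ξ - X)ᴴ * X)
    have a4 := rank_mul_le_right Ξᴴ (Ξ - X)
    have a5 := rank_mul_le_left (Ξ - X)ᴴ X
    rw [rank_conjTranspose] at a5
    omega
  have hb : 0 ≤ b := (norm_nonneg _).trans n1
  have hb' : 0 ≤ b' := (norm_nonneg _).trans n4
  have n5 : ‖Ξᴴ * Ξ + π - (Xᴴ * X + P)‖ ≤ 2 * b ^ 2 + 2 := by
    have a1 := norm_sub_le (Ξᴴ * Ξ + π) (Xᴴ * X + P)
    have a2 := norm_add_le (Ξᴴ * Ξ) π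
    have a3 := norm_add_le (Xᴴ * X) P
    have a4 : ‖π‖ ≤ 1 := hπ ▸ fc_norm hA.1 zero_le_one fun i => by
      unfold z0
      split_ifs <;> simp
    rw [l2_opNorm_conjTranspose_mul_self] at a2 a3
    nlinarith [norm_nonneg Ξ, norm_nonneg X]
  refine hd.trans ((det_pert hG).trans (mul_le_mul_of_nonneg_left ?_ (abs_nonneg _)))
  calc _ ≤ (1 + b' * (2 * b ^ 2 + 2)) ^ (2 * (Ξᴴ * Ξ + π - (Xᴴ * X + P)).rank) := by gcongr
    _ ≤ _ := pow_le_pow_right₀ (le_add_of_nonneg_right (by positivity)) (by omega)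

theorem core_blocks (a : Matrix I I ℝ) (b : Matrix I J ℝ) (c : Matrix J I ℝ) (d : Matrix J J ℝ) :
    fromBlocks a b c d =
      fromRows (1 : Matrix I I ℝ) (0 : Matrix J I ℝ) * a *
        (fromRows (1 : Matrix I I ℝ) (0 : Matrix J I ℝ))ᴴ +
      fromRows (1 : Matrix I I ℝ) (0 : Matrix J I ℝ) * b *
        (fromRows (0 : Matrix I J ℝ) (1 : Matrix J J ℝ))ᴴ +
      fromRows (0 : Matrix I J ℝ) (1 : Matrix J J ℝ) * c *
        (fromRows (1 : Matrix I I ℝ) (0 : Matrix J I ℝ))ᴴ +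
      fromRows (0 : Matrix I J ℝ) (1 : Matrix J J ℝ) * d *
        (fromRows (0 : Matrix I J ℝ) (1 : Matrix J J ℝ))ᴴ := by
  simp only [conjTranspose_fromRows_eq_fromCols_conjTranspose, fromRows_mul]
  simp only [conjTranspose_one, conjTranspose_zero, Matrix.one_mul, Matrix.zero_mul,
    mul_fromCols, Matrix.mul_one, Matrix.mul_zero]
  ext (i | i) (j | j) <;> simp

theorem core_rk_blocks (a : Matrix I I ℝ) (b : Matrix I J ℝ) (c : Matrix J I ℝ)
    (d : Matrix J J ℝ) : (fromBlocks a b c d).rank ≤ a.rank + b.rank + c.rank + d.rank := by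
  rw [core_blocks]
  refine (rk_add _ _).trans (Nat.add_le_add ((rk_add _ _).trans (Nat.add_le_add
    ((rk_add _ _).trans (Nat.add_le_add ?_ ?_)) ?_)) ?_) <;>
  exact (rank_mul_le_left _ _).trans (rank_mul_le_right _ _)

theorem core_nrm_blocks (a : Matrix I I ℝ) (b : Matrix I J ℝ) (c : Matrix J I ℝ)
    (d : Matrix J J ℝ) : ‖fromBlocks a b c d‖ ≤ ‖a‖ + ‖b‖ + ‖c‖ + ‖d‖ := by
  have h1 : ‖fromRows (1 : Matrix I I ℝ) (0 : Matrix J I ℝ)‖ ≤ 1 := nrm_iso (by
    rw [conjTranspose_fromRows_eq_fromCols_conjTranspose, fromCols_mul_fromRows]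
    simp)
  have h2 : ‖fromRows (0 : Matrix I J ℝ) (1 : Matrix J J ℝ)‖ ≤ 1 := nrm_iso (by
    rw [conjTranspose_fromRows_eq_fromCols_conjTranspose, fromCols_mul_fromRows]
    simp)
  have h3 := h1
  have h4 := h2
  rw [← l2_opNorm_conjTranspose] at h3 h4
  rw [core_blocks]
  refine (norm_add_le _ _).trans (add_le_add ((norm_add_le _ _).trans (add_le_add
    ((norm_add_le _ _).trans (add_le_add ?_ ?_)) ?_)) ?_)
  · simpa using nrm_mul (nrm_mul h1 (le_refl ‖a‖)) h3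
  · simpa using nrm_mul (nrm_mul h1 (le_refl ‖b‖)) h4
  · simpa using nrm_mul (nrm_mul h2 (le_refl ‖c‖)) h3
  · simpa using nrm_mul (nrm_mul h2 (le_refl ‖d‖)) h4

theorem core_nrm_diag {a : Matrix I I ℝ} {d : Matrix J J ℝ} (h1 : aᴴ = a) (h2 : a * a = a)
    (h3 : dᴴ = d) (h4 : d * d = d) : ‖fromBlocks a 0 0 d‖ ≤ 1 := by
  have h := l2_opNorm_conjTranspose_mul_self (fromBlocks a 0 0 d)
  rw [fromBlocks_conjTranspose, fromBlocks_multiply] at h
  simp only [conjTranspose_zero, h1, h2, h3, h4, Matrix.zero_mul, Matrix.mul_zero, add_zero,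
    zero_add] at h
  by_contra h5
  nlinarith [norm_nonneg (fromBlocks a 0 0 d)]

theorem core_int_blocks {a : Matrix I I ℝ} {b : Matrix I J ℝ} {c : Matrix J I ℝ}
    {d : Matrix J J ℝ} (ha : IsInt a) (hb : IsInt b) (hc : IsInt c) (hd : IsInt d) :
    IsInt (fromBlocks a b c d) := by
  rintro (i | i) (j | j)
  exacts [ha i j, hb i j, hc i j, hd i j]

/-- norm at most `B ^ j` -/
def Bd (B : ℝ) (j : ℕ) (X : Matrix I J ℝ) : Prop := ‖X‖ ≤ B ^ j

variable {B : ℝ} {j k : ℕ}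

theorem Bd.mono {X : Matrix I J ℝ} (h : Bd B j X) (hB : 2 ≤ B) (hk : j ≤ k) : Bd B k X :=
  le_trans h (pow_le_pow_right₀ (by linarith) hk)

theorem Bd.mul {X : Matrix I J ℝ} {Y : Matrix J L ℝ} (hX : Bd B j X) (hY : Bd B k Y) :
    Bd B (j + k) (X * Y) := by
  rw [Bd, pow_add]
  exact nrm_mul hX hY

theorem Bd.add {X Y : Matrix I J ℝ} (hX : Bd B j X) (hY : Bd B k Y) (hB : 2 ≤ B) :
    Bd B (j + k + 1) (X + Y) := by
  have h1 := hX.mono hB (Nat.le_add_right j k)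
  have h2 := hY.mono hB (Nat.le_add_left k j)
  have h3 : 0 ≤ B ^ (j + k) := by positivity
  rw [Bd] at *
  rw [pow_succ]
  nlinarith [norm_add_le X Y]

theorem Bd.neg {X : Matrix I J ℝ} (hX : Bd B j X) : Bd B j (-X) := by rwa [Bd, norm_neg]

theorem Bd.sub {X Y : Matrix I J ℝ} (hX : Bd B j X) (hY : Bd B k Y) (hB : 2 ≤ B) :
    Bd B (j + k + 1) (X - Y) := by
  rw [sub_eq_add_neg]
  exact hX.add hY.neg hB

theorem Bd.conjT {X : Matrix I J ℝ} (hX : Bd B j X) : Bd B j Xᴴ := by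
  rwa [Bd, l2_opNorm_conjTranspose]

theorem bd_one : Bd B 0 (1 : Matrix I I ℝ) := by simpa [Bd] using nrm_one

theorem bd_zero : Bd B 0 (0 : Matrix I J ℝ) := by simp [Bd]

theorem Bd.pow {X : Matrix I I ℝ} (hX : Bd B j X) (m : ℕ) : Bd B (j * m) (X ^ m) := by
  induction m with
  | zero => simpa using bd_one
  | succ m ih => rw [pow_succ, Nat.mul_succ]; exact ih.mul hX

theorem Bd.geom {X : Matrix I I ℝ} (hX : Bd B j X) (hB : 2 ≤ B) (m : ℕ) :
    Bd B ((j + 1) * m) (∑ i ∈ range m, X ^ i) := by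
  have h1 : ‖∑ i ∈ range m, X ^ i‖ ≤ m * B ^ (j * m) := by
    refine (norm_sum_le _ _).trans ?_
    simpa using sum_le_sum fun i (hi : i ∈ range m) =>
      (hX.pow i).mono hB (Nat.mul_le_mul_left j (mem_range.1 hi).le)
  have h2 : (m : ℝ) ≤ B ^ m :=
    le_trans (by exact_mod_cast Nat.lt_two_pow_self.le) (pow_le_pow_left₀ (by norm_num) hB m)
  rw [Bd, add_mul, one_mul, pow_add, mul_comm]
  exact h1.trans (mul_le_mul_of_nonneg_right h2 (by positivity))

theorem Bd.blocks {a : Matrix I I ℝ} {b : Matrix I J ℝ} {c : Matrix J I ℝ} {d : Matrix J J ℝ}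
    {j1 j2 j3 j4 : ℕ} (ha : Bd B j1 a) (hb : Bd B j2 b) (hc : Bd B j3 c) (hd : Bd B j4 d)
    (hB : 2 ≤ B) : Bd B (j1 + j2 + j3 + j4 + 2) (fromBlocks a b c d) := by
  have h1 := ha.mono hB (show j1 ≤ j1 + j2 + j3 + j4 by omega)
  have h2 := hb.mono hB (show j2 ≤ j1 + j2 + j3 + j4 by omega)
  have h3 := hc.mono hB (show j3 ≤ j1 + j2 + j3 + j4 by omega)
  have h4 := hd.mono hB (show j4 ≤ j1 + j2 + j3 + j4 by omega)
  have h5 : 0 ≤ B ^ (j1 + j2 + j3 + j4) := by positivity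
  have h6 : 4 ≤ B ^ 2 := by nlinarith
  rw [Bd] at *
  rw [pow_add]
  nlinarith [core_nrm_blocks a b c d]

theorem core_fc_zero (F : ℝ → ℝ) : fc F (0 : Matrix I I ℝ) = F 0 • 1 := by
  rw [← fc_const isHermitian_zero]
  refine fc_congr isHermitian_zero fun i => ?_
  rw [congrFun (isHermitian_zero.eigenvalues_eq_zero_iff.2 rfl) i]
  rfl

theorem core_fc_proj {e X : Matrix I I ℝ} (hX : X.IsHermitian) (he : eᴴ = e) (he2 : e * e = e)
    (hc : e * X = X * e) (F : ℝ → ℝ) :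
    (e * X).IsHermitian ∧ fc F (e * X) = e * fc F X + F 0 • (1 - e) := by
  have h0 : (e * X).IsHermitian := by
    rw [IsHermitian, conjTranspose_mul, he, hX.eq, hc]
  refine ⟨h0, ?_⟩
  have h1 := fc_inter h0 hX (Z := e) (by rw [Matrix.mul_assoc, ← hc, ← Matrix.mul_assoc, he2]) F
  have h2 := fc_inter h0 (isHermitian_zero (n := I)) (Z := 1 - e) (by
    rw [Matrix.mul_sub, Matrix.mul_one, Matrix.mul_assoc, ← hc, ← Matrix.mul_assoc, he2]
    simp) F
  rw [core_fc_zero, Matrix.mul_smul, Matrix.mul_one] at h2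
  rw [← h1, ← h2, ← Matrix.mul_add]
  simp

theorem core_nil {n : ℕ} {dI : I → ℕ} (hn : ∀ x, dI x ≤ n) {X : Matrix I I ℝ}
    (hX : Deg dI dI 2 X) : X ^ (n + 1) = 0 := by
  have h : ∀ m : ℕ, Deg dI dI (2 * m) (X ^ m) := by
    intro m
    induction m with
    | zero => simpa using deg_diag (dI := dI) fun _ => (1 : ℝ)
    | succ m ih => rw [pow_succ]; exact (ih.mul hX).of_eq (by push_cast; ring)
  ext a b
  by_contra h0
  have h1 := h (n + 1) a b h0
  have h2 := hn a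
  push_cast at h1
  omega

/-- cut-off functions -/
noncomputable def chi (η t : ℝ) : ℝ := if η ≤ t then 1 else 0

/-- truncated inverse -/
noncomputable def gr (η t : ℝ) : ℝ := if η ≤ t then t⁻¹ else 0

/-- truncated logarithm -/
noncomputable def fl (η t : ℝ) : ℝ := if η ≤ t then Real.log t else 0

section Cut

variable {η : ℝ} (hη : 0 < η) {X : Matrix I I ℝ} (hX : X.IsHermitian)
include hη hX

theorem core_mul_gr : X * fc (gr η) X = fc (chi η) X := by
  rw [self_mul_fc hX]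
  congr 1
  funext t
  unfold gr chi
  split_ifs with h
  · exact mul_inv_cancel₀ (by linarith)
  · simp

theorem core_gr_mul : fc (gr η) X * X = fc (chi η) X := by
  rw [fc_inter hX hX rfl, core_mul_gr hη hX]

omit hη in
theorem core_chi_chi : fc (chi η) X * fc (chi η) X = fc (chi η) X := by
  rw [fc_mul hX]
  congr 1
  funext t
  unfold chi
  split_ifs <;> simp

omit hη in
theorem core_chi_gr : fc (chi η) X * fc (gr η) X = fc (gr η) X := by
  rw [fc_mul hX]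
  congr 1
  funext t
  unfold chi gr
  split_ifs <;> simp

omit hη in
theorem core_gr_chi : fc (gr η) X * fc (chi η) X = fc (gr η) X := by
  rw [fc_mul hX]
  congr 1
  funext t
  unfold chi gr
  split_ifs <;> simp

theorem core_exp_fl : fc (fun t => Real.exp (fl η t)) X = X * fc (chi η) X + 1 - fc (chi η) X := by
  rw [self_mul_fc hX, ← fc_one hX, fc_add hX, fc_sub hX]
  congr 1
  funext t
  unfold fl chi
  split_ifs with h
  · simp [Real.exp_log (hη.trans_le h)]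
  · simp

theorem core_exp_neg_fl :
    fc (fun t => Real.exp (-fl η t)) X = fc (gr η) X + 1 - fc (chi η) X := by
  rw [← fc_one hX, fc_add hX, fc_sub hX]
  congr 1
  funext t
  unfold fl chi gr
  split_ifs with h
  · simp [Real.exp_neg, Real.exp_log (hη.trans_le h)]
  · simp

theorem core_exp_three : fc (fun t => Real.exp (3 * fl η t)) X =
    fc (chi η) X * X * X * (X * fc (chi η) X) + (1 - fc (chi η) X) := by
  rw [fc_mul_self hX, fc_mul_self hX, self_mul_fc hX, fc_mul hX, ← fc_one hX, fc_sub hX,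
    fc_add hX]
  congr 1
  funext t
  unfold fl chi
  split_ifs with h
  · have : (3 : ℝ) * Real.log t = Real.log t + Real.log t + Real.log t := by ring
    rw [this, Real.exp_add, Real.exp_add, Real.exp_log (hη.trans_le h)]
    ring
  · simp

omit hη in
theorem core_exp_inv (F : ℝ → ℝ) :
    fc (fun t => Real.exp (F t)) X * fc (fun t => Real.exp (-F t)) X = 1 := by
  rw [fc_mul hX, ← fc_one hX]
  congr 1
  funext t
  rw [← Real.exp_add]
  simp

end Cut

theorem core_bd_chi {X : Matrix I I ℝ} (hX : X.IsHermitian) (η : ℝ) : Bd B 0 (fc (chi η) X) := by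
  rw [Bd, pow_zero]
  exact fc_norm hX zero_le_one fun i => by unfold chi; split_ifs <;> simp

theorem core_bd_gr {X : Matrix I I ℝ} (hX : X.IsHermitian) (hB : 2 ≤ B) :
    Bd B 1 (fc (gr (1 / B)) X) := by
  rw [Bd, pow_one]
  have h0 : 0 < B := by linarith
  refine fc_norm hX h0.le fun i => ?_
  unfold gr
  split_ifs with h
  · have h1 : 0 < hX.eigenvalues i := lt_of_lt_of_le (by positivity) h
    rw [abs_of_pos (inv_pos.2 h1)]
    exact inv_le_of_inv_le₀ h0 (by simpa using h)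
  · simpa using h0.le

theorem core_bd_exp {X : Matrix I I ℝ} (hX : X.IsHermitian) (hB : 2 ≤ B) (m : ℕ) :
    Bd B m (fc (fun t => Real.exp (-(m * fl (1 / B) t))) X) := by
  have h0 : 0 < B := by linarith
  refine fc_norm hX (by positivity) fun i => ?_
  rw [abs_of_pos (Real.exp_pos _), ← Real.exp_log (pow_pos h0 m), Real.exp_le_exp, Real.log_pow,
    ← mul_neg]
  refine mul_le_mul_of_nonneg_left ?_ (Nat.cast_nonneg m)
  unfold fl
  split_ifs with h
  · have := Real.log_le_log (by positivity) h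
    rw [one_div, Real.log_inv] at this
    linarith
  · simpa using Real.log_nonneg (by linarith)

end Pool.Agent.P.MP_f30597_gt
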