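import Pool.Agent.P.MP_f30597_gt.Core1

/-! The determinant inequality for one parity. -/

namespace Pool.Agent.P.MP_f30597_gt

open Matrix Finset
open scoped Matrix.Norms.L2Operator

set_option linter.unusedSectionVars false

variable {I J : Type} [Fintype I] [DecidableEq I] [Fintype J] [DecidableEq J]

/-- the algebra of the cut-off Green operator -/
theorem core_green {d : Matrix I I ℝ} (hd : d * d = 0) {η : ℝ} (hη : 0 < η) {p g : Matrix I I ℝ}
    (hp : p = fc (chi η) (dᴴ * d + d * dᴴ)) (hg : g = fc (gr η) (dᴴ * d + d * dᴴ)) :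
    p * d = d * p ∧ g * d = d * g ∧ p * dᴴ = dᴴ * p ∧ g * dᴴ = dᴴ * g ∧ p * p = p ∧ p * g = g ∧
      g * p = g ∧ dᴴ * (d * g) + d * (dᴴ * g) = p ∧ pᴴ = p ∧ gᴴ = g ∧
      (d * p + dᴴ * g)ᴴ * (d * p + dᴴ * g) + 1 - p =
        fc (fun t => Real.exp (fl η t)) (dᴴ * d) * fc (fun t => Real.exp (-fl η t)) (d * dᴴ) := by
  have ha := isHermitian_conjTranspose_mul_self d
  have hb := isHermitian_mul_conjTranspose_self d
  have hD := ha.add hb
  have hd' : dᴴ * dᴴ = 0 := by rw [← conjTranspose_mul, hd, conjTranspose_zero]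
  have hd1 : ∀ Z : Matrix I I ℝ, d * (d * Z) = 0 := fun Z => by
    rw [← Matrix.mul_assoc, hd, Matrix.zero_mul]
  have hd2 : ∀ Z : Matrix I I ℝ, dᴴ * (dᴴ * Z) = 0 := fun Z => by
    rw [← Matrix.mul_assoc, hd', Matrix.zero_mul]
  have c1 : (dᴴ * d + d * dᴴ) * d = d * (dᴴ * d + d * dᴴ) := by
    simp only [Matrix.add_mul, Matrix.mul_add, Matrix.mul_assoc, hd, hd1, Matrix.mul_zero,
      zero_add, add_zero]
  have c2 : (dᴴ * d + d * dᴴ) * dᴴ = dᴴ * (dᴴ * d + d * dᴴ) := by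
    simp only [Matrix.add_mul, Matrix.mul_add, Matrix.mul_assoc, hd', hd2, Matrix.mul_zero,
      zero_add, add_zero]
  have c3 : (dᴴ * d + d * dᴴ) * (dᴴ * d) = dᴴ * d * (dᴴ * d) := by
    simp only [Matrix.add_mul, Matrix.mul_assoc, hd2, Matrix.mul_zero, add_zero]
  have c4 : (dᴴ * d + d * dᴴ) * (d * dᴴ) = d * dᴴ * (d * dᴴ) := by
    simp only [Matrix.add_mul, Matrix.mul_assoc, hd1, Matrix.mul_zero, zero_add]
  have c5 : ∀ F : ℝ → ℝ, F 0 = 0 → dᴴ * d * fc F (d * dᴴ) = 0 := fun F hF => by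
    rw [← fc_inter (isHermitian_zero (n := I)) hb (Z := dᴴ * d) (by
      simp only [Matrix.mul_assoc, hd1, Matrix.mul_zero, Matrix.zero_mul]) F, core_fc_zero, hF]
    simp
  have p1 : p * d = d * p := hp ▸ fc_inter hD hD c1 _
  have p2 : g * d = d * g := hg ▸ fc_inter hD hD c1 _
  have p3 : p * dᴴ = dᴴ * p := hp ▸ fc_inter hD hD c2 _
  have p4 : g * dᴴ = dᴴ * g := hg ▸ fc_inter hD hD c2 _
  have p5 : p * p = p := hp ▸ core_chi_chi hD
  have p6 : p * g = g := by rw [hp, hg]; exact core_chi_gr hD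
  have p7 : g * p = g := by rw [hp, hg]; exact core_gr_chi hD
  have p8 : dᴴ * (d * g) + d * (dᴴ * g) = p := by
    rw [hp, ← core_mul_gr hη hD, ← hg, Matrix.add_mul, Matrix.mul_assoc, Matrix.mul_assoc]
  have p9 : pᴴ = p := hp ▸ fc_conjT _ _
  have p10 : gᴴ = g := hg ▸ fc_conjT _ _
  refine ⟨p1, p2, p3, p4, p5, p6, p7, p8, p9, p10, ?_⟩
  have q1 : p * (dᴴ * d) = dᴴ * d * fc (chi η) (dᴴ * d) := hp ▸ fc_inter hD ha c3 _
  have q2 : g * (dᴴ * d) = fc (chi η) (dᴴ * d) := by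
    rw [hg, fc_inter hD ha c3, core_mul_gr hη ha]
  have q3 : g * (d * dᴴ) = fc (chi η) (d * dᴴ) := by
    rw [hg, fc_inter hD hb c4, core_mul_gr hη hb]
  have q4 : g * (g * (d * dᴴ)) = fc (gr η) (d * dᴴ) := by
    rw [q3, ← core_mul_gr hη hb, ← Matrix.mul_assoc, q3, core_chi_gr hb]
  have q5 : p = fc (chi η) (dᴴ * d) + fc (chi η) (d * dᴴ) := by
    rw [← q2, ← q3, ← Matrix.mul_add, hg, core_gr_mul hη hD, hp]
  have q6 : (d * p + dᴴ * g)ᴴ * (d * p + dᴴ * g) = p * (dᴴ * d) + g * (g * (d * dᴴ)) := by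
    have k1 : p * (dᴴ * (d * p)) = p * (dᴴ * d) := by
      rw [← p1, ← Matrix.mul_assoc dᴴ, ← p3, ← Matrix.mul_assoc, ← Matrix.mul_assoc, p5,
        Matrix.mul_assoc]
    have k2 : g * (d * (dᴴ * g)) = g * (g * (d * dᴴ)) := by
      rw [← p4, ← Matrix.mul_assoc d, ← p2, Matrix.mul_assoc]
    simp only [conjTranspose_add, conjTranspose_mul, conjTranspose_conjTranspose, p9, p10,
      Matrix.add_mul, Matrix.mul_add, Matrix.mul_assoc, hd1, hd2, Matrix.mul_zero, add_zero,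
      zero_add, k1, k2]
  have q7 : fc (chi η) (dᴴ * d) * fc (gr η) (d * dᴴ) = 0 := by
    rw [← core_gr_mul hη ha, Matrix.mul_assoc, c5 _ (by simp [gr]), Matrix.mul_zero]
  have q8 : fc (chi η) (dᴴ * d) * fc (chi η) (d * dᴴ) = 0 := by
    rw [← core_gr_mul hη ha, Matrix.mul_assoc, c5 _ (by simp [chi, hη]), Matrix.mul_zero]
  rw [q6, q1, q4, core_exp_fl hη ha, core_exp_neg_fl hη hb, q5]
  generalize dᴴ * d = a at *
  simp only [Matrix.add_mul, Matrix.mul_add, Matrix.sub_mul, Matrix.mul_sub, Matrix.mul_assoc,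
    q7, q8, Matrix.mul_zero, Matrix.mul_one, Matrix.one_mul]
  abel

/-- the cut-off functions of `s sᴴ` -/
theorem core_small {s : Matrix J J ℝ} (hs : IsInt s) {B : ℝ} (hB : 2 ≤ B) :
    ∃ κ : Matrix J J ℝ, κᴴ = κ ∧ κ * κ = κ ∧ κ * s = s ∧
      ((κ - fc (chi (1 / B)) (s * sᴴ)).rank : ℝ) * Real.log B ≤ (s * sᴴ).trace ∧
      (fc (fl (1 / B)) (s * sᴴ)).trace ≤ (s * sᴴ).trace := by
  have hK := posSemidef_self_mul_conjTranspose s
  have h0 : 0 < 1 / B := by positivity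
  have h1 : fc (fun t => 1 - z0 t) (s * sᴴ) * fc (fun t => 1 - z0 t) (s * sᴴ) =
      fc (fun t => 1 - z0 t) (s * sᴴ) := by
    rw [fc_mul hK.1]
    congr 1
    funext t
    unfold z0
    split_ifs <;> simp
  refine ⟨fc (fun t => 1 - z0 t) (s * sᴴ), fc_conjT _ _, h1, ?_, ?_, ?_⟩
  · have h2 : fc z0 (s * sᴴ) * s = 0 := by
      rw [← self_mul_conjTranspose_eq_zero, conjTranspose_mul, fc_conjT, Matrix.mul_assoc,
        ← Matrix.mul_assoc s, self_mul_fc hK.1, fc_mul hK.1, ← fc_zero hK.1]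
      congr 1
      funext t
      by_cases h : t = 0 <;> simp [z0, h]
    rw [← fc_sub hK.1, fc_one hK.1, Matrix.sub_mul, h2]
    simp
  · have h2 : fc (fun t => 1 - z0 t) (s * sᴴ) - fc (chi (1 / B)) (s * sᴴ) =
        fc (fun t => if t ≠ 0 ∧ t < 1 / B then 1 else 0) (s * sᴴ) := by
      rw [fc_sub hK.1]
      congr 1
      funext t
      unfold z0 chi
      by_cases h : t = 0
      · simp [h, show ¬ B ≤ 0 by linarith]
      · by_cases h' : 1 / B ≤ t
        · rw [if_neg h, if_pos h', if_neg fun e => absurd e.2 (not_lt.2 h')]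
          simp
        · rw [if_neg h, if_neg h', if_pos ⟨h, not_le.1 h'⟩]
          simp
    have h3 := int_log hK.1 (hs.mul hs.conjT)
    rw [h2, fc_rank hK.1, fc_trace hK.1, sum_mul]
    rw [fc_trace hK.1] at h3
    conv_rhs => rw [← fc_id hK.1, fc_trace hK.1]
    refine le_trans (sum_le_sum (g := fun i => hK.1.eigenvalues i - Real.log (hK.1.eigenvalues i))
      fun i _ => ?_) (by rw [sum_sub_distrib]; linarith)
    have h4 := hK.eigenvalues_nonneg i
    split_ifs with h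
    · have h5 := Real.log_lt_log (lt_of_le_of_ne h4 h.1.symm) h.2
      rw [one_div, Real.log_inv] at h5
      linarith
    · linarith [Real.log_le_self h4]
  · conv_rhs => rw [← fc_id hK.1, fc_trace hK.1]
    rw [fc_trace hK.1]
    refine sum_le_sum fun i _ => ?_
    have h4 := hK.eigenvalues_nonneg i
    unfold fl
    split_ifs
    exacts [Real.log_le_self h4, h4]

/-- the unipotent part -/
theorem core_unip {n j1 j2 : ℕ} {B : ℝ} (hB : 2 ≤ B) {dI : I → ℕ} (hn : ∀ x, dI x ≤ n)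
    {N1 N2 : Matrix I I ℝ} (h1 : N1 * N1 = 0) (d1 : Deg dI dI 0 N1) (d2 : Deg dI dI 2 N2)
    (b1 : Bd B j1 N1) (b2 : Bd B j2 N2) :
    (1 + (N1 + N2)).det = 1 ∧ ∃ M : Matrix I I ℝ, (1 + (N1 + N2)) * M = 1 ∧
      Bd B ((j1 + 1 + j2 + 1) * (n + 1) + (j1 + 1)) M := by
  have e1 : (1 + N1) * (1 - N1) = 1 := by
    simp only [Matrix.add_mul, Matrix.mul_sub, h1, Matrix.one_mul, Matrix.mul_one]
    abel
  have e2 : 1 + (N1 + N2) = (1 + N1) * (1 - -((1 - N1) * N2)) := by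
    rw [sub_neg_eq_add, Matrix.mul_add, Matrix.mul_one, ← Matrix.mul_assoc, e1, Matrix.one_mul,
      add_assoc]
  have d0 : Deg dI dI 0 (1 : Matrix I I ℝ) := by simpa using deg_diag (dI := dI) fun _ => (1 : ℝ)
  have d3 : Deg dI dI 2 ((1 - N1) * N2) := ((d0.sub d1).mul d2).of_eq (by norm_num)
  have b3 : Bd B (j1 + 1) (1 - N1) := (bd_one.sub b1 hB).mono hB (by omega)
  refine ⟨?_, (∑ i ∈ range (n + 1), (-((1 - N1) * N2)) ^ i) * (1 - N1), ?_, ?_⟩
  · rw [e2, det_mul, det_nil ⟨2, by rw [sq, h1]⟩, sub_neg_eq_add, det_nil ⟨_, core_nil hn d3⟩,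
      one_mul]
  · rw [e2, Matrix.mul_assoc, ← Matrix.mul_assoc (1 - _), mul_neg_geom_sum, core_nil hn d3.neg,
      sub_zero, Matrix.one_mul, e1]
  · exact ((b3.mul b2).neg.geom hB _).mul b3

theorem core_half (n : ℕ) : ∃ j : ℕ, ∀ (I J : Type) [Fintype I] [DecidableEq I] [Fintype J]
    [DecidableEq J] (dI : I → ℕ) (dJ : J → ℕ) (d h e : Matrix I I ℝ) (φ : Matrix J I ℝ)
    (ψ : Matrix I J ℝ) (s : Matrix J J ℝ) (B : ℝ) (r : ℕ), (∀ x, dI x ≤ n) → 2 ≤ B →
    Bd B 1 d → Bd B 1 h → Bd B 1 φ → Bd B 1 ψ → Bd B 1 s → Bd B 0 e →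
    IsInt d → IsInt h → IsInt φ → IsInt ψ → IsInt s → IsInt e → d * d = 0 →
    Deg dI dI (-1) d → Deg dI dI 1 h → Deg dJ dI 0 φ → Deg dI dJ 0 ψ → Deg dJ dJ (-1) s →
    Deg dI dI 0 e → eᴴ = e → e * e = e → e * d = d - d * e → e * dᴴ = dᴴ - dᴴ * e →
    (∀ Z : Matrix I I ℝ, Deg dI dI 0 Z → e * Z = Z * e) →
    (∀ Z : Matrix I I ℝ, Deg dI dI 2 Z → e * Z = Z * e) → e * (ψ * sᴴ) = 0 →
    (φ * (e * d) - s * φ).rank ≤ r → (d * (ψ * sᴴ) - ψ * (s * sᴴ)).rank ≤ r →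
    (ψ * φ - 1 - (d * h + h * d)).rank ≤ r →
    (e * fc (fl (1 / B)) (d * dᴴ)).trace - (e * fc (fl (1 / B)) (dᴴ * d)).trace ≤
      j * ((s * sᴴ).trace +
        (r + (1 - fc (chi (1 / B)) (dᴴ * d + d * dᴴ)).rank) * Real.log B) := by
  refine ⟨10000 * (n + 1), ?_⟩
  intro I J _ _ _ _ dI dJ d h e φ ψ s B r hn hB bd bh bφ bψ bs be id ih iφ iψ is ie hd
    dd dh dφ dψ ds de eh ee ed ed' e0 e2 eψ r1 r2 r3
  have hη : 0 < 1 / B := by positivity
  have ha := isHermitian_conjTranspose_mul_self d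
  have hb := isHermitian_mul_conjTranspose_self d
  have hD := ha.add hb
  have hK := isHermitian_mul_conjTranspose_self s
  obtain ⟨p, hp⟩ : ∃ p, p = fc (chi (1 / B)) (dᴴ * d + d * dᴴ) := ⟨_, rfl⟩
  obtain ⟨g, hg⟩ : ∃ g, g = fc (gr (1 / B)) (dᴴ * d + d * dᴴ) := ⟨_, rfl⟩
  obtain ⟨p1, p2, p3, p4, p5, p6, p7, p8, p9, p10, p11⟩ := core_green hd hη hp hg
  obtain ⟨κ, k1, k2, k3, k4, k5⟩ := core_small is hB
  obtain ⟨ν, hν⟩ : ∃ ν, ν = fc (chi (1 / B)) (s * sᴴ) := ⟨_, rfl⟩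
  obtain ⟨G, hG⟩ : ∃ G, G = fc (gr (1 / B)) (s * sᴴ) := ⟨_, rfl⟩
  rw [← hν] at k4
  rw [← hp]
  have da : Deg dI dI 0 (dᴴ * d) := (dd.conjT.mul dd).of_eq (by norm_num)
  have db : Deg dI dI 0 (d * dᴴ) := (dd.mul dd.conjT).of_eq (by norm_num)
  have dK : Deg dJ dJ 0 (s * sᴴ) := (ds.mul ds.conjT).of_eq (by norm_num)
  have dp : Deg dI dI 0 p := hp ▸ (da.add db).fc hD _
  have dg : Deg dI dI 0 g := hg ▸ (da.add db).fc hD _
  have dG : Deg dJ dJ 0 G := hG ▸ dK.fc hK _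
  have bp : Bd B 0 p := hp ▸ core_bd_chi hD _
  have bg : Bd B 1 g := hg ▸ core_bd_gr hD hB
  have bν : Bd B 0 ν := hν ▸ core_bd_chi hK _
  have bG : Bd B 1 G := hG ▸ core_bd_gr hK hB
  have n1 : ν * ν = ν := hν ▸ core_chi_chi hK
  have n2 : ν * G = G := by rw [hν, hG]; exact core_chi_gr hK
  have n3 : s * (sᴴ * G) = ν := by rw [← Matrix.mul_assoc, hν, hG]; exact core_mul_gr hη hK
  have n4 : νᴴ = ν := hν ▸ fc_conjT _ _
  have n5 : ν * (s * sᴴ) = s * (sᴴ * ν) := by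
    rw [← Matrix.mul_assoc s, hν]; exact fc_inter hK hK rfl _
  have k6 : sᴴ * κ = sᴴ := by
    have := congrArg conjTranspose k3
    rwa [conjTranspose_mul, k1] at this
  have hd' : dᴴ * dᴴ = 0 := by rw [← conjTranspose_mul, hd, conjTranspose_zero]
  obtain ⟨T, hT⟩ : ∃ T, T = d * p + dᴴ * g := ⟨_, rfl⟩
  obtain ⟨γ, hγ⟩ : ∃ γ, γ = ψ * (sᴴ * (G * φ)) - h := ⟨_, rfl⟩
  obtain ⟨N1, hN1⟩ : ∃ N, N = p * (d * (γ * (dᴴ * (d * (g * e))))) := ⟨_, rfl⟩
  obtain ⟨N2, hN2⟩ : ∃ N, N = dᴴ * (g * (γ * (p * e))) := ⟨_, rfl⟩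
  rw [← hT] at p11
  have dγ : Deg dI dI 1 γ := hγ ▸ ((dψ.mul (ds.conjT.mul (dG.mul dφ))).of_eq (by norm_num)).sub dh
  have dN1 : Deg dI dI 0 N1 := hN1 ▸
    (dp.mul (dd.mul (dγ.mul (dd.conjT.mul (dd.mul (dg.mul de)))))).of_eq (by norm_num)
  have dN2 : Deg dI dI 2 N2 := hN2 ▸
    (dd.conjT.mul (dg.mul (dγ.mul (dp.mul de)))).of_eq (by norm_num)
  have bT : Bd B 4 T := hT ▸ (bd.mul bp).add (bd.conjT.mul bg) hB
  have bγ : Bd B 6 γ := hγ ▸ (bψ.mul (bs.conjT.mul (bG.mul bφ))).sub bh hB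
  have bN1 : Bd B 10 N1 := hN1 ▸ bp.mul (bd.mul (bγ.mul (bd.conjT.mul (bd.mul (bg.mul be)))))
  have bN2 : Bd B 8 N2 := hN2 ▸ bd.conjT.mul (bg.mul (bγ.mul (bp.mul be)))
  have ep := e0 p dp
  have eg := e0 g dg
  -- rewriting rules in right associated form
  have A1 : ∀ {K : Type} (Z : Matrix I K ℝ), d * (d * Z) = 0 := fun Z => by
    rw [← Matrix.mul_assoc, hd, Matrix.zero_mul]
  have A2 : ∀ {K : Type} (Z : Matrix I K ℝ), dᴴ * (dᴴ * Z) = 0 := fun Z => by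
    rw [← Matrix.mul_assoc, hd', Matrix.zero_mul]
  have A3 : ∀ {K : Type} (Z : Matrix I K ℝ), p * (d * Z) = d * (p * Z) := fun Z => by
    rw [← Matrix.mul_assoc, p1, Matrix.mul_assoc]
  have A4 : ∀ {K : Type} (Z : Matrix I K ℝ), g * (d * Z) = d * (g * Z) := fun Z => by
    rw [← Matrix.mul_assoc, p2, Matrix.mul_assoc]
  have A5 : ∀ {K : Type} (Z : Matrix I K ℝ), p * (dᴴ * Z) = dᴴ * (p * Z) := fun Z => by
    rw [← Matrix.mul_assoc, p3, Matrix.mul_assoc]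
  have A6 : ∀ {K : Type} (Z : Matrix I K ℝ), g * (dᴴ * Z) = dᴴ * (g * Z) := fun Z => by
    rw [← Matrix.mul_assoc, p4, Matrix.mul_assoc]
  have A7 : ∀ {K : Type} (Z : Matrix I K ℝ), p * (p * Z) = p * Z := fun Z => by
    rw [← Matrix.mul_assoc, p5]
  have A8 : ∀ {K : Type} (Z : Matrix I K ℝ), p * (g * Z) = g * Z := fun Z => by
    rw [← Matrix.mul_assoc, p6]
  have A9 : ∀ {K : Type} (Z : Matrix I K ℝ), g * (p * Z) = g * Z := fun Z => by
    rw [← Matrix.mul_assoc, p7]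
  have A10 : ∀ {K : Type} (Z : Matrix I K ℝ),
      p * Z = dᴴ * (d * (g * Z)) + d * (dᴴ * (g * Z)) := fun Z => by
    conv_lhs => rw [← p8]
    simp only [Matrix.add_mul, Matrix.mul_assoc]
  have A11 : ∀ {K : Type} (Z : Matrix I K ℝ), e * (p * Z) = p * (e * Z) := fun Z => by
    rw [← Matrix.mul_assoc, ep, Matrix.mul_assoc]
  have A12 : ∀ {K : Type} (Z : Matrix I K ℝ), e * (e * Z) = e * Z := fun Z => by
    rw [← Matrix.mul_assoc, ee]
  have TT : ∀ {K : Type} (Z : Matrix I K ℝ), T * (T * Z) = p * Z := fun Z => by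
    simp only [hT, Matrix.add_mul, Matrix.mul_add, Matrix.mul_assoc, A1, A2, A3, A4, A5, A6, A7,
      A8, A9, zero_add, add_zero]
    rw [A10 Z]
  have pT : ∀ {K : Type} (Z : Matrix I K ℝ), p * (T * Z) = T * Z := fun Z => by
    simp only [hT, Matrix.add_mul, Matrix.mul_add, Matrix.mul_assoc, A3, A5, A7, A8]
  have Tp : ∀ {K : Type} (Z : Matrix I K ℝ), T * (p * Z) = T * Z := fun Z => by
    simp only [hT, Matrix.add_mul, Matrix.mul_assoc, A7, A9]
  have eT : e * T = T - T * e := by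
    rw [hT, Matrix.mul_add, ← Matrix.mul_assoc, ← Matrix.mul_assoc, ed, ed']
    simp only [Matrix.sub_mul, Matrix.add_mul, Matrix.mul_assoc, ep, eg]
    abel
  have eQ : e * (T * (ψ * sᴴ)) = T * (ψ * sᴴ) := by
    rw [← Matrix.mul_assoc, eT, Matrix.sub_mul, Matrix.mul_assoc T e, eψ]
    simp
  have N11 : N1 * N1 = 0 := by
    have : g * (e * (p * (d * (γ * (dᴴ * (d * (g * e))))))) =
        d * (g * ((1 - e) * (p * (γ * (dᴴ * (d * (g * e))))))) := by
      rw [A3, ← Matrix.mul_assoc e d, ed]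
      simp only [Matrix.sub_mul, Matrix.mul_sub, Matrix.mul_assoc, Matrix.one_mul, A4]
    rw [hN1]
    simp only [Matrix.mul_assoc]
    rw [this, A1]
    simp
  have eN : e * (N1 + N2) = N1 + N2 := by
    rw [Matrix.mul_add, e0 N1 dN1, e2 N2 dN2, hN1, hN2]
    simp only [Matrix.mul_assoc, ee]
  have pN : p * (N1 + N2) = N1 + N2 := by
    rw [hN1, hN2]
    simp only [Matrix.mul_add, A5, A7, A8]
  obtain ⟨u1, M, u2, bM⟩ := core_unip hB hn N11 dN1 dN2 bN1 bN2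
  obtain ⟨N, hN⟩ : ∃ N, N = N1 + N2 := ⟨_, rfl⟩
  have bN : Bd B 19 N := hN ▸ bN1.add bN2 hB
  -- the defect
  have key : T * (e + N) = p * ((d + γ) * (p * e)) -
      T * (p * (((d * γ - 1) * (e * d)) * (dᴴ * g))) := by
    have f1 : e * (d * (dᴴ * g)) = d * (dᴴ * (g * e)) := by
      rw [← Matrix.mul_assoc d, e0 _ ((db.mul dg).of_eq (by norm_num))]
      simp only [Matrix.mul_assoc]
    have f2 : T * ((d + γ) * (p * e)) =
        p * e + N + p * (((d * γ - 1) * (e * d)) * (dᴴ * g)) := by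
      rw [hN, hN1, hN2]
      simp only [Matrix.mul_assoc, Matrix.sub_mul, Matrix.mul_sub, Matrix.one_mul, f1]
      simp only [hT, Matrix.add_mul, Matrix.mul_add, Matrix.mul_assoc, A1, A3, A4, A5, A7, A8, A9,
        zero_add]
      rw [A10 e]
      simp only [Matrix.mul_add]
      abel
    rw [← TT ((d + γ) * (p * e)), f2]
    simp only [Matrix.mul_add, Tp]
    abel
  have rE : ((d * γ - 1) * (e * d)).rank ≤ 4 * r + (κ - ν).rank := by
    have f0 : d * (e * d) = 0 := by rw [ed, Matrix.mul_sub, hd, A1, sub_zero]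
    have f1 : (d * γ - 1) * (e * d) = (ψ * φ - 1 - (d * h + h * d)) * (e * d) -
        ψ * (φ * (e * d) - s * φ) - ψ * ((κ - ν) * (s * φ)) +
        ψ * (ν * (φ * (e * d) - s * φ)) +
        (d * (ψ * sᴴ) - ψ * (s * sᴴ)) * (G * (φ * (e * d))) := by
      have f2 : s * (sᴴ * (G * (φ * (e * d)))) = ν * (φ * (e * d)) := by
        rw [← n3]
        simp only [Matrix.mul_assoc]
      have f3 : κ * (s * φ) = s * φ := by rw [← Matrix.mul_assoc, k3]
      simp only [hγ, Matrix.sub_mul, Matrix.mul_sub, Matrix.add_mul, Matrix.mul_assoc, f0, f2, f3,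
        Matrix.mul_zero, Matrix.one_mul]
      abel
    rw [f1]
    refine (rk_add _ _).trans ?_
    refine (Nat.add_le_add ((rk_add _ _).trans (Nat.add_le_add ((rk_sub _ _).trans
      (Nat.add_le_add ((rk_sub _ _).trans (Nat.add_le_add ((rank_mul_le_left _ _).trans r3)
      ((rank_mul_le_right _ _).trans r1))) ((rank_mul_le_right _ _).trans (rank_mul_le_left _ _))))
      ((rank_mul_le_right _ _).trans ((rank_mul_le_right _ _).trans r1))))
      ((rank_mul_le_left _ _).trans r2)).trans (by omega)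
  rw [← hN] at eN pN u1 u2
  -- block matrices
  obtain ⟨U, hU⟩ : ∃ U : Matrix (I ⊕ J) (I ⊕ J) ℝ, U =
      (fromBlocks 1 (T * (ψ * sᴴ)) 0 1 : Matrix (I ⊕ J) (I ⊕ J) ℝ) *
      (fromBlocks (1 + N) 0 0 1 : Matrix (I ⊕ J) (I ⊕ J) ℝ) *
      (fromBlocks 1 0 (-(G * (φ * e))) 1 : Matrix (I ⊕ J) (I ⊕ J) ℝ) := ⟨_, rfl⟩
  obtain ⟨U', hU'⟩ : ∃ U : Matrix (I ⊕ J) (I ⊕ J) ℝ, U =
      (fromBlocks 1 0 (G * (φ * e)) 1 : Matrix (I ⊕ J) (I ⊕ J) ℝ) *
      ((fromBlocks M 0 0 1 : Matrix (I ⊕ J) (I ⊕ J) ℝ) *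
      (fromBlocks 1 (-(T * (ψ * sᴴ))) 0 1 : Matrix (I ⊕ J) (I ⊕ J) ℝ)) := ⟨_, rfl⟩
  have hU1 : U = fromBlocks (1 + N - T * (ψ * (sᴴ * (G * (φ * e))))) (T * (ψ * sᴴ))
      (-(G * (φ * e))) 1 := by
    simp [hU, fromBlocks_multiply, Matrix.mul_assoc, sub_eq_add_neg]
  have hUU : U' * U = 1 := by
    rw [mul_eq_one_comm, hU, hU']
    simp [fromBlocks_multiply, Matrix.mul_assoc, Matrix.add_mul, Matrix.mul_add,
      ← Matrix.mul_assoc N M, show N * M = 1 - M by rw [← u2, Matrix.add_mul]; simp,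
      Matrix.sub_mul]
    rw [← fromBlocks_one]
    congr 1
    abel
  have hUd : U.det = 1 := by
    simp [hU, u1]
  obtain ⟨A0, hA0⟩ : ∃ A : Matrix (I ⊕ J) (I ⊕ J) ℝ,
    A = fromBlocks (T * e) 0 0 (-(sᴴ * (s * (sᴴ * ν)))) := ⟨_, rfl⟩
  obtain ⟨P, hP⟩ : ∃ A : Matrix (I ⊕ J) (I ⊕ J) ℝ,
    A = fromBlocks (1 - p * e) 0 0 (1 - ν) := ⟨_, rfl⟩
  obtain ⟨pa1, pa2⟩ := core_fc_proj ha eh ee (e0 _ da) fun t => Real.exp (fl (1 / B) t)
  obtain ⟨pb1, pb2⟩ := core_fc_proj hb eh ee (e0 _ db) fun t => Real.exp (-fl (1 / B) t)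
  have fl0 : fl (1 / B) 0 = 0 := by simp [fl]
  have hA : A0ᴴ * A0 + P = fromBlocks (fc (fun t => Real.exp (fl (1 / B) t)) (e * (dᴴ * d)) *
      fc (fun t => Real.exp (-fl (1 / B) t)) (e * (d * dᴴ))) 0 0
      (fc (fun t => Real.exp (3 * fl (1 / B) t)) (s * sᴴ)) := by
    rw [pa2, pb2, core_exp_three hη hK, ← hν, fl0, hA0, hP, fromBlocks_conjTranspose,
      fromBlocks_multiply, fromBlocks_add]
    have f1 := e0 _ (db.fc hb fun t => Real.exp (-fl (1 / B) t))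
    have f2 := e0 _ (da.fc ha fun t => Real.exp (fl (1 / B) t))
    have f3 : e * (Tᴴ * (T * e)) + e - p * e = e * (Tᴴ * T + 1 - p) * e := by
      simp only [Matrix.mul_add, Matrix.mul_sub, Matrix.add_mul, Matrix.sub_mul, Matrix.mul_assoc,
        Matrix.one_mul, ee, A11]
    rw [p11] at f3
    congr 1
    · generalize fc (fun t => Real.exp (fl (1 / B) t)) (dᴴ * d) = F1 at *
      generalize fc (fun t => Real.exp (-fl (1 / B) t)) (d * dᴴ) = F2 at *
      have f4 : e * (F2 * e) = e * F2 := by rw [← f1, A12]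
      have f5 : e * (F1 * e) = e * F1 := by rw [← f2, A12]
      have f6 : e * (F1 * (e * F2)) = e * (F1 * (F2 * e)) := by rw [f1]
      simp only [conjTranspose_mul, eh, neg_zero, Real.exp_zero, one_smul, conjTranspose_zero,
        Matrix.zero_mul, add_zero, Matrix.mul_assoc, Matrix.add_mul, Matrix.mul_add,
        Matrix.sub_mul, Matrix.mul_sub, Matrix.one_mul, Matrix.mul_one, ee, A12, f5, f6] at f3 ⊢
      rw [← f3]
      abel
    · simp
    · simp
    · simp [show νᵀ = ν from n4, Matrix.mul_assoc]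
  have hPU : P * U = P := by
    have f1 : p * (e * N) = N := by rw [eN, pN]
    have f2 : p * (e * (T * (ψ * sᴴ))) = T * (ψ * sᴴ) := by rw [eQ, pT]
    have f3 : p * (e * (T * (ψ * (sᴴ * (G * (φ * e)))))) = T * (ψ * (sᴴ * (G * (φ * e)))) := by
      have := congrArg (· * (G * (φ * e))) f2
      simpa only [Matrix.mul_assoc] using this
    have f4 : ν * (G * (φ * e)) = G * (φ * e) := by rw [← Matrix.mul_assoc, n2]
    rw [hP, hU1, fromBlocks_multiply]
    simp only [Matrix.sub_mul, Matrix.mul_sub, Matrix.mul_add, Matrix.mul_assoc, f1, f2, f3, f4,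
      Matrix.mul_neg, Matrix.one_mul, Matrix.mul_one, Matrix.zero_mul]
    congr 1 <;> abel
  have hPh : Pᴴ = P := by
    simp only [hP, fromBlocks_conjTranspose, conjTranspose_zero, conjTranspose_sub,
      conjTranspose_one, conjTranspose_mul, eh, p9, n4, ep]
  have hGG : (A0 * U)ᴴ * (A0 * U) + P = Uᴴ * (A0ᴴ * A0 + P) * U := by
    have f1 : Uᴴ * P = P := by
      have := congrArg conjTranspose hPU
      rwa [conjTranspose_mul, hPh] at this
    simp only [conjTranspose_mul, Matrix.mul_add, Matrix.add_mul, Matrix.mul_assoc, hPU, f1]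
  obtain ⟨A', hA'⟩ : ∃ A : Matrix (I ⊕ J) (I ⊕ J) ℝ, A = fromBlocks
      (fc (fun t => Real.exp (- -fl (1 / B) t)) (e * (d * dᴴ)) *
        fc (fun t => Real.exp (-fl (1 / B) t)) (e * (dᴴ * d))) 0 0
      (fc (fun t => Real.exp (-(3 * fl (1 / B) t))) (s * sᴴ)) := ⟨_, rfl⟩
  have hAA : (A0ᴴ * A0 + P) * A' = 1 := by
    rw [hA, hA', fromBlocks_multiply, core_exp_inv hK, Matrix.mul_assoc,
      ← Matrix.mul_assoc (fc _ (e * (d * dᴴ))), core_exp_inv pb1, Matrix.one_mul,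
      core_exp_inv pa1]
    simp
  have hinv : ((A0 * U)ᴴ * (A0 * U) + P) * (U' * A' * U'ᴴ) = 1 := by
    rw [hGG, Matrix.mul_assoc, Matrix.mul_assoc U', ← Matrix.mul_assoc U,
      mul_eq_one_comm.1 hUU, Matrix.one_mul, Matrix.mul_assoc, ← Matrix.mul_assoc _ A', hAA,
      Matrix.one_mul, ← conjTranspose_mul, hUU, conjTranspose_one]
  have hX : A0 * U = fromBlocks (T * (e + N) - p * (ψ * (sᴴ * (G * (φ * e))))) (p * (ψ * sᴴ))
      (sᴴ * (ν * (φ * e))) (-(sᴴ * (s * (sᴴ * ν)))) := by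
    have f3 : e * (T * (ψ * (sᴴ * (G * (φ * e))))) = T * (ψ * (sᴴ * (G * (φ * e)))) := by
      have := congrArg (· * (G * (φ * e))) eQ
      simpa only [Matrix.mul_assoc] using this
    have f4 : s * (sᴴ * (ν * (G * (φ * e)))) = ν * (φ * e) := by
      rw [← Matrix.mul_assoc ν, n2, ← n3]
      simp only [Matrix.mul_assoc]
    rw [hA0, hU1, fromBlocks_multiply]
    simp only [Matrix.mul_sub, Matrix.mul_add, Matrix.mul_assoc, eN, eQ, f3, f4, TT,
      Matrix.mul_one, Matrix.zero_mul, add_zero, zero_add, Matrix.neg_mul, Matrix.mul_neg,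
      neg_neg, neg_zero, sub_zero]
  have hr1 : (fromBlocks ((d - h) * e) (ψ * sᴴ) (sᴴ * (φ * e)) (-(sᴴ * (s * sᴴ))) - A0 * U).rank ≤
      4 * (1 - p).rank + 4 * r + 3 * (κ - ν).rank := by
    rw [hX, sub_eq_add_neg, fromBlocks_neg, fromBlocks_add]
    refine (core_rk_blocks _ _ _ _).trans ?_
    have f1 : (d - h) * e + -(T * (e + N) - p * (ψ * (sᴴ * (G * (φ * e))))) =
        (1 - p) * ((d - h) * e) + p * ((d + γ) * ((1 - p) * e)) +
          T * (p * (((d * γ - 1) * (e * d)) * (dᴴ * g))) := by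
      rw [key]
      generalize T * (p * (((d * γ - 1) * (e * d)) * (dᴴ * g))) = W
      simp only [hγ, Matrix.sub_mul, Matrix.mul_sub, Matrix.add_mul, Matrix.mul_add,
        Matrix.mul_assoc, Matrix.one_mul]
      abel
    have f2 : ψ * sᴴ + -(p * (ψ * sᴴ)) = (1 - p) * (ψ * sᴴ) := by
      rw [Matrix.sub_mul, Matrix.one_mul, sub_eq_add_neg]
    have f3 : sᴴ * (φ * e) + -(sᴴ * (ν * (φ * e))) = sᴴ * ((κ - ν) * (φ * e)) := by
      rw [Matrix.sub_mul, Matrix.mul_sub, ← Matrix.mul_assoc sᴴ κ, k6, sub_eq_add_neg]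
    have f4 : -(sᴴ * (s * sᴴ)) + - -(sᴴ * (s * (sᴴ * ν))) = -(sᴴ * (s * sᴴ) * (κ - ν)) := by
      simp only [Matrix.mul_sub, Matrix.mul_assoc, k6]
      abel
    rw [f1, f2, f3, f4]
    have g1 := rk_add ((1 - p) * ((d - h) * e) + p * ((d + γ) * ((1 - p) * e)))
      (T * (p * (((d * γ - 1) * (e * d)) * (dᴴ * g))))
    have g2 := rk_add ((1 - p) * ((d - h) * e)) (p * ((d + γ) * ((1 - p) * e)))
    have g3 := rank_mul_le_left (1 - p) ((d - h) * e)
    have g4 := (rank_mul_le_right p _).trans ((rank_mul_le_right (d + γ) _).trans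
      (rank_mul_le_left (1 - p) e))
    have g5 := (rank_mul_le_right T _).trans ((rank_mul_le_right p _).trans
      ((rank_mul_le_left _ (dᴴ * g)).trans rE))
    have g6 := rank_mul_le_left (1 - p) (ψ * sᴴ)
    have g7 := (rank_mul_le_right sᴴ _).trans (rank_mul_le_left (κ - ν) (φ * e))
    have g8 := (rk_neg _).trans (rank_mul_le_right (sᴴ * (s * sᴴ)) (κ - ν))
    omega
  have hr2 : (P - fromBlocks (1 - e) 0 0 (1 - κ)).rank ≤ (1 - p).rank + (κ - ν).rank := by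
    rw [hP, sub_eq_add_neg, fromBlocks_neg, fromBlocks_add]
    refine (core_rk_blocks _ _ _ _).trans ?_
    have f1 : 1 - p * e + -(1 - e) = (1 - p) * e := by
      rw [Matrix.sub_mul, Matrix.one_mul]
      abel
    have f2 : 1 - ν + -(1 - κ) = κ - ν := by abel
    have g1 := rank_mul_le_left (1 - p) e
    simp only [f1, f2, neg_zero, add_zero, rank_zero]
    omega
  have hpe : p * e * (p * e) = p * e := by simp only [Matrix.mul_assoc, A11, A7, ee]
  have nP : ‖P‖ ≤ 1 := hP ▸ core_nrm_diag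
    (by rw [conjTranspose_sub, conjTranspose_one, conjTranspose_mul, eh, p9, ep])
    (by simp [Matrix.sub_mul, Matrix.mul_sub, hpe])
    (by rw [conjTranspose_sub, conjTranspose_one, n4]) (by simp [Matrix.sub_mul, Matrix.mul_sub, n1])
  have bΞ : Bd B 60 (fromBlocks ((d - h) * e) (ψ * sᴴ) (sᴴ * (φ * e)) (-(sᴴ * (s * sᴴ)))) :=
    (((bd.sub bh hB).mul be).blocks (bψ.mul bs.conjT) (bs.conjT.mul (bφ.mul be))
      (bs.conjT.mul (bs.mul bs.conjT)).neg hB).mono hB (by norm_num)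
  have bX : Bd B 60 (A0 * U) := hX ▸
    (((bT.mul (be.add bN hB)).sub (bp.mul (bψ.mul (bs.conjT.mul (bG.mul (bφ.mul be))))) hB).blocks
      (bp.mul (bψ.mul bs.conjT)) (bs.conjT.mul (bν.mul (bφ.mul be)))
      (bs.conjT.mul (bs.mul (bs.conjT.mul bν))).neg hB).mono hB (by norm_num)
  have bU' : Bd B (20 * (n + 1) + 25) U' := hU' ▸
    ((bd_one.blocks bd_zero (bG.mul (bφ.mul be)) bd_one hB).mul
      ((bM.blocks bd_zero bd_zero bd_one hB).mul
        (bd_one.blocks (bT.mul (bψ.mul bs.conjT)).neg bd_zero bd_one hB))).mono hB (by omega)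
  have bA' : Bd B 8 A' := by
    have f1 : Bd B 2 (fc (fun t => Real.exp (- -fl (1 / B) t)) (e * (d * dᴴ))) := by
      have f2 : Bd B 2 (e * (d * dᴴ)) := be.mul (bd.mul bd.conjT)
      refine fc_norm pb1 (by positivity) fun i => ?_
      rw [neg_neg, abs_of_pos (Real.exp_pos _)]
      unfold fl
      split_ifs with f3
      · rw [Real.exp_log (hη.trans_le f3)]
        exact (le_abs_self _).trans ((eig_le pb1 i).trans f2)
      · rw [Real.exp_zero]
        nlinarith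
    have f2 := core_bd_exp pa1 hB 1
    have f3 := core_bd_exp hK hB 3
    simp only [Nat.cast_one, one_mul, Nat.cast_ofNat] at f2 f3
    exact hA' ▸ (f1.mul f2).blocks bd_zero bd_zero f3 hB
  have main := core_abs (core_int_blocks ((id.sub ih).mul ie) (iψ.mul is.conjT)
    (is.conjT.mul (iφ.mul ie)) (is.conjT.mul (is.mul is.conjT)).neg) hinv
    (P0 := fromBlocks (1 - e) 0 0 (1 - κ))
    (by simp [fromBlocks_multiply, Matrix.mul_sub, Matrix.mul_assoc, ee,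
      show sᵀ * κ = sᵀ from k6])
    (by simp only [fromBlocks_conjTranspose, conjTranspose_zero, conjTranspose_sub,
      conjTranspose_one, eh, k1])
    (by simp [fromBlocks_multiply, Matrix.mul_sub, Matrix.sub_mul, ee, k2])
    hr1 hr2 bΞ bX nP ((bU'.mul bA').mul bU'.conjT)
  rw [hGG, det_mul, det_mul, det_conjTranspose, hUd, hA, det_fromBlocks_zero₂₁, det_mul,
    fc_det_exp pa1, fc_det_exp pb1, fc_det_exp hK, ← Real.exp_add, ← Real.exp_add, star_one,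
    one_mul, mul_one, abs_of_pos (Real.exp_pos _)] at main
  have t1 : (fc (fl (1 / B)) (e * (dᴴ * d))).trace = (e * fc (fl (1 / B)) (dᴴ * d)).trace := by
    rw [(core_fc_proj ha eh ee (e0 _ da) _).2, fl0, zero_smul, add_zero]
  have t2 : (fc (fun t => -fl (1 / B) t) (e * (d * dᴴ))).trace =
      -(e * fc (fl (1 / B)) (d * dᴴ)).trace := by
    have := fc_smul pb1 (-1) (fl (1 / B))
    simp only [neg_mul, one_mul] at this
    rw [← this, (core_fc_proj hb eh ee (e0 _ db) _).2, fl0, zero_smul, add_zero]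
    simp
  have t3 : (fc (fun t => 3 * fl (1 / B) t) (s * sᴴ)).trace =
      3 * (fc (fl (1 / B)) (s * sᴴ)).trace := by
    rw [← fc_smul hK, trace_smul, smul_eq_mul]
  have hB0 : 0 < B := by linarith
  have t4 : 1 + B ^ (20 * (n + 1) + 25 + 8 + (20 * (n + 1) + 25)) * (2 * (B ^ 60) ^ 2 + 2) ≤
      B ^ (230 * (n + 1)) := by
    have f1 : 1 ≤ B ^ 120 := one_le_pow₀ (by linarith)
    have f2 : 1 ≤ B ^ (20 * (n + 1) + 25 + 8 + (20 * (n + 1) + 25)) := one_le_pow₀ (by linarith)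
    have f3 : (8 : ℝ) ≤ B ^ 3 := le_trans (by norm_num) (pow_le_pow_left₀ (by norm_num) hB 3)
    calc _ ≤ B ^ (20 * (n + 1) + 25 + 8 + (20 * (n + 1) + 25)) * (B ^ 120 * B ^ 3) := by
          rw [← pow_mul, show 60 * 2 = 120 by norm_num]
          generalize B ^ (20 * (n + 1) + 25 + 8 + (20 * (n + 1) + 25)) = x at *
          generalize B ^ 120 = y at *
          generalize B ^ 3 = z at *
          have f4 : 1 ≤ x * y := one_le_mul_of_one_le_of_one_le f2 f1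
          have f5 : x ≤ x * y := le_mul_of_one_le_right (by linarith) f1
          have f6 : x * y * 8 ≤ x * y * z := mul_le_mul_of_nonneg_left f3 (by linarith)
          nlinarith
      _ ≤ _ := by
          rw [← pow_add, ← pow_add]
          exact pow_le_pow_right₀ (by linarith) (by omega)
  have main2 := main.trans (mul_le_mul_of_nonneg_left (pow_le_pow_left₀ (by positivity) t4 _)
    (Real.exp_pos _).le)
  rw [← pow_mul, ← Real.exp_log (pow_pos hB0 _), ← Real.exp_add, Real.one_le_exp_iff, t1, t2, t3,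
    Real.log_pow] at main2
  push_cast at main2 ⊢
  have hL : 0 ≤ Real.log B := Real.log_nonneg (by linarith)
  have hn0 : (0 : ℝ) ≤ n := Nat.cast_nonneg n
  have x1 : 0 ≤ (r : ℝ) * Real.log B := by positivity
  have x2 : 0 ≤ ((1 - p).rank : ℝ) * Real.log B := by positivity
  have x3 : 0 ≤ ((κ - ν).rank : ℝ) * Real.log B := by positivity
  have x4 := mul_le_mul_of_nonneg_left k4 hn0
  nlinarith [mul_nonneg hn0 x1, mul_nonneg hn0 x2, mul_nonneg hn0 x3]

end Pool.Agent.P.MP_f30597_gt
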