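import Pool.Agent.P.MP_f30597_gt.Iface

/-! An exact complex on the models that agrees with the model of `c` at almost all points. -/

namespace Pool.Agent.P.MP_f30597_gt

open Matrix Finset Filter Topology MeasureTheory
open scoped Matrix.Norms.L2Operator

/-- points at which the action is multiplicative up to depth `k` -/
def dp_Gd {G V : Type} [Group G] (act : G → Equiv.Perm V) (T : Finset G) : ℕ → V → Prop
  | 0, v => ∀ g ∈ T, ∀ t ∈ T, act t (act g v) = act (g * t) v
  | k + 1, v => (∀ g ∈ T, ∀ t ∈ T, act t (act g v) = act (g * t) v) ∧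
      ∀ g ∈ T, dp_Gd act T k (act g v)

theorem dp_ae {G : Type} [Group G] (S : Sof G) (T : Finset G) (k : ℕ) :
    S.AE fun i v => dp_Gd (S.act i) T k v := by
  induction k with
  | zero => exact Sof.ae_mul_on T T
  | succ k ih => exact (Sof.ae_mul_on T T).and (Sof.ae_finset T fun g _ => ih.shift g)

theorem t_DP : S_DP := by
  intro G ι _ _ _ S deg c hc hcc
  classical
  obtain ⟨T, M, hT⟩ := Sof.mdl_bdd c
  let x : ∀ i, ι × Fin (S.N i) → ι → ZG G := fun i p =>
    if dp_Gd (S.act i) T (deg p.1) p.2 then c p.1 else 0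
  have hx : ∀ i p, Bdd T M (x i p) := by
    intro i p
    simp only [x]
    split_ifs
    · exact hT p.1
    · intro b
      simp
  refine ⟨fun i => loc (S.act i) (x i), _, fun i => ⟨?_, isInt_loc _ _, nrm_loc _ (hx i),
    deg_loc _ fun p b hb => ?_⟩, ?_⟩
  · funext p
    obtain ⟨a, v⟩ := p
    show (loc (S.act i) (x i) * loc (S.act i) (x i)) (a, v) = 0
    by_cases hv : dp_Gd (S.act i) T (deg a) v
    · have h1 : x i (a, v) = c a := if_pos hv
      have h2 : (loc (S.act i) (x i) * loc (S.act i) (x i)) (a, v) =
          (mdl (S.act i) c * mdl (S.act i) c) (a, v) := by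
        rw [loc_mul_row, mdl, loc_mul_row, h1]
        refine sum_congr rfl fun b _ => Finsupp.sum_congr fun g hg => ?_
        have hb : c a b ≠ 0 := fun h0 => by simp [h0] at hg
        rw [hc a b hb] at hv
        have h3 : x i (b, S.act i g v) = c b := if_pos (hv.2 g ((hT a b).1 hg))
        rw [loc_row, loc_row, h3]
      have h4 : ∀ g ∈ T, ∀ t ∈ T, S.act i t (S.act i g v) = S.act i (g * t) v := by
        cases h : deg a with
        | zero =>
          rw [h] at hv
          exact hv
        | succ k =>
          rw [h] at hv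
          exact hv.1
      rw [h2, mdl, loc_mul_loc _ _ _ _ fun b g hg b' t ht =>
        h4 g ((hT a b).1 hg) t ((hT b b').1 ht), tw_const (S.act i) (fun p => c p.1) c (a, v)]
      have h5 : c a ᵥ* c = 0 := congrFun hcc a
      rw [h5, pl_zero]
    · have h1 : x i (a, v) = 0 := if_neg hv
      rw [loc_mul_row, h1]
      simp
  · simp only [x] at hb
    split_ifs at hb
    · rw [hc _ _ hb]
      simp
    · exact absurd rfl hb
  · refine Sof.neg_of_rows ((Sof.ae_all fun a => dp_ae S T (deg a)).mono fun i v hv a => ?_)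
    have h1 : x i (a, v) = c a := if_pos (hv a)
    rw [loc_row, mdl_row, h1]

end Pool.Agent.P.MP_f30597_gt
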