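import Pool.Agent.P.MP_f30597_gt.Core1

/-! Passing to the limit in the determinant inequality. -/

namespace Pool.Agent.P.MP_f30597_gt

open Matrix Finset Filter Topology MeasureTheory
open scoped Matrix.Norms.L2Operator

theorem fin_mono {I : Type} [Fintype I] [DecidableEq I] {w : I → ℝ} (hw : ∀ a, 0 ≤ w a)
    {X : Matrix I I ℝ} (hX : X.PosSemidef) : 0 ≤ (diagonal w * X).trace := by
  simp only [trace, diag_apply, diagonal_mul]
  exact sum_nonneg fun a _ => mul_nonneg (hw a) hX.diag_nonneg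

theorem fin_sum {I : Type} [Fintype I] [DecidableEq I] {n : ℕ} {dI : I → ℕ} (hn : ∀ a, dI a ≤ n)
    (X : Matrix I I ℝ) : ∑ p ∈ range (n + 1), (diagonal (ind dI p) * X).trace = X.trace := by
  simp only [trace, diag_apply, diagonal_mul, ind]
  rw [sum_comm]
  refine sum_congr rfl fun a _ => ?_
  rw [sum_eq_single (dI a) (fun b _ hb => by simp [hb.symm])
    (fun h => absurd (mem_range.2 (Nat.lt_succ_of_le (hn a))) h)]
  simp

theorem t_FIN2 (hMOM : S_MOM) (hDP : S_DP) (hLIM : S_LIM) (hMEAS : S_MEAS) (hM3 : S_MEAS3)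
    (hCORE : S_CORE) : S_FINAL := by
  intro n
  obtain ⟨C, hC, core⟩ := hCORE n
  refine ⟨C, hC, ?_⟩
  intro G ι κ _ _ _ _ _ S deg dκ c δ μ K hn hc h2 ⟨M, φ, ψ, h, s, b1, i1, d1, N1, N2, N3, ev⟩ hμ
  have := S.ne
  obtain ⟨d, M', hd, Nd⟩ := hDP G ι S deg c hc h2
  obtain ⟨X, hX⟩ : ∃ X : S.Mat ι ι, X = fun i => d i * (d i)ᴴ + (d i)ᴴ * d i := ⟨_, rfl⟩
  have XP : ∀ i, (X i).PosSemidef := fun i => hX ▸
    (posSemidef_self_mul_conjTranspose _).add (posSemidef_conjTranspose_mul_self _)
  have Xb : ∀ i, ‖X i‖ ≤ M' * M' + M' * M' := fun i => by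
    have e := (hd i).2.2.1
    have e' := e
    rw [← l2_opNorm_conjTranspose] at e'
    exact hX ▸ (norm_add_le _ _).trans (add_le_add (nrm_mul e e') (nrm_mul e' e))
  have Nd' : S.Neg fun i => (d i)ᴴ - mdl (S.act i) (cst c) :=
    (Nd.conjT.congr fun i => conjTranspose_sub _ _).trans (Sof.neg_mdl_cst c)
  have NX : S.Neg fun i => X i - mdl (S.act i) (c * cst c + cst c * c) :=
    (((Nd.mul_congr Nd').trans (Sof.neg_mdl_mul _ _)).add
      ((Nd'.mul_congr Nd).trans (Sof.neg_mdl_mul _ _))).congr fun i => by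
      simp only [hX, mdl_add]
      abel
  have N0 : ∀ i, (0 : ℝ) < S.N i := fun i => by exact_mod_cast S.pos i
  have w0 : ∀ p a, 0 ≤ ind deg p a := fun p a => by unfold ind; split_ifs <;> simp
  have w1 : ∀ p a, ind deg p a ≤ 1 := fun p a => by unfold ind; split_ifs <;> simp
  have lim := fun p => hLIM S.Λ S.l (fun i => ι × Fin (S.N i)) (fun i => S.N i) (Fintype.card ι)
    (K p) _ X (fun i => diagonal fun q => ind deg p q.1) (μ p) _ N0 (fun i => by simp)
    (fun i => (XP i).1) Xb
    (fun i => nrm_diag zero_le_one fun q => by rw [abs_of_nonneg (w0 _ _)]; exact w1 _ _) (hμ p)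
    (hMOM G ι S _ X _ (ind deg p) Xb NX)
  obtain ⟨r, hr⟩ : ∃ r : S.Λ → ℕ, r = fun i => (d i * φ i - φ i * s i).rank +
    (s i * ψ i - ψ i * d i).rank + (φ i * ψ i - 1 - (h i * d i + d i * h i)).rank := ⟨_, rfl⟩
  have r0 : Tendsto (fun i => (r i : ℝ) / S.N i) S.l (𝓝 0) := by
    have e1 : S.Neg fun i => d i * φ i - φ i * s i :=
      ((Nd.mul_right φ).add N1).congr fun i => by rw [Matrix.sub_mul]; abel
    have e2 : S.Neg fun i => s i * ψ i - ψ i * d i :=
      (N2.sub (Nd.mul_left ψ)).congr fun i => by rw [Matrix.mul_sub]; abel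
    have e3 : S.Neg fun i => φ i * ψ i - 1 - (h i * d i + d i * h i) :=
      ((N3.sub (Nd.mul_left h)).sub (Nd.mul_right h)).congr fun i => by
        rw [Matrix.mul_sub, Matrix.sub_mul]
        abel
    simpa [hr, add_div] using (Tendsto.add e1 e2).add e3
  have co := fun (B : ℝ) (hB : max 2 (max M M') ≤ B) i => core _ _ (fun q => deg q.1)
    (fun q => dκ q.1) (d i) (h i) (φ i) (ψ i) (s i) B (r i) (fun q => hn q.1)
    ((le_max_left _ _).trans hB) ((hd i).2.2.1.trans (le_trans (by simp) hB))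
    ((b1 i).2.2.1.trans (le_trans (by simp) hB)) ((b1 i).1.trans (le_trans (by simp) hB))
    ((b1 i).2.1.trans (le_trans (by simp) hB)) ((b1 i).2.2.2.trans (le_trans (by simp) hB))
    (hd i).2.1 (i1 i).2.2.1 (i1 i).1 (i1 i).2.1 (i1 i).2.2.2 (hd i).1 (hd i).2.2.2 (d1 i).2.2.1
    (d1 i).1 (d1 i).2.1 (d1 i).2.2.2 (by simp only [hr]; omega) (by simp only [hr]; omega)
    (by simp only [hr]; omega)
  have XX : ∀ i, d i * (d i)ᴴ + (d i)ᴴ * d i = X i := fun i => by rw [hX]
  simp only [XX] at co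
  have first : ∀ p, IntegrableOn Real.log (Set.Ioi 0) (μ p) ∧ (μ p).real {0} ≤ δ := fun p => by
    obtain ⟨m1, m2⟩ := hMEAS S.Λ S.l (fun i g =>
      (diagonal (fun q : ι × Fin (S.N i) => ind deg p q.1) * fc g (X i)).trace / S.N i) (μ p) _ _
      (hμ p) (fun i g h => by rw [← fc_add (XP i).1, Matrix.mul_add, trace_add, add_div])
      (fun i r g => by
        rw [← fc_smul (XP i).1, Matrix.mul_smul, trace_smul, smul_eq_mul, mul_div_assoc])
      (fun i g h hgh => div_le_div_of_nonneg_right (by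
        rw [← sub_nonneg, ← trace_sub, ← Matrix.mul_sub, fc_sub (XP i).1]
        exact fin_mono (fun q => w0 _ _) (fc_posSemidef (XP i).1 fun j =>
          sub_nonneg.2 (hgh _ ((XP i).eigenvalues_nonneg j)))) (N0 i).le)
      (fun i => div_nonneg (by
        have e0 : Deg (fun q : ι × Fin (S.N i) => deg q.1) (fun q => deg q.1) 0 (X i) := hX ▸
          (((hd i).2.2.2.mul (hd i).2.2.2.conjT).of_eq (by norm_num)).add
            (((hd i).2.2.2.conjT.mul (hd i).2.2.2).of_eq (by norm_num))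
        obtain ⟨e1, e2⟩ := core_fc_proj (e := diagonal fun q : ι × Fin (S.N i) => ind deg p q.1)
          (XP i).1 (isHermitian_diagonal _) (by
            rw [diagonal_mul_diagonal]
            congr 1
            funext q
            unfold ind
            split_ifs <;> simp)
          (e0.comm (fun k => if k = p then 1 else 0) (fun k => if k = p then 1 else 0)
            fun a b e => by rw [show a = b by omega]) Real.log
        have e3 := int_log e1 ((isInt_diag _).mul (hX ▸ ((hd i).2.1.mul (hd i).2.1.conjT).add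
          ((hd i).2.1.conjT.mul (hd i).2.1)))
        rwa [e2, Real.log_zero, zero_smul, add_zero] at e3) (N0 i).le) (lim p)
    refine ⟨m1, le_of_forall_pos_le_add fun ε hε => m2 _ ?_⟩
    filter_upwards [ev, r0.eventually (gt_mem_nhds hε)] with i e1 e2
    rw [div_lt_iff₀ (N0 i)] at e2
    rw [div_le_iff₀ (N0 i)]
    have e3 := fin_mono (w := fun q : ι × Fin (S.N i) => 1 - ind deg p q.1)
      (fun q => sub_nonneg.2 (w1 _ _)) (fc_posSemidef (f := z0) (XP i).1 fun j => by
        unfold z0; split_ifs <;> simp)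
    rw [← diagonal_sub, diagonal_one, Matrix.sub_mul, Matrix.one_mul, trace_sub] at e3
    linarith [(co _ le_rfl i).2, e1.2]
  refine ⟨first, fun h0 => hM3 n μ K _ _ _ C (max 2 (max M M')) hμ h0 (fun p => (first p).1)
    fun B hB => ?_⟩
  have hB0 : 0 < B := lt_of_lt_of_le (by simp) hB
  have c1 : Continuous (lg B) := by
    unfold lg
    exact Continuous.log (by fun_prop) fun t => (lt_max_of_lt_right (by positivity)).ne'
  have c2 : Continuous (tent B) := by
    unfold tent
    fun_prop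
  have l1 := (tendsto_finsetSum (range (n + 1)) fun p _ =>
    (lim p _ c1).const_mul ((-1) ^ p * (p : ℝ))).abs
  have l2 := ((((r0.add (tendsto_finsetSum (range (n + 1)) fun p _ => lim p _ c2)).mul_const
    (Real.log B)).const_add δ).const_mul C)
  refine (le_of_tendsto_of_tendsto l1 l2 ?_).trans (le_of_eq (by ring))
  filter_upwards [ev] with i e1
  have e2 := (co B hB i).1
  rw [← fin_sum (dI := fun q : ι × Fin (S.N i) => deg q.1) (fun q => hn q.1)
    (fc (tent B) (X i))] at e2
  simp only [← mul_div_assoc, ← sum_div, ← add_div]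
  rw [abs_div, abs_of_pos (N0 i), div_le_iff₀ (N0 i)]
  refine e2.trans ?_
  have e3 := (N0 i).ne'
  rw [mul_assoc, add_mul δ, mul_right_comm _ (Real.log B), div_mul_cancel₀ _ e3]
  exact mul_le_mul_of_nonneg_left (add_le_add_left e1.1 _) hC.le

end Pool.Agent.P.MP_f30597_gt
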