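import Pool.Agent.P.MP_f30597_gt.Iface

namespace Pool.Agent.P.MP_f30597_gt

open Matrix Finset Filter Topology MeasureTheory
open scoped Matrix.Norms.L2Operator

theorem meas3_ae {μ : Measure ℝ} [IsFiniteMeasure μ] {K : ℝ} (h1 : μ (Set.Icc 0 K)ᶜ = 0)
    (h0 : μ.real {0} = 0) : ∀ᵐ t ∂μ, t ∈ Set.Ioi (0 : ℝ) := by
  have a1 : ∀ᵐ t ∂μ, t ∈ Set.Icc 0 K := mem_ae_iff.2 h1
  have h0' : μ {0} = 0 := by
    rwa [measureReal_eq_zero_iff] at h0
  have a2 : ∀ᵐ t ∂μ, t ∉ ({0} : Set ℝ) := measure_eq_zero_iff_ae_notMem.1 h0'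
  filter_upwards [a1, a2] with t ht1 ht2
  exact lt_of_le_of_ne ht1.1 (fun h => ht2 (by simp [← h]))

theorem meas3_B : Tendsto (fun k : ℕ => (k : ℝ) + 4) atTop atTop :=
  tendsto_atTop_add_const_right _ _ tendsto_natCast_atTop_atTop

theorem meas3_ev {t : ℝ} (ht : 0 < t) : ∀ᶠ k : ℕ in atTop, 2 ≤ ((k : ℝ) + 4) * t := by
  filter_upwards [meas3_B.eventually_ge_atTop (2 / t)] with k hk
  rwa [div_le_iff₀ ht] at hk

theorem meas3_lg {μ : Measure ℝ} (ha : ∀ᵐ t ∂μ, t ∈ Set.Ioi (0 : ℝ))
    (hi : IntegrableOn Real.log (Set.Ioi 0) μ) :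
    Tendsto (fun k : ℕ => ∫ t, lg ((k : ℝ) + 4) t ∂μ) atTop
      (𝓝 (∫ t in Set.Ioi 0, Real.log t ∂μ)) := by
  have hr : μ.restrict (Set.Ioi 0) = μ := Measure.restrict_eq_self_of_ae_mem ha
  have hi' : Integrable Real.log μ := by
    have := hi
    rwa [IntegrableOn, hr] at this
  rw [hr]
  refine tendsto_integral_of_dominated_convergence (fun t => |Real.log t|) ?_ hi'.abs ?_ ?_
  · intro k
    exact (Real.measurable_log.comp (measurable_id.max measurable_const)).aestronglyMeasurable
  · intro k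
    filter_upwards [ha] with t ht
    have ht : 0 < t := ht
    rw [Real.norm_eq_abs, lg]
    rcases le_total (1 / ((k : ℝ) + 4)) t with h | h
    · rw [max_eq_left h]
    · rw [max_eq_right h]
      have hk : (0 : ℝ) ≤ k := Nat.cast_nonneg k
      have h1 : 1 / ((k : ℝ) + 4) ≤ 1 := by
        rw [div_le_one (by linarith)]; linarith
      have l1 : Real.log (1 / ((k : ℝ) + 4)) ≤ 0 := Real.log_nonpos (by positivity) h1
      have l2 : Real.log t ≤ Real.log (1 / ((k : ℝ) + 4)) := Real.log_le_log ht h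
      rw [abs_of_nonpos l1, abs_of_nonpos (l2.trans l1)]
      linarith
  · filter_upwards [ha] with t ht
    have ht : 0 < t := ht
    refine tendsto_const_nhds.congr' ?_
    filter_upwards [meas3_ev ht] with k hk
    have hk0 : (0 : ℝ) < (k : ℝ) + 4 := by positivity
    have : 1 / ((k : ℝ) + 4) ≤ t := by
      rw [div_le_iff₀ hk0]; linarith
    rw [lg, max_eq_left this]

theorem meas3_tent {μ : Measure ℝ} (ha : ∀ᵐ t ∂μ, t ∈ Set.Ioi (0 : ℝ))
    (hi : IntegrableOn Real.log (Set.Ioi 0) μ) :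
    Tendsto (fun k : ℕ => Real.log ((k : ℝ) + 4) * ∫ t, tent ((k : ℝ) + 4) t ∂μ) atTop
      (𝓝 0) := by
  have hr : μ.restrict (Set.Ioi 0) = μ := Measure.restrict_eq_self_of_ae_mem ha
  have hi' : Integrable Real.log μ := by
    have := hi
    rwa [IntegrableOn, hr] at this
  have key : Tendsto (fun k : ℕ => ∫ t, Real.log ((k : ℝ) + 4) * tent ((k : ℝ) + 4) t ∂μ) atTop
      (𝓝 (∫ _t, (0 : ℝ) ∂μ)) := by
    refine tendsto_integral_of_dominated_convergence (fun t => 2 * |Real.log t|) ?_
      (hi'.abs.const_mul 2) ?_ ?_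
    · intro k
      refine Continuous.aestronglyMeasurable ?_
      unfold tent
      fun_prop
    · intro k
      filter_upwards [ha] with t ht
      have ht : 0 < t := ht
      have hk : (0 : ℝ) ≤ k := Nat.cast_nonneg k
      set B : ℝ := (k : ℝ) + 4 with hB
      have hB4 : 4 ≤ B := by linarith
      have lB : 0 ≤ Real.log B := Real.log_nonneg (by linarith)
      have t0 : 0 ≤ tent B t := le_max_left _ _
      have t1 : tent B t ≤ 1 := max_le zero_le_one (min_le_left _ _)
      rw [Real.norm_eq_abs, abs_of_nonneg (mul_nonneg lB t0)]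
      rcases le_total 2 (B * t) with h | h
      · have : tent B t = 0 := by
          unfold tent
          exact max_eq_left ((min_le_right _ _).trans (by linarith))
        rw [this, mul_zero]
        positivity
      · have h2 : B * t ^ 2 ≤ 1 := by
          have : t ≤ 1 / 2 := by nlinarith
          nlinarith
        have l3 : Real.log (B * t ^ 2) ≤ 0 := Real.log_nonpos (by positivity) h2
        rw [Real.log_mul (by linarith) (by positivity), Real.log_pow] at l3
        have l4 : -Real.log t ≤ |Real.log t| := neg_le_abs _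
        push_cast at l3
        nlinarith
    · filter_upwards [ha] with t ht
      have ht : 0 < t := ht
      refine tendsto_const_nhds.congr' ?_
      filter_upwards [meas3_ev ht] with k hk
      have : tent ((k : ℝ) + 4) t = 0 := by
        unfold tent
        exact max_eq_left ((min_le_right _ _).trans (by linarith))
      rw [this, mul_zero]
  simpa [integral_const_mul] using key

theorem t_MEAS3 : S_MEAS3 := by
  intro n μ K f w a b B0 hM h0 hi hB
  have ha : ∀ p, ∀ᵐ t ∂μ p, t ∈ Set.Ioi (0 : ℝ) := fun p => by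
    have := (hM p).1
    exact meas3_ae (hM p).2.1 (h0 p)
  have L : Tendsto (fun k : ℕ => |∑ p ∈ range (n + 1), w p * ∫ t, lg ((k : ℝ) + 4) t ∂μ p|)
      atTop (𝓝 |∑ p ∈ range (n + 1), w p * ∫ t in Set.Ioi 0, Real.log t ∂μ p|) :=
    (tendsto_finsetSum _ fun p _ => (meas3_lg (ha p) (hi p)).const_mul (w p)).abs
  have R : Tendsto (fun k : ℕ => a + b * ∑ p ∈ range (n + 1),
      Real.log ((k : ℝ) + 4) * ∫ t, tent ((k : ℝ) + 4) t ∂μ p) atTop
      (𝓝 (a + b * ∑ _p ∈ range (n + 1), (0 : ℝ))) :=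
    ((tendsto_finsetSum _ fun p _ => meas3_tent (ha p) (hi p)).const_mul b).const_add a
  simp only [sum_const_zero, mul_zero, add_zero] at R
  refine le_of_tendsto_of_tendsto L R ?_
  filter_upwards [meas3_B.eventually_ge_atTop B0] with k hk
  have := hB _ hk
  rwa [mul_assoc, mul_sum] at this

end Pool.Agent.P.MP_f30597_gt
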