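import Mathlib

/-! Definitions: sofic and amenable groups, finite free resolutions, L2-invariants. -/

namespace Pool.Agent.P.MP_f30597_gt

open MeasureTheory

noncomputable section

/-- Sofic groups: finite pieces are modelled by almost multiplicative, almost free permutations. -/
def IsSofic (G : Type) [Group G] : Prop :=
  ∀ (F : Finset G) (ε : ℝ), 0 < ε → ∃ (n : ℕ) (σ : G → Equiv.Perm (Fin n)),
    (∀ g ∈ F, ∀ h ∈ F,
      ((Finset.univ.filter fun i : Fin n => σ (g * h) i ≠ σ g (σ h i)).card : ℝ) < ε * n) ∧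
    ∀ g ∈ F, g ≠ 1 → ((Finset.univ.filter fun i : Fin n => σ g i = i).card : ℝ) < ε * n

/-- Amenable groups (Foelner condition). -/
def IsAmenable (A : Type) [Group A] : Prop :=
  ∀ (E : Finset A) (ε : ℝ), 0 < ε → ∃ F : Finset A, F.Nonempty ∧
    ∀ a ∈ E, ((((fun x => a * x) '' (F : Set A)) \ (F : Set A)).ncard : ℝ) ≤ ε * F.card

/-- The integral group ring. -/
abbrev ZG (G : Type) [Group G] : Type := MonoidAlgebra ℤ G

/-- The augmentation of the free module with basis `ι` sending the basis element `a` to `w a`. -/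
def aug {G ι : Type} [Group G] [Fintype ι] (w : ι → ℤ) (x : ι → ZG G) : ℤ :=
  ∑ a, w a * (x a).coeff.sum fun _ m => m

/-- `c` is the boundary matrix of a finite based free resolution of the trivial module `ℤ` over
`ℤ G`. The basis `ι` is graded by `deg`, the boundary `x ↦ x ᵥ* c` lowers the degree by one, and
the complex augmented by `aug w` in degree zero is exact. -/
structure IsResolution {G ι : Type} [Group G] [Fintype ι] (deg : ι → ℕ)
    (c : Matrix ι ι (ZG G)) (w : ι → ℤ) : Prop where
  graded : ∀ a b, c a b ≠ 0 → deg a = deg b + 1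
  aug_deg : ∀ a, w a ≠ 0 → deg a = 0
  aug_surj : ∃ x : ι → ZG G, aug w x = 1
  exact : ∀ x : ι → ZG G,
    (Matrix.vecMul x c = 0 ∧ aug w x = 0) ↔ ∃ y : ι → ZG G, Matrix.vecMul y c = x

section Hilbert

variable {G κ κ' H K L : Type} [Group G] [Fintype κ] [Fintype κ']
  [NormedAddCommGroup H] [InnerProductSpace ℂ H] [CompleteSpace H]
  [NormedAddCommGroup K] [InnerProductSpace ℂ K] [CompleteSpace K]
  [NormedAddCommGroup L] [InnerProductSpace ℂ L] [CompleteSpace L]

/-- The bounded operator `T` is right multiplication with the matrix `x` over the group ring, with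
respect to the Hilbert bases `b` and `b'`. -/
def IsRightMul (b : HilbertBasis (G × κ) ℂ H) (b' : HilbertBasis (G × κ') ℂ K)
    (x : Matrix κ κ' (ZG G)) (T : H →L[ℂ] K) : Prop :=
  ∀ g a, T (b (g, a)) = ∑ a', (x a a').coeff.sum fun h m => (m : ℂ) • b' (g * h, a')

/-- The von Neumann trace. -/
def vnTrace (b : HilbertBasis (G × κ) ℂ H) (T : H →L[ℂ] H) : ℝ :=
  ∑ a, (inner ℂ (b (1, a)) (T (b (1, a)))).re

/-- The von Neumann dimension of the closure of a subspace: the trace of the orthogonal
projection. -/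
def vnDimension (b : HilbertBasis (G × κ) ℂ H) (S : Submodule ℂ H) : ℝ :=
  vnTrace b S.topologicalClosure.starProjection

/-- `μ` is the spectral measure of the positive operator `T` with respect to the von Neumann
trace (the finite measure on `[0, ‖T‖]` whose moments are the traces of the powers of `T`), and the
logarithm is integrable on `(0, ∞)`. -/
def IsLogSpectral (b : HilbertBasis (G × κ) ℂ H) (T : H →L[ℂ] H) (μ : Measure ℝ) : Prop :=
  IsFiniteMeasure μ ∧ μ (Set.Icc 0 ‖T‖)ᶜ = 0 ∧ (∀ m : ℕ, ∫ t, t ^ m ∂μ = vnTrace b (T ^ m)) ∧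
    IntegrableOn Real.log (Set.Ioi 0) μ

/-- The operator `T^* T`. -/
def starSq (T : H →L[ℂ] K) : H →L[ℂ] H := ContinuousLinearMap.adjoint T ∘L T

/-- The operator `T T^*`. -/
def sqStar (T : H →L[ℂ] K) : K →L[ℂ] K := T ∘L ContinuousLinearMap.adjoint T

/-- The Laplacian `T^* T + R R^*` of `L → H → K`. -/
def laplacian (T : H →L[ℂ] K) (R : L →L[ℂ] H) : H →L[ℂ] H := starSq T + sqStar R

/-- The reduced homology of `L → H → K`: the orthogonal complement of the image in the kernel. -/
def harmonic (T : H →L[ℂ] K) (R : L →L[ℂ] H) : Submodule ℂ H :=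
  T.ker ⊓ Submodule.orthogonal R.range

end Hilbert

section Complex

variable {G : Type} [Group G] {κ H : ℕ → Type} [∀ p, Fintype (κ p)]
  [∀ p, NormedAddCommGroup (H p)] [∀ p, InnerProductSpace ℂ (H p)] [∀ p, CompleteSpace (H p)]
  (b : ∀ p, HilbertBasis (G × κ p) ℂ (H p)) (D : ∀ p q, H p →L[ℂ] H q)

/-- The L2-Betti number: dimension of the kernel of `c_p` minus the closed image of `c_(p+1)`,
where `D p q` is the component of the boundary operator from degree `p` to degree `q`. -/
def l2Betti (p : ℕ) : ℝ := vnDimension (b p) (harmonic (D p (p - 1)) (D (p + 1) p))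

/-- Determinant class: the logarithm is integrable on `(0, ∞)` for the spectral measure of
`c_p^* c_p`, for every differential `c_p`. -/
def IsDetClass : Prop := ∀ p, ∃ μ, IsLogSpectral (b (p + 1)) (starSq (D (p + 1) p)) μ

/-- `ρ` is the L2-torsion of the complex, which has length at most `n`; `μ p` is the spectral
measure of the combinatorial Laplacian in degree `p`. -/
def IsL2Torsion (n : ℕ) (ρ : ℝ) : Prop :=
  ∃ μ : ℕ → Measure ℝ,
    (∀ p, IsLogSpectral (b p) (laplacian (D p (p - 1)) (D (p + 1) p)) (μ p)) ∧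
      ρ = -(1 / 2) * ∑ p ∈ Finset.range (n + 1),
        (-1) ^ p * (p : ℝ) * ∫ t in Set.Ioi 0, Real.log t ∂μ p

end Complex

end

end Pool.Agent.P.MP_f30597_gt
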