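import Mathlib

/-! Functional calculus for real symmetric matrices, rank and norm estimates. -/

namespace Pool.Agent.P.MP_f30597_gt

open Matrix Finset
open scoped Matrix.Norms.L2Operator

set_option linter.unusedSectionVars false

noncomputable section

variable {I J L : Type} [Fintype I] [DecidableEq I] [Fintype J] [DecidableEq J] [Fintype L]
  [DecidableEq L]

/-- functional calculus for symmetric matrices -/
def fc (f : ℝ → ℝ) (X : Matrix I I ℝ) : Matrix I I ℝ :=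
  open Classical in if h : X.IsHermitian then h.cfc f else 0

/-- all entries are integers -/
def IsInt {I J : Type} (X : Matrix I J ℝ) : Prop := ∀ i j, ∃ m : ℤ, X i j = m

theorem fc_data {X : Matrix I I ℝ} (hX : X.IsHermitian) : ∃ U : Matrix I I ℝ, Uᴴ * U = 1 ∧
    U * Uᴴ = 1 ∧ X = U * diagonal hX.eigenvalues * Uᴴ ∧
      ∀ f : ℝ → ℝ, fc f X = U * diagonal (fun i => f (hX.eigenvalues i)) * Uᴴ := by
  refine ⟨hX.eigenvectorUnitary, Unitary.coe_star_mul_self hX.eigenvectorUnitary,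
    Unitary.coe_mul_star_self hX.eigenvectorUnitary, ?_, fun f => ?_⟩
  · simpa [Unitary.conjStarAlgAut_apply, star_eq_conjTranspose] using hX.spectral_theorem
  · rw [fc, dif_pos hX]
    simp [IsHermitian.cfc, Unitary.conjStarAlgAut_apply, star_eq_conjTranspose,
      Function.comp_def]

theorem fc_herm (f : ℝ → ℝ) (X : Matrix I I ℝ) : (fc f X).IsHermitian := by
  by_cases hX : X.IsHermitian
  · obtain ⟨U, -, -, -, h⟩ := fc_data hX
    rw [h]
    exact isHermitian_mul_mul_conjTranspose U (isHermitian_diagonal _)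
  · rw [fc, dif_neg hX]
    exact isHermitian_zero

theorem fc_conjT (f : ℝ → ℝ) (X : Matrix I I ℝ) : (fc f X)ᴴ = fc f X := fc_herm f X

theorem fc_mul {X : Matrix I I ℝ} (hX : X.IsHermitian) (f g : ℝ → ℝ) :
    fc f X * fc g X = fc (fun t => f t * g t) X := by
  obtain ⟨U, h1, -, -, h⟩ := fc_data hX
  rw [h, h, h, ← diagonal_mul_diagonal]
  simp only [Matrix.mul_assoc]
  rw [← Matrix.mul_assoc Uᴴ U, h1, Matrix.one_mul]

theorem fc_add {X : Matrix I I ℝ} (hX : X.IsHermitian) (f g : ℝ → ℝ) :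
    fc f X + fc g X = fc (fun t => f t + g t) X := by
  obtain ⟨U, -, -, -, h⟩ := fc_data hX
  rw [h, h, h, ← diagonal_add, Matrix.mul_add, Matrix.add_mul]

theorem fc_smul {X : Matrix I I ℝ} (hX : X.IsHermitian) (r : ℝ) (f : ℝ → ℝ) :
    r • fc f X = fc (fun t => r * f t) X := by
  obtain ⟨U, -, -, -, h⟩ := fc_data hX
  rw [h, h, ← Matrix.smul_mul, ← Matrix.mul_smul, ← diagonal_smul]
  rfl

theorem fc_sub {X : Matrix I I ℝ} (hX : X.IsHermitian) (f g : ℝ → ℝ) :
    fc f X - fc g X = fc (fun t => f t - g t) X := by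
  rw [sub_eq_iff_eq_add, fc_add hX]
  simp

theorem fc_const {X : Matrix I I ℝ} (hX : X.IsHermitian) (r : ℝ) :
    fc (fun _ => r) X = r • (1 : Matrix I I ℝ) := by
  obtain ⟨U, -, h2, -, h⟩ := fc_data hX
  rw [h, ← smul_one_eq_diagonal, Matrix.mul_smul, Matrix.mul_one, Matrix.smul_mul, h2]

theorem fc_one {X : Matrix I I ℝ} (hX : X.IsHermitian) : fc (fun _ => 1) X = 1 := by
  rw [fc_const hX, one_smul]

theorem fc_zero {X : Matrix I I ℝ} (hX : X.IsHermitian) : fc (fun _ => 0) X = 0 := by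
  rw [fc_const hX, zero_smul]

theorem fc_id {X : Matrix I I ℝ} (hX : X.IsHermitian) : fc (fun t => t) X = X := by
  obtain ⟨U, -, -, h3, h⟩ := fc_data hX
  rw [h]
  exact h3.symm

theorem fc_pow {X : Matrix I I ℝ} (hX : X.IsHermitian) (m : ℕ) :
    fc (fun t => t ^ m) X = X ^ m := by
  induction m with
  | zero => simpa using fc_one hX
  | succ m ih =>
    rw [pow_succ, ← ih]
    conv_rhs => arg 2; rw [← fc_id hX]
    rw [fc_mul hX]
    simp only [pow_succ]

theorem fc_mul_self {X : Matrix I I ℝ} (hX : X.IsHermitian) (f : ℝ → ℝ) :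
    fc f X * X = fc (fun t => f t * t) X := by
  rw [← fc_mul hX, fc_id hX]

theorem self_mul_fc {X : Matrix I I ℝ} (hX : X.IsHermitian) (f : ℝ → ℝ) :
    X * fc f X = fc (fun t => t * f t) X := by
  rw [← fc_mul hX, fc_id hX]

theorem fc_congr {X : Matrix I I ℝ} (hX : X.IsHermitian) {f g : ℝ → ℝ}
    (h : ∀ i, f (hX.eigenvalues i) = g (hX.eigenvalues i)) : fc f X = fc g X := by
  obtain ⟨U, -, -, -, h1⟩ := fc_data hX
  rw [h1, h1, funext h]

theorem fc_congr_pos {X : Matrix I I ℝ} (hX : X.PosSemidef) {f g : ℝ → ℝ}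
    (h : ∀ t, 0 ≤ t → f t = g t) : fc f X = fc g X :=
  fc_congr hX.1 fun i => h _ (hX.eigenvalues_nonneg i)

/-- intertwining -/
theorem fc_inter {X : Matrix I I ℝ} {Y : Matrix J J ℝ} (hX : X.IsHermitian) (hY : Y.IsHermitian)
    {Z : Matrix I J ℝ} (h : X * Z = Z * Y) (f : ℝ → ℝ) : fc f X * Z = Z * fc f Y := by
  obtain ⟨U, h1, h2, h3, h4⟩ := fc_data hX
  obtain ⟨W, k1, k2, k3, k4⟩ := fc_data hY
  have e1 : diagonal hX.eigenvalues * (Uᴴ * Z * W) = (Uᴴ * Z * W) * diagonal hY.eigenvalues := by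
    have e2 : Uᴴ * (X * Z) * W = Uᴴ * (Z * Y) * W := by rw [h]
    conv_lhs at e2 => rw [h3]
    conv_rhs at e2 => rw [k3]
    simp only [Matrix.mul_assoc] at e2 ⊢
    rw [← Matrix.mul_assoc Uᴴ U, h1, Matrix.one_mul, k1, Matrix.mul_one] at e2
    exact e2
  have e3 : diagonal (fun i => f (hX.eigenvalues i)) * (Uᴴ * Z * W) =
      (Uᴴ * Z * W) * diagonal (fun i => f (hY.eigenvalues i)) := by
    ext i j
    have e4 := congrFun (congrFun e1 i) j
    rw [diagonal_mul, mul_diagonal] at e4 ⊢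
    by_cases h0 : (Uᴴ * Z * W) i j = 0
    · rw [h0, mul_zero, zero_mul]
    · rw [mul_comm] at e4
      rw [mul_left_cancel₀ h0 e4, mul_comm]
  have e5 : U * (diagonal (fun i => f (hX.eigenvalues i)) * (Uᴴ * Z * W)) * Wᴴ =
      U * ((Uᴴ * Z * W) * diagonal (fun i => f (hY.eigenvalues i))) * Wᴴ := by rw [e3]
  rw [h4, k4]
  simp only [Matrix.mul_assoc] at e5 ⊢
  rw [k2, Matrix.mul_one, ← Matrix.mul_assoc U Uᴴ, h2, Matrix.one_mul] at e5
  exact e5

theorem fc_trace {X : Matrix I I ℝ} (hX : X.IsHermitian) (f : ℝ → ℝ) :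
    (fc f X).trace = ∑ i, f (hX.eigenvalues i) := by
  obtain ⟨U, h1, -, -, h⟩ := fc_data hX
  rw [h, trace_mul_comm, ← Matrix.mul_assoc, h1, Matrix.one_mul, trace_diagonal]

theorem fc_det {X : Matrix I I ℝ} (hX : X.IsHermitian) (f : ℝ → ℝ) :
    (fc f X).det = ∏ i, f (hX.eigenvalues i) := by
  obtain ⟨U, h1, -, -, h⟩ := fc_data hX
  rw [h, det_mul_comm, ← Matrix.mul_assoc, h1, Matrix.one_mul, det_diagonal]

theorem fc_det_exp {X : Matrix I I ℝ} (hX : X.IsHermitian) (f : ℝ → ℝ) :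
    (fc (fun t => Real.exp (f t)) X).det = Real.exp (fc f X).trace := by
  rw [fc_det hX, fc_trace hX, Real.exp_sum]

theorem fc_rank {X : Matrix I I ℝ} (hX : X.IsHermitian) (P : ℝ → Prop) [DecidablePred P] :
    ((fc (fun t => if P t then 1 else 0) X).rank : ℝ) =
      (fc (fun t => if P t then 1 else 0) X).trace := by
  obtain ⟨U, h1, h2, -, h⟩ := fc_data hX
  rw [fc_trace hX, h, rank_mul_eq_left_of_isUnit_det _ _ (isUnit_det_of_right_inverse h1),
    rank_mul_eq_right_of_isUnit_det _ _ (isUnit_det_of_right_inverse h2), rank_diagonal,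
    Fintype.card_subtype]
  simp

theorem fc_posSemidef {X : Matrix I I ℝ} (hX : X.IsHermitian) {f : ℝ → ℝ}
    (hf : ∀ i, 0 ≤ f (hX.eigenvalues i)) : (fc f X).PosSemidef := by
  obtain ⟨U, -, -, -, h⟩ := fc_data hX
  rw [h]
  exact (PosSemidef.diagonal hf).mul_mul_conjTranspose_same U

theorem nrm_diag {w : I → ℝ} {M : ℝ} (hM : 0 ≤ M) (h : ∀ i, |w i| ≤ M) :
    ‖(diagonal w : Matrix I I ℝ)‖ ≤ M := by
  rw [l2_opNorm_diagonal]
  exact (pi_norm_le_iff_of_nonneg hM).2 h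

theorem nrm_one : ‖(1 : Matrix I I ℝ)‖ ≤ 1 := by
  rw [← diagonal_one]
  exact nrm_diag zero_le_one fun _ => by simp

theorem nrm_iso {U : Matrix I J ℝ} (h : Uᴴ * U = 1) : ‖U‖ ≤ 1 := by
  have h1 := l2_opNorm_conjTranspose_mul_self U
  rw [h] at h1
  have h2 : ‖(1 : Matrix J J ℝ)‖ ≤ 1 := nrm_one
  nlinarith [norm_nonneg U]

theorem nrm_mul {X : Matrix I J ℝ} {Y : Matrix J L ℝ} {a b : ℝ} (hX : ‖X‖ ≤ a) (hY : ‖Y‖ ≤ b) :
    ‖X * Y‖ ≤ a * b :=
  (l2_opNorm_mul X Y).trans (mul_le_mul hX hY (norm_nonneg _) ((norm_nonneg _).trans hX))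

theorem fc_norm {X : Matrix I I ℝ} (hX : X.IsHermitian) {f : ℝ → ℝ} {M : ℝ} (hM : 0 ≤ M)
    (hf : ∀ i, |f (hX.eigenvalues i)| ≤ M) : ‖fc f X‖ ≤ M := by
  obtain ⟨U, h1, h2, -, h⟩ := fc_data hX
  rw [h]
  have h3 : ‖Uᴴ‖ ≤ 1 := by rw [l2_opNorm_conjTranspose]; exact nrm_iso h1
  simpa using nrm_mul (nrm_mul (nrm_iso h1) (nrm_diag hM hf)) h3

theorem entry_le (X : Matrix I J ℝ) (i : I) (j : J) : |X i j| ≤ ‖X‖ := by
  have h1 := l2_opNorm_mulVec X (EuclideanSpace.single j 1)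
  have h2 := PiLp.norm_apply_le
    ((EuclideanSpace.equiv I ℝ).symm (X *ᵥ (EuclideanSpace.single j (1 : ℝ)).ofLp)) i
  simp only [PiLp.norm_single, norm_one, mul_one] at h1
  refine le_trans ?_ (h2.trans h1)
  simp

theorem fc_eig_le {X : Matrix I I ℝ} (hX : X.IsHermitian) (f : ℝ → ℝ) (i : I) :
    |f (hX.eigenvalues i)| ≤ ‖fc f X‖ := by
  obtain ⟨U, h1, h2, -, h3⟩ := fc_data hX
  have e : diagonal (fun i => f (hX.eigenvalues i)) = Uᴴ * fc f X * U := by
    rw [h3]
    simp only [Matrix.mul_assoc]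
    rw [h1, Matrix.mul_one, ← Matrix.mul_assoc, h1, Matrix.one_mul]
  have h4 : ‖Uᴴ‖ ≤ 1 := by rw [l2_opNorm_conjTranspose]; exact nrm_iso h1
  have h5 := nrm_mul (nrm_mul h4 (le_refl ‖fc f X‖)) (nrm_iso h1)
  have h6 := entry_le (Uᴴ * fc f X * U) i i
  rw [← e, diagonal_apply_eq] at h6
  rw [← e] at h5
  linarith

theorem eig_le {X : Matrix I I ℝ} (hX : X.IsHermitian) (i : I) : |hX.eigenvalues i| ≤ ‖X‖ := by
  simpa [fc_id hX] using fc_eig_le hX (fun t => t) i

theorem trace_le (X : Matrix I I ℝ) : |X.trace| ≤ Fintype.card I * ‖X‖ := by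
  refine (abs_sum_le_sum_abs _ _).trans ?_
  simpa using sum_le_sum fun i (_ : i ∈ (univ : Finset I)) => entry_le X i i

omit [DecidableEq I] [DecidableEq J] in
theorem rk_add (X Y : Matrix I J ℝ) : (X + Y).rank ≤ X.rank + Y.rank := by
  unfold Matrix.rank
  rw [mulVecLin_add]
  refine le_trans (Submodule.finrank_mono ?_) (Submodule.finrank_add_le_finrank_add_finrank _ _)
  rintro _ ⟨v, rfl⟩
  exact Submodule.add_mem_sup ⟨v, rfl⟩ ⟨v, rfl⟩

omit [DecidableEq I] in
theorem rk_smul (r : ℝ) (X : Matrix I J ℝ) : (r • X).rank ≤ X.rank := by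
  have : r • X = X * (r • (1 : Matrix J J ℝ)) := by simp
  rw [this]
  exact rank_mul_le_left _ _

omit [DecidableEq I] in
theorem rk_neg (X : Matrix I J ℝ) : (-X).rank ≤ X.rank := by
  simpa using rk_smul (-1) X

omit [DecidableEq I] in
theorem rk_sub (X Y : Matrix I J ℝ) : (X - Y).rank ≤ X.rank + Y.rank := by
  rw [sub_eq_add_neg]
  exact (rk_add _ _).trans (Nat.add_le_add_left (rk_neg Y) _)

theorem trace_le_rank (X : Matrix I I ℝ) : |X.trace| ≤ 2 * X.rank * ‖X‖ := by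
  have hH : (X + Xᴴ).IsHermitian := isHermitian_add_transpose_self X
  have h1 : (X + Xᴴ).trace = 2 * X.trace := by
    rw [trace_add, trace_conjTranspose]
    simp [two_mul]
  have h2 : ((X + Xᴴ).rank : ℝ) ≤ 2 * X.rank := by
    have := rk_add X Xᴴ
    rw [rank_conjTranspose] at this
    exact_mod_cast this.trans (by omega)
  have h3 : ‖X + Xᴴ‖ ≤ 2 * ‖X‖ := by
    have := norm_add_le X Xᴴ
    rw [l2_opNorm_conjTranspose] at this
    linarith
  have h4 : |(X + Xᴴ).trace| ≤ (X + Xᴴ).rank * ‖X + Xᴴ‖ := by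
    rw [hH.trace_eq_sum_eigenvalues, hH.rank_eq_card_non_zero_eigs, Fintype.card_subtype]
    simp only [RCLike.ofReal_real_eq_id, id]
    rw [← sum_filter_ne_zero]
    refine (abs_sum_le_sum_abs _ _).trans ?_
    simpa using sum_le_sum fun i (_ : i ∈ univ.filter fun i => hH.eigenvalues i ≠ 0) => eig_le hH i
  rw [h1, abs_mul, abs_two] at h4
  have h5 := mul_le_mul h2 h3 (norm_nonneg _) (by positivity)
  linarith

/-- the product of the nonzero eigenvalues of an integral symmetric matrix is a nonzero integer -/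
theorem int_log {X : Matrix I I ℝ} (hX : X.IsHermitian) (hi : IsInt X) :
    0 ≤ (fc Real.log X).trace := by
  choose Z hZ using hi
  have h1 : X = (Matrix.of Z).map (Int.castRingHom ℝ) := by
    ext i j
    simp [hZ]
  have h2 : ∀ s : Finset I, (∏ i ∈ s, (Polynomial.X - Polynomial.C
      (hX.eigenvalues i))).trailingCoeff = ∏ i ∈ s,
        if hX.eigenvalues i = 0 then 1 else -hX.eigenvalues i := by
    intro s
    induction s using Finset.induction_on with
    | empty => simp [Polynomial.trailingCoeff]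
    | insert a s ha ih =>
      rw [prod_insert ha, prod_insert ha, Polynomial.trailingCoeff_mul, ih]
      congr 1
      split_ifs with h
      · rw [h, Polynomial.C_0, sub_zero, Polynomial.trailingCoeff,
          Polynomial.natTrailingDegree_X, Polynomial.coeff_X_one]
      · rw [Polynomial.trailingCoeff_eq_coeff_zero (by simpa using h)]
        simp
  have h3 := hX.charpoly_eq
  simp only [RCLike.ofReal_real_eq_id, id] at h3
  have h4 := h2 univ
  rw [← h3] at h4
  conv_lhs at h4 => rw [Polynomial.trailingCoeff]; arg 1; rw [h1, charpoly_map]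
  rw [Polynomial.coeff_map] at h4
  have h5 : (∏ i, if hX.eigenvalues i = 0 then (1 : ℝ) else -hX.eigenvalues i) ≠ 0 :=
    prod_ne_zero_iff.2 fun i _ => by split_ifs with h <;> simp [h]
  have h6 : (1 : ℝ) ≤ |∏ i, if hX.eigenvalues i = 0 then (1 : ℝ) else -hX.eigenvalues i| := by
    rw [← h4] at h5 ⊢
    simp only [eq_intCast, ne_eq, Int.cast_eq_zero] at h5 ⊢
    exact_mod_cast Int.one_le_abs h5
  have h7 := Real.log_nonneg h6
  rw [Real.log_abs, Real.log_prod fun i _ => by split_ifs with h <;> simp [h]] at h7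
  rw [fc_trace hX]
  refine h7.trans (le_of_eq (sum_congr rfl fun i _ => ?_))
  split_ifs with h <;> simp [h]

theorem det_one_add_le (Z : Matrix I I ℝ) : |(1 + Z).det| ≤ (1 + ‖Z‖) ^ (2 * Z.rank) := by
  have hH : ((1 + Z)ᴴ * (1 + Z) - 1).IsHermitian :=
    (isHermitian_conjTranspose_mul_self _).sub isHermitian_one
  have h1 : ((1 + Z)ᴴ * (1 + Z) - 1).rank ≤ 2 * Z.rank := by
    have e : (1 + Z)ᴴ * (1 + Z) - 1 = Z + Zᴴ * (1 + Z) := by
      rw [conjTranspose_add, conjTranspose_one, Matrix.add_mul, Matrix.one_mul]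
      abel
    rw [e]
    have := rank_mul_le_left Zᴴ (1 + Z)
    rw [rank_conjTranspose] at this
    exact (rk_add _ _).trans (by omega)
  have h2 : ‖1 + Z‖ ≤ 1 + ‖Z‖ := (norm_add_le _ _).trans (by linarith [nrm_one (I := I)])
  have h3 : ‖(1 + Z)ᴴ * (1 + Z)‖ ≤ (1 + ‖Z‖) ^ 2 := by
    rw [l2_opNorm_conjTranspose_mul_self, sq]
    exact mul_le_mul h2 h2 (norm_nonneg _) (by positivity)
  have h4 : fc (fun t => t + 1) ((1 + Z)ᴴ * (1 + Z) - 1) = (1 + Z)ᴴ * (1 + Z) := by
    rw [← fc_add hH, fc_id hH, fc_one hH, sub_add_cancel]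
  have h5 : (1 + Z).det ^ 2 = ∏ i, (hH.eigenvalues i + 1) := by
    rw [← fc_det hH (fun t => t + 1), h4, det_mul, det_conjTranspose, sq]
    simp
  have hZ : (1 : ℝ) ≤ 1 + ‖Z‖ := by linarith [norm_nonneg Z]
  have h6 : ∀ i, |hH.eigenvalues i + 1| ≤ (1 + ‖Z‖) ^ 2 := by
    intro i
    have k := fc_eig_le hH (fun t => t + 1) i
    rw [h4] at k
    exact k.trans h3
  have h7 : (1 + Z).det ^ 2 ≤ ((1 + ‖Z‖) ^ (2 * Z.rank)) ^ 2 := by
    rw [h5, ← prod_filter_mul_prod_filter_not univ fun i => hH.eigenvalues i ≠ 0,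
      prod_eq_one (s := univ.filter fun i => ¬ hH.eigenvalues i ≠ 0) fun i hi => by
        simpa using (mem_filter.1 hi).2, mul_one]
    refine (le_abs_self _).trans ?_
    rw [abs_prod]
    refine (prod_le_prod (fun _ _ => abs_nonneg _) fun i _ => h6 i).trans ?_
    rw [prod_const, ← Fintype.card_subtype, ← hH.rank_eq_card_non_zero_eigs, ← pow_mul, ← pow_mul]
    exact pow_le_pow_right₀ hZ (by omega)
  exact abs_le_of_sq_le_sq' h7 (by positivity) |> abs_le.2

/-- determinants under perturbations of small rank -/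
theorem det_pert {A A' Y : Matrix I I ℝ} (h : A * A' = 1) :
    |Y.det| ≤ |A.det| * (1 + ‖A'‖ * ‖Y - A‖) ^ (2 * (Y - A).rank) := by
  have e : Y = A * (1 + A' * (Y - A)) := by
    rw [Matrix.mul_add, ← Matrix.mul_assoc, h]
    simp
  conv_lhs => rw [e, det_mul, abs_mul]
  refine mul_le_mul_of_nonneg_left ((det_one_add_le _).trans ?_) (abs_nonneg _)
  have h1 := l2_opNorm_mul A' (Y - A)
  have h2 := rank_mul_le_right A' (Y - A)
  calc _ ≤ (1 + ‖A'‖ * ‖Y - A‖) ^ (2 * (A' * (Y - A)).rank) := by gcongr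
    _ ≤ _ := pow_le_pow_right₀ (by linarith [mul_nonneg (norm_nonneg A') (norm_nonneg (Y - A))])
      (by omega)

theorem det_nil {N : Matrix I I ℝ} (h : IsNilpotent N) : (1 + N).det = 1 := by
  have h1 := (isNilpotent_charpoly_sub_pow_of_isNilpotent h.neg).eq_zero
  have h2 := congrArg (Polynomial.eval (1 : ℝ)) (sub_eq_zero.1 h1)
  rw [eval_charpoly] at h2
  simpa using h2

/-- Schur test -/
theorem schur {X : Matrix I J ℝ} {M : ℝ} (hM : 0 ≤ M) (hr : ∀ i, ∑ j, |X i j| ≤ M)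
    (hc : ∀ j, ∑ i, |X i j| ≤ M) : ‖X‖ ≤ M := by
  rw [l2_opNorm_def]
  refine ContinuousLinearMap.opNorm_le_bound _ hM fun v => ?_
  refine abs_le_of_sq_le_sq' ?_ (by positivity) |>.2
  rw [mul_pow, EuclideanSpace.real_norm_sq_eq, EuclideanSpace.real_norm_sq_eq]
  have h1 : ∀ i, (∑ j, X i j * v j) ^ 2 ≤ M * ∑ j, |X i j| * v j ^ 2 := by
    intro i
    have h2 := sum_sq_le_sum_mul_sum_of_sq_le_mul (s := univ) (r := fun j => X i j * v j)
      (f := fun j => |X i j|) (g := fun j => |X i j| * v j ^ 2) (fun _ _ => abs_nonneg _)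
      (fun _ _ => by positivity) fun j _ => by
        rw [mul_pow, ← mul_assoc, ← sq, sq_abs]
    exact h2.trans (mul_le_mul_of_nonneg_right (hr i) (sum_nonneg fun _ _ => by positivity))
  calc _ ≤ ∑ i, M * ∑ j, |X i j| * v j ^ 2 := sum_le_sum fun i _ => by
        simpa [mulVec, dotProduct] using h1 i
    _ = M * ∑ j, (∑ i, |X i j|) * v j ^ 2 := by
        rw [← mul_sum, sum_comm]
        simp only [sum_mul]
    _ ≤ M * ∑ j, M * v j ^ 2 := by gcongr with j; exact hc j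
    _ = _ := by rw [← mul_sum]; ring

theorem IsInt.mul {X : Matrix I J ℝ} {Y : Matrix J L ℝ} (hX : IsInt X) (hY : IsInt Y) :
    IsInt (X * Y) := by
  choose a ha using hX
  choose b hb using hY
  exact fun i j => ⟨∑ k, a i k * b k j, by simp [mul_apply, ha, hb]⟩

theorem IsInt.add {I J : Type} {X Y : Matrix I J ℝ} (hX : IsInt X) (hY : IsInt Y) :
    IsInt (X + Y) := by
  choose a ha using hX
  choose b hb using hY
  exact fun i j => ⟨a i j + b i j, by simp [ha, hb]⟩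

theorem IsInt.neg {I J : Type} {X : Matrix I J ℝ} (hX : IsInt X) : IsInt (-X) := by
  choose a ha using hX
  exact fun i j => ⟨-a i j, by simp [ha]⟩

theorem IsInt.sub {I J : Type} {X Y : Matrix I J ℝ} (hX : IsInt X) (hY : IsInt Y) :
    IsInt (X - Y) := by
  rw [sub_eq_add_neg]
  exact hX.add hY.neg

theorem IsInt.conjT {I J : Type} {X : Matrix I J ℝ} (hX : IsInt X) : IsInt Xᴴ :=
  fun i j => by simpa using hX j i

theorem isInt_diag {I : Type} [DecidableEq I] (P : I → Prop) [DecidablePred P] :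
    IsInt (diagonal fun i => if P i then (1 : ℝ) else 0) := by
  intro i j
  by_cases h : i = j ∧ P i
  · exact ⟨1, by simp [h.1.symm, h.2]⟩
  · refine ⟨0, ?_⟩
    rw [diagonal_apply]
    split_ifs with h1 h2
    · exact absurd ⟨h1, h2⟩ h
    · simp
    · simp

/-- `X` has degree `j`: nonzero entries only where the row degree is the column degree plus `j` -/
def Deg {I J : Type} (dI : I → ℕ) (dJ : J → ℕ) (j : ℤ) (X : Matrix I J ℝ) : Prop :=
  ∀ a b, X a b ≠ 0 → (dI a : ℤ) = dJ b + j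

end

end Pool.Agent.P.MP_f30597_gt
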