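import Pool.Agent.P.MP_f30597_gt.Mdl

/-! Statements of the steps of the proof. -/

namespace Pool.Agent.P.MP_f30597_gt

open Matrix Finset Filter Topology MeasureTheory
open scoped Matrix.Norms.L2Operator

noncomputable section

/-- indicator of the degree `p` -/
def ind {ι : Type} (deg : ι → ℕ) (p : ℕ) : ι → ℝ := fun a => if deg a = p then 1 else 0

/-- `μ` is a finite measure on `[0, K]` with moments `f` -/
def Mom (μ : Measure ℝ) (K : ℝ) (f : ℕ → ℝ) : Prop :=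
  IsFiniteMeasure μ ∧ μ (Set.Icc 0 K)ᶜ = 0 ∧ ∀ m : ℕ, ∫ t, t ^ m ∂μ = f m

/-- truncated logarithm -/
def lg (B t : ℝ) : ℝ := Real.log (max t (1 / B))

/-- continuous majorant of the indicator of `[0, 1 / B]` -/
def tent (B t : ℝ) : ℝ := max 0 (min 1 (2 - B * t))

/-- indicator of zero -/
def z0 (t : ℝ) : ℝ := if t = 0 then 1 else 0

open Classical in
/-- all group elements occurring in a matrix -/
def supp {G ι : Type} [Group G] [Fintype ι] (c : Matrix ι ι (ZG G)) : Finset G :=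
  univ.biUnion fun a => univ.biUnion fun b => (c a b).coeff.support

open Classical in
/-- the windows -/
def win {G ι : Type} [Group G] [Fintype ι] (c : Matrix ι ι (ZG G)) : ℕ → Finset G
  | 0 => {1}
  | k + 1 => insert 1 (Finset.image₂ (· * ·) (supp c) (win c k))

/-- On the models, the complex `c` is approximately a homotopy retract of a small complex `s`
(row vector conventions). -/
def Data {G ι κ : Type} [Group G] [Fintype ι] [DecidableEq ι] [Fintype κ] [DecidableEq κ]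
    (S : Sof G) (deg : ι → ℕ) (dκ : κ → ℕ) (c : Matrix ι ι (ZG G)) (δ : ℝ) : Prop :=
  ∃ (M : ℝ) (φ : S.Mat ι κ) (ψ : S.Mat κ ι) (h : S.Mat ι ι) (s : S.Mat κ κ),
    (∀ i, ‖φ i‖ ≤ M ∧ ‖ψ i‖ ≤ M ∧ ‖h i‖ ≤ M ∧ ‖s i‖ ≤ M) ∧
    (∀ i, IsInt (φ i) ∧ IsInt (ψ i) ∧ IsInt (h i) ∧ IsInt (s i)) ∧
    (∀ i, Deg (fun p => deg p.1) (fun p => dκ p.1) 0 (φ i) ∧
      Deg (fun p => dκ p.1) (fun p => deg p.1) 0 (ψ i) ∧
      Deg (fun p => deg p.1) (fun p => deg p.1) (-1) (h i) ∧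
      Deg (fun p => dκ p.1) (fun p => dκ p.1) 1 (s i)) ∧
    S.Neg (fun i => mdl (S.act i) c * φ i - φ i * s i) ∧
    S.Neg (fun i => s i * ψ i - ψ i * mdl (S.act i) c) ∧
    S.Neg (fun i => φ i * ψ i - 1 - (h i * mdl (S.act i) c + mdl (S.act i) c * h i)) ∧
    ∀ᶠ i in S.l, (s i * (s i)ᴴ).trace ≤ δ * S.N i ∧ ((φ i).rank : ℝ) ≤ δ * S.N i

def S_SOF : Prop := ∀ (G : Type) [Group G], IsSofic G → Nonempty (Sof G)

def S_OP : Prop := ∀ (G : Type) [Group G],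
  (∀ (κ κ' κ'' : Type) [Fintype κ] [Fintype κ'] [Fintype κ''] (x : Matrix κ κ' (ZG G))
    (y : Matrix κ' κ'' (ZG G)), op (x * y) = op y ∘L op x) ∧
  (∀ (κ κ' : Type) [Fintype κ] [Fintype κ'] (x y : Matrix κ κ' (ZG G)),
    op (x + y) = op x + op y) ∧
  (∀ (κ : Type) [Fintype κ] [DecidableEq κ], op (1 : Matrix κ κ (ZG G)) = 1) ∧
  (∀ (κ κ' : Type) [Fintype κ] [Fintype κ'] (x : Matrix κ κ' (ZG G)),
    ContinuousLinearMap.adjoint (op x) = op (cst x)) ∧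
  ∀ (κ : Type) [Fintype κ] (y : Matrix κ κ (ZG G)), vnTr (op y) = wtr (fun _ => 1) y

def S_LAP : Prop := ∀ (G : Type) [Group G],
  (∀ (κ κ' : Type) [Fintype κ] [DecidableEq κ] [Fintype κ'] (y : Matrix κ κ' (ZG G)) (m : ℕ),
    vnTr ((ContinuousLinearMap.adjoint (op y) ∘L op y) ^ m) =
      wtr (fun _ => 1) ((y * cst y) ^ m)) ∧
  ∀ (ι : Type) [Fintype ι] [DecidableEq ι] (deg : ι → ℕ) (c : Matrix ι ι (ZG G)),
    (∀ p, (lap deg c p).IsPositive ∧ betti deg c p = vnDim (lap deg c p).ker) ∧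
    ((∀ a b, c a b ≠ 0 → deg a = deg b + 1) → ∀ p m : ℕ,
      vnTr (lap deg c p ^ m) = wtr (ind deg p) ((c * cst c + cst c * c) ^ m))

def S_SPEC : Prop := ∀ (G κ : Type) [Group G] [Fintype κ] (T : L2 (G × κ) →L[ℂ] L2 (G × κ)),
  T.IsPositive → ∃ μ : Measure ℝ, IsSpec T μ ∧ vnDim T.ker = μ.real {0}

def S_MOM : Prop := ∀ (G κ : Type) [Group G] [Fintype κ] [DecidableEq κ] (S : Sof G)
  (y : Matrix κ κ (ZG G)) (X : S.Mat κ κ) (M : ℝ) (w : κ → ℝ), (∀ i, ‖X i‖ ≤ M) →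
  S.Neg (fun i => X i - mdl (S.act i) y) → ∀ j : ℕ,
    Tendsto (fun i => (diagonal (fun p : κ × Fin (S.N i) => w p.1) * X i ^ j).trace / S.N i) S.l
      (𝓝 (wtr w (y ^ j)))

def S_DP : Prop := ∀ (G ι : Type) [Group G] [Fintype ι] [DecidableEq ι] (S : Sof G)
  (deg : ι → ℕ) (c : Matrix ι ι (ZG G)), (∀ a b, c a b ≠ 0 → deg a = deg b + 1) → c * c = 0 →
  ∃ (d : S.Mat ι ι) (M : ℝ), (∀ i, d i * d i = 0 ∧ IsInt (d i) ∧ ‖d i‖ ≤ M ∧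
    Deg (fun p => deg p.1) (fun p => deg p.1) 1 (d i)) ∧ S.Neg fun i => d i - mdl (S.act i) c

def S_LIM : Prop := ∀ (Λ : Type) (l : Filter Λ) (I : Λ → Type) [∀ i, Fintype (I i)]
  [∀ i, DecidableEq (I i)] (N : Λ → ℝ) (m K K' : ℝ) (X e : ∀ i, Matrix (I i) (I i) ℝ)
  (μ : Measure ℝ) (f : ℕ → ℝ), (∀ i, 0 < N i) → (∀ i, (Fintype.card (I i) : ℝ) ≤ m * N i) →
  (∀ i, (X i).IsHermitian) → (∀ i, ‖X i‖ ≤ K') → (∀ i, ‖e i‖ ≤ 1) → Mom μ K f →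
  (∀ j : ℕ, Tendsto (fun i => (e i * X i ^ j).trace / N i) l (𝓝 (f j))) →
  ∀ g : ℝ → ℝ, Continuous g →
    Tendsto (fun i => (e i * fc g (X i)).trace / N i) l (𝓝 (∫ t, g t ∂μ))

def S_MEAS : Prop := ∀ (Λ : Type) (l : Filter Λ) [l.NeBot] (ν : Λ → (ℝ → ℝ) → ℝ) (μ : Measure ℝ)
  (K : ℝ) (f : ℕ → ℝ), Mom μ K f →
  (∀ i g h, ν i (fun t => g t + h t) = ν i g + ν i h) →
  (∀ i (r : ℝ) g, ν i (fun t => r * g t) = r * ν i g) →
  (∀ i g h, (∀ t, 0 ≤ t → g t ≤ h t) → ν i g ≤ ν i h) → (∀ i, 0 ≤ ν i Real.log) →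
  (∀ g, Continuous g → Tendsto (fun i => ν i g) l (𝓝 (∫ t, g t ∂μ))) →
  IntegrableOn Real.log (Set.Ioi 0) μ ∧ ∀ δ : ℝ, (∀ᶠ i in l, ν i z0 ≤ δ) → μ.real {0} ≤ δ

def S_MEAS3 : Prop := ∀ (n : ℕ) (μ : ℕ → Measure ℝ) (K : ℕ → ℝ) (f : ℕ → ℕ → ℝ) (w : ℕ → ℝ)
  (a b B0 : ℝ), (∀ p, Mom (μ p) (K p) (f p)) → (∀ p, (μ p).real {0} = 0) →
  (∀ p, IntegrableOn Real.log (Set.Ioi 0) (μ p)) →
  (∀ B, B0 ≤ B → |∑ p ∈ range (n + 1), w p * ∫ t, lg B t ∂μ p| ≤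
    a + b * Real.log B * ∑ p ∈ range (n + 1), ∫ t, tent B t ∂μ p) →
  |∑ p ∈ range (n + 1), w p * ∫ t in Set.Ioi 0, Real.log t ∂μ p| ≤ a

def S_CORE : Prop := ∀ n : ℕ, ∃ C : ℝ, 0 < C ∧ ∀ (X Y : Type) [Fintype X] [DecidableEq X]
  [Fintype Y] [DecidableEq Y] (dX : X → ℕ) (dY : Y → ℕ) (d h : Matrix X X ℝ) (φ : Matrix X Y ℝ)
  (ψ : Matrix Y X ℝ) (s : Matrix Y Y ℝ) (B : ℝ) (r : ℕ), (∀ x, dX x ≤ n) → 2 ≤ B →
  ‖d‖ ≤ B → ‖h‖ ≤ B → ‖φ‖ ≤ B → ‖ψ‖ ≤ B → ‖s‖ ≤ B →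
  IsInt d → IsInt h → IsInt φ → IsInt ψ → IsInt s → d * d = 0 →
  Deg dX dX 1 d → Deg dX dX (-1) h → Deg dX dY 0 φ → Deg dY dX 0 ψ → Deg dY dY 1 s →
  (d * φ - φ * s).rank ≤ r → (s * ψ - ψ * d).rank ≤ r →
  (φ * ψ - 1 - (h * d + d * h)).rank ≤ r →
  |∑ p ∈ range (n + 1), (-1) ^ p * (p : ℝ) *
      (diagonal (ind dX p) * fc (lg B) (d * dᴴ + dᴴ * d)).trace| ≤
    C * ((s * sᴴ).trace + (r + (fc (tent B) (d * dᴴ + dᴴ * d)).trace) * Real.log B) ∧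
  (fc z0 (d * dᴴ + dᴴ * d)).trace ≤ φ.rank + r

def S_DET : Prop := ∀ (G κ κ' : Type) [Group G] [Fintype κ] [DecidableEq κ] [Fintype κ']
  [DecidableEq κ'] (_ : Sof G) (y : Matrix κ κ' (ZG G)) (μ : Measure ℝ) (K : ℝ),
  Mom μ K (fun j => wtr (fun _ => 1) ((y * cst y) ^ j)) → IntegrableOn Real.log (Set.Ioi 0) μ

def S_FINAL : Prop := ∀ n : ℕ, ∃ C : ℝ, 0 < C ∧ ∀ (G ι κ : Type) [Group G] [Fintype ι]
  [DecidableEq ι] [Fintype κ] [DecidableEq κ] (S : Sof G) (deg : ι → ℕ) (dκ : κ → ℕ)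
  (c : Matrix ι ι (ZG G)) (δ : ℝ) (μ : ℕ → Measure ℝ) (K : ℕ → ℝ), (∀ a, deg a ≤ n) →
  (∀ a b, c a b ≠ 0 → deg a = deg b + 1) → c * c = 0 → Data S deg dκ c δ →
  (∀ p, Mom (μ p) (K p) fun j => wtr (ind deg p) ((c * cst c + cst c * c) ^ j)) →
  (∀ p, IntegrableOn Real.log (Set.Ioi 0) (μ p) ∧ (μ p).real {0} ≤ δ) ∧
    ((∀ p, (μ p).real {0} = 0) →
      |∑ p ∈ range (n + 1), (-1) ^ p * (p : ℝ) * ∫ t in Set.Ioi 0, Real.log t ∂μ p| ≤ C * δ)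

def S_PAT : Prop := ∀ (G ι : Type) [Group G] [Fintype ι] [DecidableEq ι] (deg : ι → ℕ)
  (c : Matrix ι ι (ZG G)) (w : ι → ℤ), IsResolution deg c w →
  ∃ Ψ H : ι → (G → G) → ι → ZG G,
    (∀ a ω ω', (∀ t ∈ win c (deg a), ω t = ω' t) → Ψ a ω = Ψ a ω' ∧ H a ω = H a ω') ∧
    (∀ a g ω, Ψ a (fun t => g * ω t) = (MonoidAlgebra.single g 1 : ZG G) • Ψ a ω) ∧
    (∀ a ω b, Ψ a ω b ≠ 0 → deg b = deg a) ∧ (∀ a ω b, H a ω b ≠ 0 → deg b = deg a + 1) ∧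
    (∀ a ω, Ψ a ω ᵥ* c = ∑ b, (c a b).coeff.sum fun g m => m • Ψ b fun t => ω (g * t)) ∧
    ∀ a ω, Ψ a ω - Pi.single a 1 = H a ω ᵥ* c + ∑ b, (c a b).coeff.sum fun g m =>
      (MonoidAlgebra.single g m : ZG G) • H b fun t => g⁻¹ * ω (g * t)

open Classical in
def S_LAB : Prop := ∀ (G V : Type) [Group G] [Fintype V] (act : G → Equiv.Perm V)
  (F E : Finset G) (ε : ℝ), F.Nonempty →
  (∀ a ∈ E, (((F.image fun t => a * t) \ F).card : ℝ) ≤ ε * F.card) →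
  ∃ lab : V → G, (∀ v, lab v ∈ F) ∧ ∀ a ∈ E,
    ((univ.filter fun v => Set.InjOn (fun t => act t v) (F ∪ F.image fun t => a * t : Finset G) ∧
      (∀ t ∈ F, act t (act a v) = act (a * t) v) ∧ a * lab (act a v) ≠ lab v).card : ℝ) ≤
      2 * ε * E.card * Fintype.card V

open Classical in
def S_REP : Prop := ∀ (ι V β : Type) [Fintype ι] [DecidableEq ι] [Fintype V] [DecidableEq V]
  (Gd : ι → V → Prop) (cls : ι → V → β) (m : ℕ),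
  (∀ a v, (univ.filter fun u => cls a u = cls a v).card ≤ m) →
  ∃ Θ χ : Matrix (ι × V) (ι × V) ℝ, IsInt Θ ∧ IsInt χ ∧ ‖Θ‖ ≤ m + 1 ∧ ‖χ‖ ≤ 1 ∧ Θ * χ = Θ ∧
    (∀ p q, Θ p q ≠ 0 → p.1 = q.1) ∧ (∀ p q, χ p q ≠ 0 → p = q) ∧ (∀ p, ∑ q, |Θ p q| ≤ 1) ∧
    (∀ a u v, Gd a u → Gd a v → cls a u = cls a v → Θ (a, u) = Θ (a, v)) ∧
    (∀ a v, Gd a v → ∃ u, Gd a u ∧ cls a u = cls a v ∧
      ∀ (γ : Type) (Y : Matrix (ι × V) γ ℝ), (Θ * Y) (a, v) = Y (a, u)) ∧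
    Θ.rank ≤ ∑ a, (univ.image (cls a)).card ∧
    ∀ (Y : Matrix (ι × V) (ι × V) ℝ) (M : ℝ), (∀ p, ∑ q, |Y p q| ≤ M) →
      (χ * Y * (χ * Y)ᴴ).trace ≤ (∑ a, (univ.image (cls a)).card : ℕ) * M ^ 2

def S_THETA : Prop := ∀ (G ι : Type) [Group G] [Fintype ι] [DecidableEq ι] (S : Sof G)
  (deg : ι → ℕ) (c : Matrix ι ι (ZG G)) (w : ι → ℤ) (A : Subgroup G), IsResolution deg c w →
  IsAmenable A → (∀ T : Finset G, {a : G | ∀ t ∈ T, t⁻¹ * a * t ∈ A}.Infinite) →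
  ∀ δ : ℝ, 0 < δ → Data S deg deg c δ

section DegLemmas

variable {I J L : Type} {dI : I → ℕ} {dJ : J → ℕ} {dL : L → ℕ} {j k : ℤ}

theorem Deg.mul [Fintype J] {X : Matrix I J ℝ} {Y : Matrix J L ℝ} (hX : Deg dI dJ j X)
    (hY : Deg dJ dL k Y) : Deg dI dL (j + k) (X * Y) := by
  intro a b h
  obtain ⟨x, -, hx⟩ := exists_ne_zero_of_sum_ne_zero (mul_apply (M := X) (N := Y) ▸ h)
  have h1 := hX a x (left_ne_zero_of_mul hx)
  have h2 := hY x b (right_ne_zero_of_mul hx)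
  omega

theorem Deg.add {X Y : Matrix I J ℝ} (hX : Deg dI dJ j X) (hY : Deg dI dJ j Y) :
    Deg dI dJ j (X + Y) := by
  intro a b h
  by_cases h1 : X a b = 0
  · exact hY a b fun h2 => h (by simp [h1, h2])
  · exact hX a b h1

theorem Deg.neg {X : Matrix I J ℝ} (hX : Deg dI dJ j X) : Deg dI dJ j (-X) :=
  fun a b h => hX a b fun h1 => h (by simp [h1])

theorem Deg.sub {X Y : Matrix I J ℝ} (hX : Deg dI dJ j X) (hY : Deg dI dJ j Y) :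
    Deg dI dJ j (X - Y) := by
  rw [sub_eq_add_neg]
  exact hX.add hY.neg

theorem Deg.conjT {X : Matrix I J ℝ} (hX : Deg dI dJ j X) : Deg dJ dI (-j) Xᴴ := by
  intro a b h
  have := hX b a (by simpa using h)
  omega

theorem Deg.of_eq {X : Matrix I J ℝ} (hX : Deg dI dJ j X) (h : j = k) : Deg dI dJ k X := h ▸ hX

theorem deg_diag [DecidableEq I] (w : I → ℝ) : Deg dI dI 0 (diagonal w) := by
  intro a b h
  by_cases e : a = b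
  · simp [e]
  · exact absurd (diagonal_apply_ne w e) h

/-- a matrix of degree zero commutes with functions of the degree -/
theorem Deg.comm [Fintype I] [DecidableEq I] [Fintype J] [DecidableEq J] {X : Matrix I J ℝ}
    (hX : Deg dI dJ j X) (f g : ℕ → ℝ) (h : ∀ a b : ℕ, (a : ℤ) = b + j → f a = g b) :
    diagonal (fun a => f (dI a)) * X = X * diagonal fun b => g (dJ b) := by
  ext a b
  rw [diagonal_mul, mul_diagonal]
  by_cases h0 : X a b = 0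
  · simp [h0]
  · rw [h _ _ (hX a b h0), mul_comm]

theorem Deg.fc [Fintype I] [DecidableEq I] {X : Matrix I I ℝ} (hX : Deg dI dI 0 X)
    (hH : X.IsHermitian) (f : ℝ → ℝ) : Deg dI dI 0 (fc f X) := by
  intro a b h
  have h1 := fc_inter hH hH (hX.comm (fun n => (n : ℝ)) (fun n => (n : ℝ))
    fun a b e => by exact_mod_cast (by omega : a = b)).symm f
  have h2 := congrFun (congrFun h1 a) b
  rw [diagonal_mul, mul_diagonal, mul_comm] at h2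
  have h3 := mul_right_cancel₀ h h2
  have h4 : dI b = dI a := by exact_mod_cast h3
  omega

end DegLemmas

end

end Pool.Agent.P.MP_f30597_gt
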