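import Pool.Agent.P.MP_f30597_gt.Defs

/-! The concrete model of the L2-chain complex. -/

namespace Pool.Agent.P.MP_f30597_gt

open MeasureTheory

noncomputable section

/-- Square summable functions. -/
abbrev L2 (α : Type) : Type := lp (fun _ : α => ℂ) 2

theorem res_aux {α β : Type} (j : β ↪ α) (ξ : L2 α) :
    Memℓp (fun b => ξ (j b)) 2 ∧ ∑' b, ‖ξ (j b)‖ ^ (2 : ℝ) ≤ ∑' a, ‖ξ a‖ ^ (2 : ℝ) := by
  have h : Summable fun a => ‖ξ a‖ ^ (2 : ℝ) := by
    simpa using (lp.memℓp ξ).summable (by norm_num)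
  refine ⟨memℓp_gen (by simpa [Function.comp_def] using h.comp_injective j.injective), ?_⟩
  exact tsum_comp_le_tsum_of_inj h (fun a => by positivity) j.injective

/-- Restriction `ξ ↦ ξ ∘ j` along an injection. -/
def res {α β : Type} (j : β ↪ α) : L2 α →L[ℂ] L2 β :=
  LinearMap.mkContinuous
    { toFun := fun ξ => ⟨fun b => ξ (j b), (res_aux j ξ).1⟩
      map_add' := fun _ _ => rfl
      map_smul' := fun _ _ => rfl } 1 fun ξ => by
    rw [one_mul, lp.norm_eq_tsum_rpow (by norm_num), lp.norm_eq_tsum_rpow (by norm_num)]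
    refine Real.rpow_le_rpow (tsum_nonneg fun _ => by positivity) ?_ (by norm_num)
    simpa using (res_aux j ξ).2

/-- The injection `g ↦ (g h, a)`. -/
def emb {G κ : Type} [Group G] (h : G) (a : κ) : G ↪ G × κ :=
  ⟨fun g => (g * h, a), fun _ _ e => mul_right_cancel (congrArg Prod.fst e)⟩

/-- The bounded operator given by right multiplication with a matrix over the group ring: it sends
the unit vector at `(g, a)` to the sum of `x a b h` times the unit vector at `(g h, b)`. -/
def op {G κ κ' : Type} [Group G] [Fintype κ] [Fintype κ'] (x : Matrix κ κ' (ZG G)) :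
    L2 (G × κ) →L[ℂ] L2 (G × κ') :=
  ∑ a, ∑ b, (x a b).coeff.sum fun h m =>
    (m : ℂ) • (ContinuousLinearMap.adjoint (res (emb h b)) ∘L res (emb 1 a))

open Classical in
/-- The von Neumann trace. -/
def vnTr {G κ : Type} [Group G] [Fintype κ] (T : L2 (G × κ) →L[ℂ] L2 (G × κ)) : ℝ :=
  ∑ a : κ, (T (lp.single 2 (1, a) 1) (1, a)).re

/-- The von Neumann dimension of the closure of a subspace: the trace of the orthogonal
projection. -/
def vnDim {G κ : Type} [Group G] [Fintype κ] (S : Submodule ℂ (L2 (G × κ))) : ℝ :=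
  vnTr S.topologicalClosure.starProjection

/-- `μ` is the spectral measure of the positive operator `T` with respect to the von Neumann
trace: the finite measure on `[0, ‖T‖]` whose moments are the traces of the powers of `T`. -/
def IsSpec {G κ : Type} [Group G] [Fintype κ] (T : L2 (G × κ) →L[ℂ] L2 (G × κ))
    (μ : Measure ℝ) : Prop :=
  IsFiniteMeasure μ ∧ μ (Set.Icc 0 ‖T‖)ᶜ = 0 ∧ ∀ m : ℕ, ∫ t, t ^ m ∂μ = vnTr (T ^ m)

section

variable {G ι : Type} [Group G] [Fintype ι] (deg : ι → ℕ) (c : Matrix ι ι (ZG G))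

/-- The component of the L2-boundary operator from degree `p` to degree `q`. -/
def blk (p q : ℕ) : L2 (G × {a // deg a = p}) →L[ℂ] L2 (G × {a // deg a = q}) :=
  op (c.submatrix Subtype.val Subtype.val)

/-- The L2-Betti number: dimension of the kernel of `c_p` minus the closed image of `c_(p+1)`. -/
def betti (p : ℕ) : ℝ :=
  vnDim ((blk deg c p (p - 1)).ker ⊓ ((blk deg c (p + 1) p).range)ᗮ)

/-- The combinatorial L2-Laplacian. -/
def lap (p : ℕ) : L2 (G × {a // deg a = p}) →L[ℂ] L2 (G × {a // deg a = p}) :=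
  ContinuousLinearMap.adjoint (blk deg c p (p - 1)) ∘L blk deg c p (p - 1) +
    blk deg c (p + 1) p ∘L ContinuousLinearMap.adjoint (blk deg c (p + 1) p)

/-- Determinant class: the logarithm is integrable on `(0, ∞)` for the spectral measure of
`c_p^* c_p`, for every differential `c_p`. -/
def DetClass : Prop :=
  ∀ p : ℕ, ∃ μ : Measure ℝ,
    IsSpec (ContinuousLinearMap.adjoint (blk deg c (p + 1) p) ∘L blk deg c (p + 1) p) μ ∧
      IntegrableOn Real.log (Set.Ioi 0) μ

/-- `ρ` is the L2-torsion of the complex, which has length at most `n`. -/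
def HasTorsion (n : ℕ) (ρ : ℝ) : Prop :=
  ∃ μ : ℕ → Measure ℝ,
    (∀ p, IsSpec (lap deg c p) (μ p) ∧ IntegrableOn Real.log (Set.Ioi 0) (μ p)) ∧
      ρ = -(1 / 2) * ∑ p ∈ Finset.range (n + 1),
        (-1) ^ p * (p : ℝ) * ∫ t in Set.Ioi 0, Real.log t ∂μ p

end

end

end Pool.Agent.P.MP_f30597_gt
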