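import Pool.Agent.P.MP_f30597_gt.Iface

/-! Almost equivariant labellings from a random order. -/

namespace Pool.Agent.P.MP_f30597_gt

open Matrix Finset Filter Topology MeasureTheory
open scoped Matrix.Norms.L2Operator

open Classical in
lemma lab_min {V : Type} [Fintype V] (e : V → ℕ) (he : Function.Injective e) (S : Finset V)
    {x : V} (hx : x ∈ S) :
    (univ.filter fun o : Equiv.Perm V => ∀ y ∈ S, e (o x) ≤ e (o y)).card * S.card ≤
      Fintype.card (Equiv.Perm V) := by
  have h1 : ∀ x' ∈ S, (univ.filter fun o : Equiv.Perm V => ∀ y ∈ S, e (o x) ≤ e (o y)).card ≤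
      (univ.filter fun o : Equiv.Perm V => ∀ y ∈ S, e (o x') ≤ e (o y)).card := by
    intro x' hx'
    refine card_le_card_of_injOn (fun o => o * Equiv.swap x x') (fun o ho => ?_)
      fun a _ b _ h => mul_right_cancel h
    simp only [coe_filter, mem_univ, true_and, Set.mem_ofPred_eq] at ho ⊢
    intro y hy
    rw [Equiv.Perm.mul_apply, Equiv.Perm.mul_apply, Equiv.swap_apply_right]
    refine ho _ ?_
    rw [Equiv.swap_apply_def]
    split_ifs <;> assumption
  rw [mul_comm, ← smul_eq_mul, ← sum_const]
  refine (sum_le_sum h1).trans ?_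
  rw [← card_biUnion]
  · exact card_le_univ _
  · intro a ha b hb hab
    refine disjoint_left.2 fun o h2 h3 => hab (o.injective (he (le_antisymm ?_ ?_)))
    exacts [(mem_filter.1 h2).2 b hb, (mem_filter.1 h3).2 a ha]

open Classical in
lemma lab_bad {G V : Type} [Group G] [Fintype V] (act : G → Equiv.Perm V) (F : Finset G) (ε : ℝ)
    (hF : F.Nonempty) (e : V → ℕ) (he : Function.Injective e) (lab : Equiv.Perm V → V → G)
    (h1 : ∀ o v, lab o v ∈ F)
    (h2 : ∀ (o : Equiv.Perm V) v, ∀ t ∈ F, e (o (act (lab o v) v)) ≤ e (o (act t v)))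
    (a : G) (ha : (((F.image fun t => a * t) \ F).card : ℝ) ≤ ε * F.card) (v : V)
    (h3 : Set.InjOn (fun t => act t v) (F ∪ F.image fun t => a * t : Finset G))
    (h4 : ∀ t ∈ F, act t (act a v) = act (a * t) v) :
    ((univ.filter fun o : Equiv.Perm V => a * lab o (act a v) ≠ lab o v).card : ℝ) ≤
      2 * ε * Fintype.card (Equiv.Perm V) := by
  set A := F.image fun t => a * t with hA
  set S := (F ∪ A).image fun t => act t v with hS
  have c1 : A.card = F.card := card_image_of_injective _ (mul_right_injective a)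
  have c2 : (F \ A).card = (A \ F).card := card_sdiff_comm c1.symm
  have c3 : F.card ≤ S.card := by
    rw [hS, card_image_of_injOn h3]
    exact card_le_card subset_union_left
  let P : G → Finset (Equiv.Perm V) := fun u => univ.filter fun o => ∀ y ∈ S, e (o (act u v)) ≤ e (o y)
  have c4 : ∀ u ∈ F \ A ∪ A \ F, (P u).card * F.card ≤ Fintype.card (Equiv.Perm V) := fun u hu =>
    (Nat.mul_le_mul_left _ c3).trans (lab_min e he S (mem_image_of_mem _
      (union_subset_union sdiff_subset sdiff_subset hu)))
  have c5 : (univ.filter fun o : Equiv.Perm V => a * lab o (act a v) ≠ lab o v) ⊆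
      (F \ A ∪ A \ F).biUnion P := by
    intro o ho
    obtain ⟨u, hu, h5⟩ := exists_min_image (F ∪ A) (fun t => e (o (act t v)))
      (hF.mono subset_union_left)
    refine mem_biUnion.2 ⟨u, ?_, mem_filter.2 ⟨mem_univ _, forall_mem_image.2 h5⟩⟩
    by_contra hc
    have h6 : u ∈ F ∧ u ∈ A := by
      simp only [mem_union, Finset.mem_sdiff] at hc hu
      tauto
    have key : ∀ w ∈ F ∪ A, e (o (act w v)) ≤ e (o (act u v)) → w = u := fun w hw h =>
      h3 hw hu (o.injective (he (le_antisymm h (h5 w hw))))
    refine (mem_filter.1 ho).2 ((key _ ?_ ?_).trans (key _ (mem_union_left _ (h1 o v))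
      (h2 o v u h6.1)).symm)
    · exact mem_union_right _ (mem_image_of_mem _ (h1 _ _))
    · obtain ⟨t, ht, rfl⟩ := mem_image.1 h6.2
      rw [← h4 _ (h1 _ _), ← h4 _ ht]
      exact h2 _ _ t ht
  have c6 : (univ.filter fun o : Equiv.Perm V => a * lab o (act a v) ≠ lab o v).card * F.card ≤
      2 * (A \ F).card * Fintype.card (Equiv.Perm V) := by
    refine (Nat.mul_le_mul_right _ ((card_le_card c5).trans card_biUnion_le)).trans ?_
    rw [sum_mul]
    refine (sum_le_card_nsmul _ _ _ c4).trans (Nat.mul_le_mul_right _ ?_)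
    exact (card_union_le _ _).trans (by omega)
  have c7 : (0 : ℝ) < F.card := by exact_mod_cast hF.card_pos
  refine le_of_mul_le_mul_right ((by exact_mod_cast c6 : _ ≤ 2 * ((A \ F).card : ℝ) *
    Fintype.card (Equiv.Perm V)).trans ?_) c7
  have : (0 : ℝ) ≤ Fintype.card (Equiv.Perm V) := Nat.cast_nonneg _
  nlinarith [mul_le_mul_of_nonneg_right ha this]

theorem t_LAB : S_LAB := by
  classical
  intro G V _ _ act F E ε hF hE
  let e : V → ℕ := fun v => Fintype.equivFin V v
  have he : Function.Injective e := Fin.val_injective.comp (Fintype.equivFin V).injective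
  choose lab h1 h2 using fun (o : Equiv.Perm V) v =>
    exists_min_image F (fun t => e (o (act t v))) hF
  let B : Equiv.Perm V → G → Finset V := fun o a => univ.filter fun v =>
    Set.InjOn (fun t => act t v) (F ∪ F.image fun t => a * t : Finset G) ∧
      (∀ t ∈ F, act t (act a v) = act (a * t) v) ∧ a * lab o (act a v) ≠ lab o v
  have h3 : ∀ a ∈ E, ∑ o, ((B o a).card : ℝ) ≤
      Fintype.card V * (2 * ε * Fintype.card (Equiv.Perm V)) := by
    intro a ha
    have hε : 0 ≤ ε := nonneg_of_mul_nonneg_left ((Nat.cast_nonneg _).trans (hE a ha))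
      (by exact_mod_cast hF.card_pos)
    simp only [B, card_filter, Nat.cast_sum]
    rw [sum_comm, ← nsmul_eq_mul, ← card_univ (α := V)]
    refine sum_le_card_nsmul _ _ _ fun v _ => ?_
    by_cases h : Set.InjOn (fun t => act t v) (F ∪ F.image fun t => a * t : Finset G) ∧
      (∀ t ∈ F, act t (act a v) = act (a * t) v)
    · refine le_trans (le_of_eq ?_) (lab_bad act F ε hF e he lab h1 h2 a (hE a ha) v h.1 h.2)
      rw [card_filter, Nat.cast_sum]
      exact sum_congr rfl fun o _ => by simp only [← and_assoc, eq_true h, true_and]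
    · rw [sum_eq_zero fun o _ => by simp only [← and_assoc, h, false_and, if_false, Nat.cast_zero]]
      positivity
  obtain ⟨o, -, ho⟩ := exists_le_of_sum_le (s := univ) (f := fun o => ∑ a ∈ E, ((B o a).card : ℝ))
    (g := fun _ => 2 * ε * E.card * Fintype.card V) univ_nonempty (by
      rw [sum_comm]
      refine (sum_le_card_nsmul _ _ _ h3).trans (le_of_eq ?_)
      simp only [nsmul_eq_mul, sum_const, card_univ]
      ring)
  exact ⟨lab o, h1 o, fun a ha =>
    (single_le_sum (f := fun a => ((B o a).card : ℝ)) (fun _ _ => Nat.cast_nonneg _) ha).trans ho⟩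

end Pool.Agent.P.MP_f30597_gt
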