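import Pool.Agent.P.MP_f30597_gt.L2
import Pool.Agent.P.MP_f30597_gt.FC

/-! Finite models of a sofic group and matrices on them. -/

namespace Pool.Agent.P.MP_f30597_gt

open Matrix Finset Filter Topology
open scoped Matrix.Norms.L2Operator

set_option linter.unusedSectionVars false

noncomputable section

variable {G : Type} [Group G]

/-- the involution of the group ring -/
def rinv (x : ZG G) : ZG G := MonoidAlgebra.ofCoeff (x.coeff.equivMapDomain (Equiv.inv G))

theorem rinv_coeff (x : ZG G) (g : G) : (rinv x).coeff g = x.coeff g⁻¹ := rfl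

/-- conjugate transpose over the group ring -/
def cst {κ κ' : Type} (x : Matrix κ κ' (ZG G)) : Matrix κ' κ (ZG G) :=
  Matrix.of fun b a => rinv (x a b)

/-- weighted trace over the group ring -/
def wtr {κ : Type} [Fintype κ] (w : κ → ℝ) (y : Matrix κ κ (ZG G)) : ℝ :=
  ∑ a, w a * (((y a a).coeff 1 : ℤ) : ℝ)

/-- supports in `T` and coefficients bounded by `M` -/
def Bdd {κ : Type} (T : Finset G) (M : ℕ) (x : κ → ZG G) : Prop :=
  ∀ b, (x b).coeff.support ⊆ T ∧ ∀ g, |(x b).coeff g| ≤ M

theorem exists_bdd {α κ : Type} [Finite κ] (x : α → κ → ZG G) (h : (Set.range x).Finite) :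
    ∃ (T : Finset G) (M : ℕ), ∀ p, Bdd T M (x p) := by
  classical
  have := Fintype.ofFinite κ
  refine ⟨h.toFinset.biUnion fun y => univ.biUnion fun b => (y b).coeff.support,
    ∑ y ∈ h.toFinset, ∑ b, ∑ g ∈ (y b).coeff.support, ((y b).coeff g).natAbs, fun p b => ⟨?_, ?_⟩⟩
  · intro g hg
    simp only [mem_biUnion]
    exact ⟨x p, by simp, b, mem_univ _, hg⟩
  · intro g
    rw [← Int.natCast_natAbs, Nat.cast_le]
    by_cases hg : g ∈ (x p b).coeff.support
    · refine le_trans ?_ (single_le_sum (f := fun y : κ → ZG G =>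
        ∑ b, ∑ g ∈ (y b).coeff.support, ((y b).coeff g).natAbs) (fun _ _ => Nat.zero_le _)
        (show x p ∈ h.toFinset by simp))
      refine le_trans ?_ (single_le_sum (f := fun b =>
        ∑ g ∈ (x p b).coeff.support, ((x p b).coeff g).natAbs) (fun _ _ => Nat.zero_le _)
        (mem_univ b))
      exact single_le_sum (f := fun g => ((x p b).coeff g).natAbs) (fun _ _ => Nat.zero_le _) hg
    · simp [Finsupp.notMem_support_iff.1 hg]

section Loc

variable {V κ κ' κ'' : Type} [Fintype V] [DecidableEq V] [Fintype κ] [DecidableEq κ] [Fintype κ']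
  [DecidableEq κ'] [Fintype κ''] [DecidableEq κ''] (act : G → Equiv.Perm V)

/-- the chain `x` placed at the point `v` of the model; `act g v` plays the role of `v g` -/
def pl {κ : Type} (v : V) (x : κ → ZG G) : κ × V → ℝ :=
  fun q => (x q.1).coeff.sum fun g m => if act g v = q.2 then (m : ℝ) else 0

/-- the matrix whose row at `p` is the chain `x p` placed at `p.2` -/
def loc {κ κ' : Type} (x : κ × V → κ' → ZG G) : Matrix (κ × V) (κ' × V) ℝ :=
  Matrix.of fun p => pl act p.2 (x p)

/-- the model of a matrix over the group ring -/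
def mdl {κ κ' : Type} (x : Matrix κ κ' (ZG G)) : Matrix (κ × V) (κ' × V) ℝ :=
  loc act fun p => x p.1

/-- twisted convolution -/
def tw {κ κ'' : Type} (x : κ × V → κ' → ZG G) (y : κ' × V → κ'' → ZG G) (p : κ × V) :
    κ'' → ZG G :=
  ∑ b, (x p b).coeff.sum fun g m => MonoidAlgebra.single g m • y (b, act g p.2)

theorem loc_row (x : κ × V → κ' → ZG G) (p : κ × V) : loc act x p = pl act p.2 (x p) := rfl

theorem mdl_row (x : Matrix κ κ' (ZG G)) (a : κ) (v : V) : mdl act x (a, v) = pl act v (x a) := rfl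

theorem pl_eq (v : V) {x : κ → ZG G} {T : Finset G} (h : ∀ b, (x b).coeff.support ⊆ T)
    (q : κ × V) :
    pl act v x q = ∑ g ∈ T, if act g v = q.2 then (((x q.1).coeff g : ℤ) : ℝ) else 0 :=
  Finsupp.sum_of_support_subset _ (h _) _ fun _ _ => by simp

theorem pl_zero (v : V) : pl act v (0 : κ → ZG G) = 0 := by
  ext q
  simp [pl]

theorem pl_add (v : V) (x y : κ → ZG G) : pl act v (x + y) = pl act v x + pl act v y := by
  classical
  ext q
  simp only [pl, Pi.add_apply, MonoidAlgebra.coeff_add]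
  refine Finsupp.sum_add_index' (fun _ => by simp) fun g a b => ?_
  split_ifs <;> simp

/-- placement as an additive map -/
def plHom (v : V) : (κ → ZG G) →+ (κ × V → ℝ) where
  toFun := pl act v
  map_zero' := pl_zero act v
  map_add' := pl_add act v

theorem pl_sub (v : V) (x y : κ → ZG G) : pl act v (x - y) = pl act v x - pl act v y :=
  map_sub (plHom act v) x y

theorem pl_sum {α : Type} (v : V) (s : Finset α) (x : α → κ → ZG G) :
    pl act v (∑ i ∈ s, x i) = ∑ i ∈ s, pl act v (x i) :=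
  map_sum (plHom act v) x s

theorem pl_zsmul (v : V) (m : ℤ) (x : κ → ZG G) : pl act v (m • x) = (m : ℝ) • pl act v x := by
  rw [Int.cast_smul_eq_zsmul]
  exact map_zsmul (plHom act v) m x

theorem pl_smul (v : V) (g : G) (m : ℤ) (x : κ → ZG G)
    (h : ∀ b, ∀ t ∈ (x b).coeff.support, act t (act g v) = act (g * t) v) :
    pl act v (MonoidAlgebra.single g m • x) = (m : ℝ) • pl act (act g v) x := by
  classical
  ext q
  have e : MonoidAlgebra.single g m * x q.1 =
      ∑ t ∈ (x q.1).coeff.support, MonoidAlgebra.single (g * t) (m * (x q.1).coeff t) := by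
    conv_lhs => rw [← MonoidAlgebra.sum_coeff_single (x q.1), Finsupp.sum, Finset.mul_sum]
    simp [MonoidAlgebra.single_mul_single]
  simp only [pl, Pi.smul_apply, smul_eq_mul]
  rw [e, MonoidAlgebra.coeff_sum, ← Finsupp.sum_finsetSum_index (fun _ => by simp)
    (fun g a b => by split_ifs <;> simp), Finsupp.sum, Finset.mul_sum]
  refine sum_congr rfl fun t ht => ?_
  rw [MonoidAlgebra.coeff_single, Finsupp.sum_single_index (by simp), h _ t ht]
  split_ifs <;> simp

theorem pl_single (v : V) (a : κ) :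
    pl act v (Pi.single a (1 : ZG G)) = Pi.single (a, act 1 v) 1 := by
  ext ⟨b, u⟩
  by_cases h : b = a
  · subst h
    simp [pl, MonoidAlgebra.one_def, Pi.single_apply, eq_comm]
  · simp [pl, h]

theorem pl_ne_zero {v : V} {x : κ → ZG G} {q : κ × V} (h : pl act v x q ≠ 0) : x q.1 ≠ 0 := by
  intro h0
  simp [pl, h0] at h

theorem isInt_loc (x : κ × V → κ' → ZG G) : IsInt (loc act x) := fun p q =>
  ⟨(x p q.1).coeff.sum fun g m => if act g p.2 = q.2 then m else 0, by
    simp only [loc, of_apply, pl, Finsupp.sum]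
    push_cast
    rfl⟩

theorem deg_loc {dκ : κ → ℕ} {dκ' : κ' → ℕ} {j : ℤ} {x : κ × V → κ' → ZG G}
    (h : ∀ p b, x p b ≠ 0 → (dκ p.1 : ℤ) = dκ' b + j) :
    Deg (fun p : κ × V => dκ p.1) (fun p : κ' × V => dκ' p.1) j (loc act x) :=
  fun p q hq => h p q.1 (pl_ne_zero act hq)

theorem sum_abs_pl (v : V) {x : κ → ZG G} {T : Finset G} {M : ℕ} (h : Bdd T M x) :
    ∑ q, |pl act v x q| ≤ Fintype.card κ * (T.card * M) := by
  have h1 : ∀ q : κ × V, |pl act v x q| ≤ ∑ g ∈ T, if act g v = q.2 then (M : ℝ) else 0 := by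
    intro q
    rw [pl_eq act v fun b => (h b).1]
    refine (abs_sum_le_sum_abs _ _).trans (sum_le_sum fun g _ => ?_)
    split_ifs
    · exact_mod_cast (h q.1).2 g
    · simp
  refine (sum_le_sum fun q _ => h1 q).trans (le_of_eq ?_)
  rw [Fintype.sum_prod_type]
  simp only [sum_comm (s := (univ : Finset V))]
  simp

theorem nrm_loc {x : κ × V → κ' → ZG G} {T : Finset G} {M : ℕ} (h : ∀ p, Bdd T M (x p)) :
    ‖loc act x‖ ≤ (Fintype.card κ + Fintype.card κ') * (T.card * M) := by
  have h0 : (0 : ℝ) ≤ T.card * M := by positivity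
  refine schur (by positivity) (fun p => (sum_abs_pl act p.2 (h p)).trans ?_) fun q => ?_
  · gcongr
    exact le_add_of_nonneg_left (Nat.cast_nonneg _)
  · have h1 : ∀ p : κ × V, |loc act x p q| ≤
        ∑ g ∈ T, if p.2 = (act g).symm q.2 then (M : ℝ) else 0 := by
      intro p
      rw [loc_row, pl_eq act _ fun b => (h p b).1]
      refine (abs_sum_le_sum_abs _ _).trans (sum_le_sum fun g _ => ?_)
      simp only [Equiv.eq_symm_apply]
      split_ifs
      · exact_mod_cast (h p q.1).2 g
      · simp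
    refine (sum_le_sum fun p _ => h1 p).trans ?_
    rw [Fintype.sum_prod_type]
    simp only [sum_comm (s := (univ : Finset V))]
    simp only [sum_ite_eq', mem_univ, if_true, sum_const, nsmul_eq_mul, card_univ]
    gcongr
    exact le_add_of_nonneg_right (Nat.cast_nonneg _)

/-- a placed chain times an arbitrary matrix -/
theorem pl_vecMul {β : Type} (v : V) (x : κ → ZG G) (Y : Matrix (κ × V) β ℝ) :
    pl act v x ᵥ* Y = ∑ b, (x b).coeff.sum fun g m => (m : ℝ) • Y (b, act g v) := by
  ext q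
  simp only [vecMul, dotProduct, pl, Finsupp.sum, Fintype.sum_prod_type, Finset.sum_apply,
    Pi.smul_apply, smul_eq_mul, Finset.sum_mul]
  refine sum_congr rfl fun b _ => ?_
  rw [sum_comm]
  refine sum_congr rfl fun g _ => ?_
  simp

theorem loc_mul_row {β : Type} (x : κ × V → κ' → ZG G) (Y : Matrix (κ' × V) β ℝ) (p : κ × V) :
    (loc act x * Y) p = ∑ b, (x p b).coeff.sum fun g m => (m : ℝ) • Y (b, act g p.2) :=
  pl_vecMul act p.2 (x p) Y

theorem loc_mul_loc (x : κ × V → κ' → ZG G) (y : κ' × V → κ'' → ZG G) (p : κ × V)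
    (h : ∀ b, ∀ g ∈ (x p b).coeff.support, ∀ b', ∀ t ∈ (y (b, act g p.2) b').coeff.support,
      act t (act g p.2) = act (g * t) p.2) :
    (loc act x * loc act y) p = pl act p.2 (tw act x y p) := by
  rw [loc_mul_row, tw, pl_sum]
  refine sum_congr rfl fun b _ => ?_
  rw [Finsupp.sum, Finsupp.sum, pl_sum]
  exact sum_congr rfl fun g hg => (pl_smul act p.2 g _ _ (h b g hg)).symm

theorem tw_const (x : κ × V → κ' → ZG G) (y : Matrix κ' κ'' (ZG G)) (p : κ × V) :
    tw act x (fun q => y q.1) p = x p ᵥ* y := by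
  ext b : 1
  simp only [tw, Finsupp.sum, Finset.sum_apply, Pi.smul_apply, smul_eq_mul, vecMul, dotProduct]
  refine sum_congr rfl fun a _ => ?_
  rw [← Finset.sum_mul]
  congr 1
  exact MonoidAlgebra.sum_coeff_single (x p a)

theorem mdl_add (x y : Matrix κ κ' (ZG G)) : mdl act (x + y) = mdl act x + mdl act y := by
  ext p q
  exact congrFun (pl_add act p.2 (x p.1) (y p.1)) q

theorem mdl_sub (x y : Matrix κ κ' (ZG G)) : mdl act (x - y) = mdl act x - mdl act y := by
  ext p q
  exact congrFun (pl_sub act p.2 (x p.1) (y p.1)) q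

theorem mdl_zero : mdl act (0 : Matrix κ κ' (ZG G)) = 0 := by
  ext p q
  exact congrFun (pl_zero act p.2) q

end Loc

open Classical in
/-- a net of finite models; `act i g v` plays the role of `v g` -/
structure Sof (G : Type) [Group G] where
  /-- index type -/
  Λ : Type
  /-- filter along which the models improve -/
  l : Filter Λ
  ne : l.NeBot
  /-- size of the model -/
  N : Λ → ℕ
  pos : ∀ i, 0 < N i
  /-- approximate right action -/
  act : ∀ i, G → Equiv.Perm (Fin (N i))
  mul' : ∀ g h, Tendsto (fun i =>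
    ((univ.filter fun v => ¬ act i h (act i g v) = act i (g * h) v).card : ℝ) / N i) l (𝓝 0)
  free' : ∀ g, g ≠ 1 → Tendsto (fun i =>
    ((univ.filter fun v => ¬ act i g v ≠ v).card : ℝ) / N i) l (𝓝 0)

namespace Sof

variable (S : Sof G)

open Classical in
/-- the property holds for almost all points of the models -/
def AE (P : ∀ i, Fin (S.N i) → Prop) : Prop :=
  Tendsto (fun i => ((univ.filter fun v => ¬ P i v).card : ℝ) / S.N i) S.l (𝓝 0)

/-- families of matrices on the models -/
abbrev Mat (κ κ' : Type) : Type := ∀ i, Matrix (κ × Fin (S.N i)) (κ' × Fin (S.N i)) ℝ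

/-- families of matrices of negligible rank -/
def Neg {κ κ' : Type} [Fintype κ'] (X : S.Mat κ κ') : Prop :=
  Tendsto (fun i => ((X i).rank : ℝ) / S.N i) S.l (𝓝 0)

theorem ae_mul (g h : G) : S.AE fun i v => S.act i h (S.act i g v) = S.act i (g * h) v := by
  have := S.mul' g h
  unfold AE
  convert this

theorem ae_free {g : G} (hg : g ≠ 1) : S.AE fun i v => S.act i g v ≠ v := by
  have := S.free' g hg
  unfold AE
  convert this

variable {S}

theorem AE.mono {P Q : ∀ i, Fin (S.N i) → Prop} (h : S.AE P) (hPQ : ∀ i v, P i v → Q i v) :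
    S.AE Q := by
  classical
  refine squeeze_zero (fun _ => by positivity) (fun i => ?_) h
  gcongr with v
  exact hPQ i v

theorem AE.and {P Q : ∀ i, Fin (S.N i) → Prop} (h : S.AE P) (h' : S.AE Q) :
    S.AE fun i v => P i v ∧ Q i v := by
  classical
  have := Tendsto.add h h'
  rw [add_zero] at this
  refine squeeze_zero (fun _ => by positivity) (fun i => ?_) this
  rw [← add_div]
  gcongr
  refine le_trans (Nat.cast_le.2 (card_le_card fun v hv => ?_))
    (by exact_mod_cast card_union_le _ _)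
  simp only [mem_filter, mem_union, mem_univ, true_and] at hv ⊢
  tauto

theorem ae_true {P : ∀ i, Fin (S.N i) → Prop} (h : ∀ i v, P i v) : S.AE P := by
  unfold AE
  simpa [h] using tendsto_const_nhds

theorem ae_finset {α : Type} (s : Finset α) {P : α → ∀ i, Fin (S.N i) → Prop}
    (h : ∀ a ∈ s, S.AE (P a)) : S.AE fun i v => ∀ a ∈ s, P a i v := by
  classical
  induction s using Finset.induction_on with
  | empty => exact ae_true (by simp)
  | insert a s ha ih =>
    refine ((h a (mem_insert_self _ _)).and (ih fun b hb => h b (mem_insert_of_mem hb))).mono ?_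
    intro i v hv b hb
    rcases mem_insert.1 hb with rfl | hb
    exacts [hv.1, hv.2 b hb]

theorem ae_all {α : Type} [Finite α] {P : α → ∀ i, Fin (S.N i) → Prop}
    (h : ∀ a, S.AE (P a)) : S.AE fun i v => ∀ a, P a i v := by
  have := Fintype.ofFinite α
  exact (ae_finset univ fun a _ => h a).mono fun _ _ hv a => hv a (mem_univ a)

theorem AE.perm {P : ∀ i, Fin (S.N i) → Prop} (h : S.AE P) (σ : ∀ i, Equiv.Perm (Fin (S.N i))) :
    S.AE fun i v => P i (σ i v) := by
  classical
  unfold AE at h ⊢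
  refine h.congr fun i => ?_
  congr 2
  refine (card_bij (fun v _ => σ i v) ?_ ?_ ?_).symm
  · simp
  · simp
  · intro v hv
    exact ⟨(σ i).symm v, by simpa using hv, by simp⟩

theorem AE.shift {P : ∀ i, Fin (S.N i) → Prop} (h : S.AE P) (g : G) :
    S.AE fun i v => P i (S.act i g v) := h.perm fun i => S.act i g

theorem ae_one : S.AE fun i v => S.act i 1 v = v :=
  (S.ae_mul 1 1).mono fun i v h => by simpa using h

theorem ae_mul_on (T T' : Finset G) :
    S.AE fun i v => ∀ g ∈ T, ∀ t ∈ T', S.act i t (S.act i g v) = S.act i (g * t) v :=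
  ae_finset T fun g _ => ae_finset T' fun t _ => S.ae_mul g t

theorem ae_inj (T : Finset G) : S.AE fun i v => Set.InjOn (fun t => S.act i t v) T := by
  have h : ∀ g t : G, S.AE fun i v => S.act i g v = S.act i t v → g = t := by
    intro g t
    by_cases e : g = t
    · exact ae_true fun _ _ _ => e
    · have h1 : g⁻¹ * t ≠ 1 := fun h => e (inv_mul_eq_one.1 h)
      refine (((S.ae_free h1).shift g).and (S.ae_mul g (g⁻¹ * t))).mono fun i v hv h2 => ?_
      rw [mul_inv_cancel_left] at hv
      exact absurd (hv.2.trans h2.symm) hv.1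
  exact (ae_finset T fun g _ => ae_finset T fun t _ => h g t).mono
    fun i v hv g hg t ht e => hv g hg t ht e

theorem AE.ev {P : ∀ i, Fin (S.N i) → Prop} (h : S.AE P) {ε : ℝ} (hε : 0 < ε)
    [∀ i, DecidablePred (P i)] :
    ∀ᶠ i in S.l, ((univ.filter fun v => ¬ P i v).card : ℝ) ≤ ε * S.N i := by
  filter_upwards [h.eventually (gt_mem_nhds hε)] with i hi
  have h0 : (0 : ℝ) < S.N i := by exact_mod_cast S.pos i
  rw [div_lt_iff₀ h0] at hi
  refine le_trans (le_of_eq ?_) hi.le
  congr

variable {κ κ' κ'' : Type} [Fintype κ] [DecidableEq κ] [Fintype κ'] [DecidableEq κ'] [Fintype κ'']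
  [DecidableEq κ'']

theorem Neg.of_le {X : S.Mat κ κ'} {ι ι' : Type} [Fintype ι'] {Y : S.Mat ι ι'} (h : S.Neg X)
    (hXY : ∀ i, (Y i).rank ≤ (X i).rank) : S.Neg Y :=
  squeeze_zero (fun _ => by positivity) (fun i => by gcongr; exact hXY i) h

theorem Neg.add {X Y : S.Mat κ κ'} (h : S.Neg X) (h' : S.Neg Y) : S.Neg fun i => X i + Y i := by
  have := Tendsto.add h h'
  rw [add_zero] at this
  refine squeeze_zero (fun _ => by positivity) (fun i => ?_) this
  rw [← add_div]
  gcongr
  exact_mod_cast rk_add _ _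

theorem Neg.neg {X : S.Mat κ κ'} (h : S.Neg X) : S.Neg fun i => -X i :=
  h.of_le fun _ => rk_neg _

theorem Neg.sub {X Y : S.Mat κ κ'} (h : S.Neg X) (h' : S.Neg Y) : S.Neg fun i => X i - Y i := by
  simpa only [sub_eq_add_neg] using h.add h'.neg

theorem Neg.mul_right {X : S.Mat κ κ'} (h : S.Neg X) (Y : S.Mat κ' κ'') :
    S.Neg fun i => X i * Y i := h.of_le fun _ => rank_mul_le_left _ _

theorem Neg.mul_left {X : S.Mat κ' κ''} (h : S.Neg X) (Y : S.Mat κ κ') :
    S.Neg fun i => Y i * X i := h.of_le fun _ => rank_mul_le_right _ _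

theorem Neg.conjT {X : S.Mat κ κ'} (h : S.Neg X) : S.Neg fun i => (X i)ᴴ :=
  h.of_le fun _ => (rank_conjTranspose _).le

theorem Neg.congr {X Y : S.Mat κ κ'} (h : S.Neg X) (e : ∀ i, X i = Y i) : S.Neg Y :=
  funext e ▸ h

theorem neg_zero' : S.Neg (fun _ => 0 : S.Mat κ κ') := by
  unfold Neg
  simpa using tendsto_const_nhds

theorem Neg.ev {X : S.Mat κ κ'} (h : S.Neg X) {ε : ℝ} (hε : 0 < ε) :
    ∀ᶠ i in S.l, ((X i).rank : ℝ) ≤ ε * S.N i := by
  filter_upwards [h.eventually (gt_mem_nhds hε)] with i hi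
  have h0 : (0 : ℝ) < S.N i := by exact_mod_cast S.pos i
  exact ((div_lt_iff₀ h0).1 hi).le

/-- matrices whose rows agree at almost all points differ by a negligible matrix -/
theorem neg_of_rows {X Y : S.Mat κ κ'} (h : S.AE fun i v => ∀ a, X i (a, v) = Y i (a, v)) :
    S.Neg fun i => X i - Y i := by
  classical
  have h1 := h.const_mul (Fintype.card κ : ℝ)
  rw [mul_zero] at h1
  refine squeeze_zero (fun _ => by positivity) (fun i => ?_) h1
  rw [← mul_div_assoc]
  gcongr
  have h2 := rank_le_card_of_support_subset (X i - Y i)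
    (univ ×ˢ univ.filter fun v => ¬ ∀ a, X i (a, v) = Y i (a, v)) fun p hp => by
      simp only [coe_product, coe_univ, coe_filter, Set.mem_prod, Set.mem_univ, true_and,
        mem_univ, Set.mem_ofPred_eq]
      exact fun h3 => hp (sub_eq_zero.2 (h3 p.1))
  rw [card_product, card_univ] at h2
  refine le_trans (Nat.cast_le.2 h2) (le_of_eq ?_)
  push_cast
  congr

/-- approximate equality is compatible with products -/
theorem Neg.mul_congr {X X' : S.Mat κ κ'} {Y Y' : S.Mat κ' κ''} (h : S.Neg fun i => X i - X' i)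
    (h' : S.Neg fun i => Y i - Y' i) : S.Neg fun i => X i * Y i - X' i * Y' i :=
  ((h.mul_right Y).add (h'.mul_left X')).congr fun i => by
    rw [Matrix.sub_mul, Matrix.mul_sub]
    abel

theorem Neg.symm {X Y : S.Mat κ κ'} (h : S.Neg fun i => X i - Y i) :
    S.Neg fun i => Y i - X i := h.neg.congr fun _ => neg_sub _ _

theorem Neg.trans {X Y Z : S.Mat κ κ'} (h : S.Neg fun i => X i - Y i)
    (h' : S.Neg fun i => Y i - Z i) : S.Neg fun i => X i - Z i :=
  (h.add h').congr fun _ => sub_add_sub_cancel _ _ _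

theorem neg_loc_mul {x : ∀ i, κ × Fin (S.N i) → κ' → ZG G} {y : ∀ i, κ' × Fin (S.N i) → κ'' → ZG G}
    {T T' : Finset G} (hx : ∀ i p b, (x i p b).coeff.support ⊆ T)
    (hy : ∀ i p b, (y i p b).coeff.support ⊆ T') :
    S.Neg fun i => loc (S.act i) (x i) * loc (S.act i) (y i) -
      loc (S.act i) (tw (S.act i) (x i) (y i)) :=
  neg_of_rows ((ae_mul_on T T').mono fun i v hv a => loc_mul_loc (S.act i) (x i) (y i) (a, v)
    fun b g hg b' t ht => hv g (hx i _ b hg) t (hy i _ b' ht))

theorem mdl_bdd (x : Matrix κ κ' (ZG G)) : ∃ (T : Finset G) (M : ℕ), ∀ a, Bdd T M (x a) :=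
  exists_bdd (fun a => x a) (Set.finite_range _)

theorem nrm_mdl (x : Matrix κ κ' (ZG G)) : ∃ M : ℝ, ∀ i, ‖mdl (S.act i) x‖ ≤ M := by
  obtain ⟨T, M, h⟩ := mdl_bdd x
  exact ⟨_, fun i => nrm_loc (S.act i) fun p => h p.1⟩

theorem neg_mdl_mul (x : Matrix κ κ' (ZG G)) (y : Matrix κ' κ'' (ZG G)) :
    S.Neg fun i => mdl (S.act i) x * mdl (S.act i) y - mdl (S.act i) (x * y) := by
  obtain ⟨T, M, h⟩ := mdl_bdd x
  obtain ⟨T', M', h'⟩ := mdl_bdd y
  refine (neg_loc_mul (x := fun _ p => x p.1) (y := fun _ p => y p.1)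
    (fun _ p b => (h p.1 b).1) fun _ p b => (h' p.1 b).1).congr fun i => ?_
  congr 2
  funext p
  exact tw_const (S.act i) (fun p => x p.1) y p

theorem neg_mdl_one : S.Neg fun i => mdl (S.act i) (1 : Matrix κ κ (ZG G)) - 1 := by
  refine neg_of_rows (ae_one.mono fun i v hv a => ?_)
  have e : (1 : Matrix κ κ (ZG G)) a = Pi.single a 1 := by
    ext b : 1
    simp [one_apply, Pi.single_apply, eq_comm]
  rw [mdl_row, e, pl_single, hv]
  ext q
  simp [one_apply, Pi.single_apply, eq_comm]

theorem neg_mdl_cst (x : Matrix κ κ' (ZG G)) :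
    S.Neg fun i => (mdl (S.act i) x)ᴴ - mdl (S.act i) (cst x) := by
  classical
  obtain ⟨T, M, h⟩ := mdl_bdd x
  refine neg_of_rows (((ae_finset T fun g _ => S.ae_mul g⁻¹ g).and ae_one).mono
    fun i v hv b => ?_)
  ext ⟨a, u⟩
  have h1 : ∀ a, (cst x b a).coeff.support ⊆ T.image fun g => g⁻¹ := fun a g hg =>
    mem_image.2 ⟨g⁻¹, (h a b).1 (Finsupp.mem_support_iff.2
      (show (x a b).coeff g⁻¹ ≠ 0 from (Finsupp.mem_support_iff.1 hg :))), inv_inv g⟩
  rw [conjTranspose_apply, star_trivial, mdl_row, mdl_row, pl_eq _ _ fun b => (h a b).1,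
    pl_eq _ _ h1, sum_image fun _ _ _ _ e => inv_injective e]
  refine sum_congr rfl fun g hg => ?_
  have h2 := hv.1 g hg
  rw [inv_mul_cancel, hv.2] at h2
  have h3 : S.act i g u = v ↔ S.act i g⁻¹ v = u :=
    ⟨fun e => (S.act i g).injective (h2.trans e.symm), fun e => e ▸ h2⟩
  simp only [h3, cst, of_apply, rinv_coeff, inv_inv]

end Sof

end

end Pool.Agent.P.MP_f30597_gt
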