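import Pool.Agent.P.MP_f30597_gt.Iface

/-! The operators attached to matrices over the group ring. -/

namespace Pool.Agent.P.MP_f30597_gt

open Matrix Finset Filter Topology MeasureTheory
open scoped Matrix.Norms.L2Operator

noncomputable section

variable {G : Type} [Group G]

/-- evaluation of an operator at a vector and a point -/
def op_at {α β : Type} (ξ : L2 α) (q : β) : (L2 α →L[ℂ] L2 β) →ₗ[ℂ] ℂ where
  toFun T := T ξ q
  map_add' _ _ := rfl
  map_smul' _ _ := rfl

/-- pairing of a function with an element of the group ring -/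
def op_ev (f : G → ℂ) : ZG G →+ ℂ where
  toFun z := z.coeff.sum fun h m => (m : ℂ) * f h
  map_zero' := by simp
  map_add' z w := by
    rw [MonoidAlgebra.coeff_add, Finsupp.sum_add_index'] <;> simp [add_mul]

theorem op_ev_apply (f : G → ℂ) (z : ZG G) :
    op_ev f z = z.coeff.sum fun h m => (m : ℂ) * f h := rfl

theorem op_ev_single (f : G → ℂ) (g : G) (m : ℤ) :
    op_ev f (MonoidAlgebra.single g m) = m * f g := by
  rw [op_ev_apply, MonoidAlgebra.coeff_single, Finsupp.sum_single_index]
  simp

theorem op_ev_sum {κ : Type} [Fintype κ] (f : κ → G → ℂ) (z : ZG G) :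
    op_ev (fun h => ∑ a, f a h) z = ∑ a, op_ev (f a) z := by
  simp only [op_ev_apply, Finsupp.sum, Finset.mul_sum]
  exact Finset.sum_comm

theorem op_ev_mul (f : G → ℂ) (z w : ZG G) :
    op_ev f (z * w) = op_ev (fun h => op_ev (fun h' => f (h' * h)) z) w := by
  induction w using MonoidAlgebra.induction_linear with
  | zero => simp
  | add a b ha hb => rw [mul_add, map_add, map_add, ha, hb]
  | single g m =>
    rw [op_ev_single]
    induction z using MonoidAlgebra.induction_linear with
    | zero => simp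
    | add a b ha hb => rw [add_mul, map_add, map_add, ha, hb, mul_add]
    | single g' m' =>
      rw [MonoidAlgebra.single_mul_single, op_ev_single, op_ev_single]
      push_cast
      ring

theorem op_ev_rinv (f : G → ℂ) (z : ZG G) : op_ev f (rinv z) = op_ev (fun h => f h⁻¹) z := by
  rw [op_ev_apply, op_ev_apply, rinv, MonoidAlgebra.coeff_ofCoeff, Finsupp.sum_equivMapDomain]
  rfl

open Classical in
theorem op_adj_res {κ : Type} (h : G) (b : κ) (η : L2 G) (g : G) (b' : κ) :
    ContinuousLinearMap.adjoint (res (emb h b)) η (g, b') =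
      if b' = b then η (g * h⁻¹) else 0 := by
  have h1 : ∀ {α : Type} [DecidableEq α] (ζ : L2 α) (q : α),
      inner ℂ (lp.single 2 q (1 : ℂ) : L2 α) ζ = ζ q := by
    intro α _ ζ q
    rw [lp.inner_single_left]
    simp
  rw [← h1, ContinuousLinearMap.adjoint_inner_right]
  split_ifs with hb
  · rw [← h1 η]
    congr 1
    ext g'
    change (Pi.single (g, b') (1 : ℂ) : G × κ → ℂ) (g' * h, b) =
      (Pi.single (g * h⁻¹) (1 : ℂ) : G → ℂ) g'
    simp only [Pi.single_apply, hb, Prod.mk.injEq, and_true, eq_mul_inv_iff_mul_eq]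
  · have : res (emb h b) (lp.single 2 (g, b') (1 : ℂ)) = 0 := by
      ext g'
      change (Pi.single (g, b') (1 : ℂ) : G × κ → ℂ) (g' * h, b) = 0
      simp [Ne.symm hb]
    rw [this, inner_zero_left]

theorem op_apply {κ κ' : Type} [Fintype κ] [Fintype κ'] (x : Matrix κ κ' (ZG G))
    (ξ : L2 (G × κ)) (g : G) (b : κ') :
    op x ξ (g, b) = ∑ a, op_ev (fun h => ξ (g * h⁻¹, a)) (x a b) := by
  classical
  change op_at ξ (g, b) (op x) = _
  rw [op, map_sum]
  refine Finset.sum_congr rfl fun a _ => ?_
  rw [map_sum, Finset.sum_eq_single b, map_finsuppSum, op_ev_apply]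
  · refine Finsupp.sum_congr fun h _ => ?_
    rw [map_smul, smul_eq_mul]
    congr 1
    change ContinuousLinearMap.adjoint (res (emb h b)) (res (emb 1 a) ξ) (g, b) = _
    rw [op_adj_res, if_pos rfl]
    change ξ (g * h⁻¹ * 1, a) = _
    rw [mul_one]
  · intro b' _ hb
    rw [map_finsuppSum]
    refine Finset.sum_eq_zero fun h _ => ?_
    beta_reduce
    rw [map_smul, smul_eq_mul]
    refine mul_eq_zero_of_right _ ?_
    change ContinuousLinearMap.adjoint (res (emb h b')) (res (emb 1 a) ξ) (g, b) = _
    rw [op_adj_res, if_neg (Ne.symm hb)]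
  · simp

theorem op_adj_apply {κ κ' : Type} [Fintype κ] [Fintype κ'] (x : Matrix κ κ' (ZG G))
    (η : L2 (G × κ')) (g : G) (a : κ) :
    ContinuousLinearMap.adjoint (op x) η (g, a) = ∑ b, op_ev (fun h => η (g * h, b)) (x a b) := by
  classical
  have key : ∀ (a' : κ) (b : κ') (h : G) (m : ℤ), op_at η (g, a) (ContinuousLinearMap.adjoint
      ((m : ℂ) • (ContinuousLinearMap.adjoint (res (emb h b)) ∘L res (emb 1 a')))) =
      if a = a' then m * η (g * h, b) else 0 := by
    intro a' b h m
    rw [LinearIsometryEquiv.map_smulₛₗ, ContinuousLinearMap.adjoint_comp,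
      ContinuousLinearMap.adjoint_adjoint, map_smul, smul_eq_mul, map_intCast]
    change (m : ℂ) * ContinuousLinearMap.adjoint (res (emb 1 a')) (res (emb h b) η) (g, a) = _
    rw [op_adj_res]
    split_ifs
    · change (m : ℂ) * η (g * 1⁻¹ * h, b) = _
      rw [inv_one, mul_one]
    · rw [mul_zero]
  change op_at η (g, a) (ContinuousLinearMap.adjoint (op x)) = _
  simp only [op, Finsupp.sum, map_sum, key]
  rw [Finset.sum_eq_single a]
  · simp only [if_true]
    rfl
  · intro a' _ ha
    simp [Ne.symm ha]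
  · simp

theorem t_OP : S_OP := by
  intro G _
  refine ⟨fun κ κ' κ'' _ _ _ x y => ?_, fun κ κ' _ _ x y => ?_, fun κ _ _ => ?_,
    fun κ κ' _ _ x => ?_, fun κ _ y => ?_⟩
  · ext ξ ⟨g, c⟩
    rw [ContinuousLinearMap.comp_apply, op_apply, op_apply]
    simp only [op_apply, op_ev_sum, Matrix.mul_apply, map_sum, op_ev_mul, _root_.mul_inv_rev,
      mul_assoc]
    exact Finset.sum_comm
  · ext ξ ⟨g, c⟩
    change _ = op x ξ (g, c) + op y ξ (g, c)
    simp only [op_apply, Matrix.add_apply, map_add, Finset.sum_add_distrib]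
  · ext ξ ⟨g, c⟩
    rw [op_apply, Finset.sum_eq_single c]
    · rw [Matrix.one_apply_eq, MonoidAlgebra.one_def, op_ev_single]
      simp
    · intro b _ hb
      rw [Matrix.one_apply_ne hb, map_zero]
    · simp
  · ext η ⟨g, a⟩
    rw [op_adj_apply, op_apply]
    simp only [cst, Matrix.of_apply, op_ev_rinv, inv_inv]
  · classical
    unfold vnTr wtr
    refine Finset.sum_congr rfl fun a _ => ?_
    rw [op_apply, Finset.sum_eq_single a, op_ev_apply, Finsupp.sum_eq_single 1]
    · simp
    · intro h _ hh
      simp [hh]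
    · simp
    · intro b _ hb
      rw [op_ev_apply]
      refine Finset.sum_eq_zero fun h _ => ?_
      simp [hb]
    · simp

end

end Pool.Agent.P.MP_f30597_gt
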