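import Pool.Agent.P.MP_f30597_gt.Iface

/-! Small approximate retracts from an amenable s-normal subgroup. -/

namespace Pool.Agent.P.MP_f30597_gt

open Matrix Finset Filter Topology
open scoped Matrix.Norms.L2Operator Pointwise

noncomputable section

variable {G : Type} [Group G]

theorem th_folner [DecidableEq G] {A : Subgroup G} (hA : IsAmenable A) (E : Finset G)
    (hE : ∀ a ∈ E, a ∈ A) {ε : ℝ} (hε : 0 < ε) : ∃ F : Finset G, F.Nonempty ∧
      ∀ a ∈ E, (((F.image fun t => a * t) \ F).card : ℝ) ≤ ε * F.card := by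
  classical
  obtain ⟨F, h1, h2⟩ := hA (E.subtype (· ∈ A)) ε hε
  refine ⟨F.image Subtype.val, h1.image _, fun a ha => ?_⟩
  have h3 := h2 ⟨a, hE a ha⟩ (by simpa using ha)
  rw [card_image_of_injective _ Subtype.val_injective]
  refine le_trans (le_of_eq ?_) h3
  rw [← Set.ncard_image_of_injective _ Subtype.val_injective, ← Set.ncard_coe_finset,
    Set.image_sdiff Subtype.val_injective, coe_sdiff, coe_image, coe_image, Set.image_image,
    Set.image_image]
  rfl

section Win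

variable {ι : Type} [Fintype ι] (c : Matrix ι ι (ZG G))

theorem th_one_mem (k : ℕ) : 1 ∈ win c k := by
  cases k <;> simp [win]

theorem th_supp {a b : ι} {g : G} (hg : g ∈ (c a b).coeff.support) : g ∈ supp c := by
  classical
  simp only [supp, mem_biUnion]
  exact ⟨a, mem_univ _, b, mem_univ _, hg⟩

theorem th_mul_mem {g t : G} {k : ℕ} (hg : g ∈ supp c) (ht : t ∈ win c k) :
    g * t ∈ win c (k + 1) := by
  classical
  simp only [win, mem_insert, mem_image₂]
  exact Or.inr ⟨g, hg, t, ht, rfl⟩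

theorem th_bdd (W : ι → Finset G) (Ψ : ι → (G → G) → ι → ZG G)
    (h : ∀ a ω ω', (∀ t ∈ W a, ω t = ω' t) → Ψ a ω = Ψ a ω') (R : Finset G) :
    ∃ (T : Finset G) (M : ℕ), ∀ a ω, (∀ t ∈ W a, ω t ∈ R) → Bdd T M (Ψ a ω) := by
  classical
  obtain ⟨T, M, hT⟩ := exists_bdd (fun p : Σ a, W a → R =>
    Ψ p.1 fun t => if h : t ∈ W p.1 then p.2 ⟨t, h⟩ else 1) (Set.finite_range _)
  refine ⟨T, M, fun a ω hω => ?_⟩
  have := hT ⟨a, fun t => ⟨ω t, hω t t.2⟩⟩
  rwa [h a _ ω fun t ht => by simp [ht]] at this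

end Win

section Model

variable {V : Type} (act : G → Equiv.Perm V) (lab : V → G)

/-- the pattern seen from `v` -/
def om (v : V) (t : G) : G := t * lab (act t v)

open Classical in
/-- the class of `v` -/
def cl (W : Finset G) (v : V) : (G → G) × V :=
  (fun t => if t ∈ W then (lab v)⁻¹ * om act lab v t else 1, act (lab v) v)

/-- multiplicativity at `v` -/
def Mu (T : Finset G) (v : V) : Prop := ∀ g ∈ T, ∀ t ∈ T, act t (act g v) = act (g * t) v

/-- good points -/
def gd (T C : Finset G) : ℕ → V → Prop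
  | 0, v => Mu act T v
  | k + 1, v => Mu act T v ∧ ∀ g ∈ C, gd T C k (act g v)

variable {act lab}

theorem gd.mu {T C : Finset G} {k : ℕ} {v : V} (h : gd act T C k v) : Mu act T v := by
  cases k
  exacts [h, h.1]

theorem Mu.one {T : Finset G} {v : V} (h : Mu act T v) (h1 : 1 ∈ T) : act 1 v = v := by
  simpa using h 1 h1 1 h1

theorem om_shift {v : V} {g t : G} (h : act t (act g v) = act (g * t) v) :
    om act lab v (g * t) = g * om act lab (act g v) t := by
  rw [om, om, h, mul_assoc]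

open Classical in
theorem cl_shift {T W W' : Finset G} {v : V} {g : G} (h : Mu act T v) (hl : ∀ u, lab u ∈ T)
    (hg : g ∈ W) (hW : W ⊆ T) (hW' : W' ⊆ T) (hm : ∀ t ∈ W', g * t ∈ W)
    (hR : (lab v)⁻¹ * om act lab v g ∈ T) :
    cl act lab W' (act g v) = (fun t => if t ∈ W' then ((cl act lab W v).1 g)⁻¹ *
      (cl act lab W v).1 (g * t) else 1, act ((cl act lab W v).1 g) (cl act lab W v).2) := by
  simp only [cl, if_pos hg]
  refine Prod.ext (funext fun t => ?_) ?_
  · by_cases ht : t ∈ W'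
    · simp only [if_pos ht, if_pos (hm t ht), om_shift (h g (hW hg) t (hW' ht))]
      simp [om, mul_assoc]
    · simp only [if_neg ht]
  · simp only
    rw [h _ (hl v) _ hR, h _ (hW hg) _ (hl _), mul_inv_cancel_left, om]

theorem cl_inv {W : Finset G} {v : V} {a : G} (h0 : act (lab (act a v)) (act a v) =
      act (a * lab (act a v)) v) (h1 : a * lab (act a v) = lab v)
    (h2 : ∀ t ∈ W, act t (act a v) = act (t⁻¹ * a * t) (act t v) ∧
      t⁻¹ * a * t * lab (act (t⁻¹ * a * t) (act t v)) = lab (act t v)) :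
    cl act lab W (act a v) = cl act lab W v := by
  simp only [cl]
  refine Prod.ext (funext fun t => ?_) (by simp only [h0, h1])
  by_cases ht : t ∈ W
  · simp only [if_pos ht, om, (h2 t ht).1]
    rw [← (h2 t ht).2, ← h1]
    simp [mul_assoc]
  · simp only [if_neg ht]

open Classical in
theorem cl_fib [Fintype V] {F : Finset G} (hl : ∀ u, lab u ∈ F) (W : Finset G) (v : V) :
    (univ.filter fun u => cl act lab W u = cl act lab W v).card ≤ F.card := by
  refine le_trans (card_le_card fun u hu => ?_)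
    (card_image_le (s := F) (f := fun g => (act g).symm (act (lab v) v)))
  refine mem_image.2 ⟨lab u, hl u, ?_⟩
  rw [Equiv.symm_apply_eq]
  exact (congrArg Prod.snd (mem_filter.1 hu).2).symm

end Model

theorem th_range {V β : Type} [Fintype V] [DecidableEq β] (f : V → β) :
    (univ.image f).card = (Set.range f).ncard := by
  rw [← Set.ncard_coe_finset, coe_image, coe_univ, Set.image_univ]

theorem th_image {V β : Type} [Fintype V] [DecidableEq V] [DecidableEq β] (f : V → β)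
    (P : V → Prop) [DecidablePred P] (m : ℕ)
    (h : ∀ v, P v → m ≤ (univ.filter fun u => f u = f v).card) :
    m * (univ.image f).card ≤ Fintype.card V + m * (univ.filter fun v => ¬ P v).card := by
  have h1 : univ.image f ⊆ (univ.filter P).image f ∪ (univ.filter fun v => ¬ P v).image f := by
    rw [← image_union, filter_union_filter_not_eq]
  have h2 : m * ((univ.filter P).image f).card ≤ Fintype.card V := by
    refine (mul_card_image_le_card_of_maps_to (s := univ.filter fun u =>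
      f u ∈ (univ.filter P).image f) (fun a ha => (mem_filter.1 ha).2) m fun b hb => ?_).trans
      (card_le_univ _)
    obtain ⟨v, hv, rfl⟩ := mem_image.1 hb
    refine (h v (mem_filter.1 hv).2).trans (card_le_card fun u hu => ?_)
    have := (mem_filter.1 hu).2
    exact mem_filter.2 ⟨mem_filter.2 ⟨mem_univ _, this ▸ hb⟩, this⟩
  have h3 := (card_le_card h1).trans (card_union_le _ _)
  have h4 := card_image_le (s := univ.filter fun v => ¬ P v) (f := f)
  nlinarith

theorem ae_gd (S : Sof G) (T C : Finset G) (k : ℕ) : S.AE fun i v => gd (S.act i) T C k v := by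
  induction k with
  | zero => exact Sof.ae_mul_on T T
  | succ k ih => exact (Sof.ae_mul_on T T).and (Sof.ae_finset C fun g _ => ih.shift g)

open Classical in
/-- labels with few classes -/
theorem th_lab (hLAB : S_LAB) (S : Sof G) {A : Subgroup G} (hA : IsAmenable A) (W : Finset G)
    (hW : {a : G | ∀ t ∈ W, t⁻¹ * a * t ∈ A}.Infinite) (h1 : 1 ∈ W) {δ : ℝ} (hδ : 0 < δ) :
    ∃ (F : Finset G) (lab : ∀ i, Fin (S.N i) → G), (∀ i v, lab i v ∈ F) ∧ ∀ᶠ i in S.l,
      ∀ W' ⊆ W, ((Set.range (cl (S.act i) (lab i) W')).ncard : ℝ) ≤ δ * S.N i := by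
  obtain ⟨m, hm⟩ := exists_nat_gt (3 / δ)
  obtain ⟨E, hE, rfl⟩ := hW.exists_subset_card_eq m
  obtain ⟨E', hE'⟩ : ∃ E', E' = image₂ (fun t a => t⁻¹ * a * t) W E := ⟨_, rfl⟩
  obtain ⟨ε, hε⟩ : ∃ ε : ℝ, ε = δ / 3 / (W.card * E'.card * (2 * E'.card) + 1) := ⟨_, rfl⟩
  have hε0 : 0 < ε := by rw [hε]; positivity
  obtain ⟨F, hF, hF'⟩ := th_folner hA E' (fun a ha => by
    obtain ⟨t, ht, b, hb, rfl⟩ := mem_image₂.1 (hE' ▸ ha)
    exact hE hb t ht) hε0
  choose lab hl hlab using fun i => hLAB G (Fin (S.N i)) (S.act i) F E' ε hF hF'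
  refine ⟨F, lab, hl, ?_⟩
  have hg := (((Sof.ae_inj (S := S) E).and (Sof.ae_mul_on (W ∪ E) (W ∪ E' ∪ F))).and
    Sof.ae_one).and (Sof.ae_finset W fun t _ => (Sof.ae_finset E' fun a _ =>
      (Sof.ae_inj (F ∪ F.image fun t => a * t)).and
        (Sof.ae_finset F fun t _ => S.ae_mul a t)).shift t)
  filter_upwards [hg.ev (show 0 < δ / 3 by positivity)] with i hi W' hW'
  obtain ⟨Bad, hBad⟩ : ∃ Bad : G → Finset (Fin (S.N i)), Bad = fun a => univ.filter fun v =>
    Set.InjOn (fun t => S.act i t v) (F ∪ F.image fun t => a * t : Finset G) ∧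
      (∀ t ∈ F, S.act i t (S.act i a v) = S.act i (a * t) v) ∧
        a * lab i (S.act i a v) ≠ lab i v := ⟨_, rfl⟩
  have hB : ∀ a ∈ E', ((Bad a).card : ℝ) ≤ 2 * ε * E'.card * S.N i := fun a ha => by
    have := hlab i a ha
    rw [Fintype.card_fin] at this
    rw [hBad]
    convert this
  obtain ⟨P, hP, hi⟩ : ∃ P : Finset (Fin (S.N i)), _ = P ∧ (P.card : ℝ) ≤ δ / 3 * S.N i :=
    ⟨_, rfl, hi⟩
  obtain ⟨Q, hQ⟩ : ∃ Q : Finset (Fin (S.N i)), Q = W.biUnion fun t => E'.biUnion fun a =>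
    (Bad a).image (S.act i t).symm := ⟨_, rfl⟩
  have hQ1 : (Q.card : ℝ) ≤ δ / 3 * S.N i := by
    have e1 : (Q.card : ℝ) ≤ W.card * (E'.card * (2 * ε * E'.card * S.N i)) := by
      rw [hQ, ← nsmul_eq_mul, ← sum_const]
      refine (Nat.cast_le.2 card_biUnion_le).trans ?_
      push_cast
      refine sum_le_sum fun t _ => ?_
      rw [← nsmul_eq_mul, ← sum_const]
      refine (Nat.cast_le.2 card_biUnion_le).trans ?_
      push_cast
      exact sum_le_sum fun a ha => (Nat.cast_le.2 card_image_le).trans (hB a ha)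
    have e2 : ε * (W.card * E'.card * (2 * E'.card) + 1) = δ / 3 := by
      rw [hε]
      field_simp
    have e3 : (0 : ℝ) ≤ ε * S.N i := by positivity
    rw [← e2]
    nlinarith
  have key := th_image (cl (S.act i) (lab i) W') (fun v => v ∉ P ∪ Q) E.card fun v hv => by
    rw [mem_union, not_or, ← hP, mem_filter, not_and, not_not] at hv
    obtain ⟨⟨⟨⟨g1, g2⟩, g3⟩, g4⟩, g5⟩ := And.intro (hv.1 (mem_univ _)) hv.2
    have g6 : ∀ t ∈ W, ∀ a ∈ E, t⁻¹ * a * t * lab i (S.act i (t⁻¹ * a * t) (S.act i t v)) =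
        lab i (S.act i t v) := fun t ht a ha => by
      by_contra g7
      have g8 : t⁻¹ * a * t ∈ E' := hE' ▸ mem_image₂_of_mem ht ha
      refine g5 ?_
      rw [hQ]
      refine mem_biUnion.2 ⟨t, ht, mem_biUnion.2 ⟨_, g8, mem_image.2 ⟨S.act i t v, ?_, by simp⟩⟩⟩
      rw [hBad]
      exact mem_filter.2 ⟨mem_univ _, (g4 t ht _ g8).1, (g4 t ht _ g8).2, g7⟩
    rw [← card_image_of_injOn g1]
    refine card_le_card fun u hu => ?_
    obtain ⟨a, ha, rfl⟩ := mem_image.1 hu
    refine mem_filter.2 ⟨mem_univ _, cl_inv (g2 a (by simp [ha]) _ (by simp [hl])) ?_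
      fun t ht => ⟨?_, g6 t (hW' ht) a ha⟩⟩
    · simpa [g3] using g6 1 h1 a ha
    · have g8 : t⁻¹ * a * t ∈ E' := hE' ▸ mem_image₂_of_mem (hW' ht) ha
      rw [g2 a (by simp [ha]) t (by simp [hW' ht]), g2 t (by simp [hW' ht]) _ (by simp [g8])]
      simp [mul_assoc]
  have k1 : ((univ.filter fun v => ¬ v ∉ P ∪ Q).card : ℝ) ≤ P.card + Q.card := by
    exact_mod_cast (card_le_card fun v hv => not_not.1 (mem_filter.1 hv).2).trans
      (card_union_le P Q)
  have k2 : (0 : ℝ) < E.card := lt_trans (by positivity) hm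
  rw [div_lt_iff₀ hδ] at hm
  rw [Fintype.card_fin, th_range] at key
  have k3 : (E.card : ℝ) * (Set.range (cl (S.act i) (lab i) W')).ncard ≤
      S.N i + E.card * (P.card + Q.card) :=
    le_trans (by exact_mod_cast key) (add_le_add_right (mul_le_mul_of_nonneg_left k1 k2.le) _)
  have k4 : (0 : ℝ) ≤ S.N i := Nat.cast_nonneg _
  refine le_of_mul_le_mul_left (k3.trans ?_) k2
  nlinarith

theorem th_rowsum {I J L : Type} [Fintype J] [Fintype L] {X : Matrix I J ℝ} {Y : Matrix J L ℝ}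
    (hY : ∀ p, ∑ q, |Y p q| ≤ 1) (p : I) : ∑ q, |(X * Y) p q| ≤ ∑ q, |X p q| := by
  refine (sum_le_sum fun q _ => abs_sum_le_sum_abs _ _).trans ?_
  rw [sum_comm]
  refine sum_le_sum fun x _ => ?_
  simp only [abs_mul, ← mul_sum]
  exact mul_le_of_le_one_right (abs_nonneg _) (hY x)

theorem t_THETA (hPAT : S_PAT) (hLAB : S_LAB) (hREP : S_REP) : S_THETA := by
  intro G ι _ _ _ S deg c w A hc hA hN δ hδ
  classical
  obtain ⟨Ψ, H, P1, P2, P3, P4, P5, P6⟩ := hPAT G ι deg c w hc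
  obtain ⟨Tc, Mc, hMc⟩ := Sof.mdl_bdd c
  obtain ⟨Nc, hNc⟩ := Sof.nrm_mdl (S := S) c
  obtain ⟨W, hW⟩ : ∃ W : Finset G, W = insert 1 (univ.biUnion fun a => win c (deg a)) := ⟨_, rfl⟩
  have W1 : 1 ∈ W := hW ▸ mem_insert_self _ _
  have W2 : ∀ a, win c (deg a) ⊆ W := fun a t ht =>
    hW ▸ mem_insert_of_mem (mem_biUnion.2 ⟨a, mem_univ _, ht⟩)
  obtain ⟨K, hK⟩ : ∃ K : ℝ, K = Fintype.card ι * (Tc.card * Mc) := ⟨_, rfl⟩
  obtain ⟨F, lab, hl, hlab⟩ := th_lab hLAB S hA W (hN W) W1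
    (δ := δ / ((Fintype.card ι + 1) * (K ^ 2 + 1))) (by positivity)
  obtain ⟨R, hR⟩ : ∃ R : Finset G, R = insert 1 F⁻¹ * (W * F) := ⟨_, rfl⟩
  have R1 : ∀ i v a, ∀ t ∈ win c (deg a), om (S.act i) (lab i) v t ∈ R := fun i v a t ht => by
    rw [hR, ← one_mul (om _ _ v t)]
    exact mul_mem_mul (mem_insert_self _ _) (mul_mem_mul (W2 a ht) (hl i _))
  have R2 : ∀ i v a, ∀ t ∈ win c (deg a), (lab i v)⁻¹ * om (S.act i) (lab i) v t ∈ R :=
    fun i v a t ht => hR ▸ mul_mem_mul (mem_insert_of_mem (inv_mem_inv (hl i v)))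
      (mul_mem_mul (W2 a ht) (hl i _))
  obtain ⟨T1, M1, B1⟩ := th_bdd (fun a => win c (deg a)) Ψ (fun a ω ω' h => (P1 a ω ω' h).1) R
  obtain ⟨T2, M2, B2⟩ := th_bdd (fun a => win c (deg a)) H (fun a ω ω' h => (P1 a ω ω' h).2) R
  obtain ⟨T, t1, t2, t3, t4, t5, t6⟩ : ∃ T : Finset G, supp c ⊆ T ∧ W ⊆ T ∧ F ⊆ T ∧ R ⊆ T ∧
      T1 ⊆ T ∧ T2 ⊆ T := ⟨supp c ∪ W ∪ F ∪ R ∪ T1 ∪ T2, by
    refine ⟨?_, ?_, ?_, ?_, ?_, ?_⟩ <;> intro x hx <;> simp [hx]⟩
  choose Θ χ i1 i2 n1 n2 e1 d1 d2 s1 c1 c2 k1 k2 using fun i => hREP ι (Fin (S.N i)) _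
    (fun a v => gd (S.act i) T (supp c) (deg a) v)
    (fun a v => cl (S.act i) (lab i) (win c (deg a)) v) F.card
    fun a v => by convert cl_fib (act := S.act i) (hl i) (win c (deg a)) v
  obtain ⟨ψ, hψ⟩ : ∃ ψ : S.Mat ι ι, ψ = fun i =>
    loc (S.act i) fun p => Ψ p.1 (om (S.act i) (lab i) p.2) := ⟨_, rfl⟩
  obtain ⟨h, hh⟩ : ∃ ψ : S.Mat ι ι, ψ = fun i =>
    loc (S.act i) fun p => H p.1 (om (S.act i) (lab i) p.2) := ⟨_, rfl⟩
  have hg : S.AE fun i v => ∀ a, gd (S.act i) T (supp c) (deg a) v :=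
    Sof.ae_all fun a => ae_gd S T (supp c) (deg a)
  have sh : ∀ i v, Mu (S.act i) T v → ∀ a b, ∀ g ∈ (c a b).coeff.support, ∀ t ∈ win c (deg b),
      om (S.act i) (lab i) v (g * t) = g * om (S.act i) (lab i) (S.act i g v) t :=
    fun i v hv a b g hg t ht => om_shift (hv g (t1 (th_supp c hg)) t (t2 (W2 b ht)))
  have rc : ∀ i v, Mu (S.act i) T v → ∀ (X : ι × Fin (S.N i) → ι → ZG G) (a : ι),
      (∀ b, (X (a, v) b).coeff.support ⊆ T) →
      (loc (S.act i) X * mdl (S.act i) c) (a, v) = pl (S.act i) v (X (a, v) ᵥ* c) :=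
    fun i v hv X a hX => by
      rw [mdl, loc_mul_loc _ _ _ _ fun b g hg b' t ht => hv g (hX b hg) t (t1 (th_supp c ht)),
        tw_const]
  have cr : ∀ i v, Mu (S.act i) T v → ∀ (X : ι × Fin (S.N i) → ι → ZG G) (a : ι),
      (∀ p b, (X p b).coeff.support ⊆ T) →
      (mdl (S.act i) c * loc (S.act i) X) (a, v) = pl (S.act i) v (∑ b, (c a b).coeff.sum
        fun g m => (MonoidAlgebra.single g m : ZG G) • X (b, S.act i g v)) :=
    fun i v hv X a hX => by
      rw [mdl, loc_mul_loc _ _ _ _ fun b g hg b' t ht => hv g (t1 (th_supp c hg)) t (hX _ b' ht)]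
      rfl
  have N1 : S.Neg fun i => ψ i * mdl (S.act i) c - mdl (S.act i) c * ψ i := by
    refine Sof.neg_of_rows (hg.mono fun i v hv a => ?_)
    have hv' := (hv a).mu
    simp only [hψ]
    rw [rc i v hv' _ a fun b => (B1 a _ (R1 i v a) b).1.trans t5,
      cr i v hv' _ a fun p b => (B1 _ _ (R1 i _ _) b).1.trans t5, P5]
    congr 1
    refine sum_congr rfl fun b _ => Finsupp.sum_congr fun g hg => ?_
    rw [(P1 b _ _ (sh i v hv' a b g hg)).1, P2, ← smul_assoc]
    simp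
  have N2 : S.Neg fun i => ψ i - 1 - (h i * mdl (S.act i) c + mdl (S.act i) c * h i) := by
    refine Sof.neg_of_rows (hg.mono fun i v hv a => ?_)
    have hv' := (hv a).mu
    have e : (1 : Matrix (ι × Fin (S.N i)) (ι × Fin (S.N i)) ℝ) (a, v) =
        pl (S.act i) v (Pi.single a 1) := by
      rw [pl_single, hv'.one (t2 W1)]
      ext q
      simp [one_apply, Pi.single_apply, eq_comm]
    change ψ i (a, v) - (1 : Matrix (ι × Fin (S.N i)) (ι × Fin (S.N i)) ℝ) (a, v) =
      (h i * mdl (S.act i) c) (a, v) + (mdl (S.act i) c * h i) (a, v)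
    simp only [hψ, hh]
    rw [e, rc i v hv' _ a fun b => (B2 a _ (R1 i v a) b).1.trans t6,
      cr i v hv' _ a fun p b => (B2 _ _ (R1 i _ _) b).1.trans t6, loc_row, ← pl_sub, ← pl_add, P6]
    congr 2
    refine sum_congr rfl fun b _ => Finsupp.sum_congr fun g hg => ?_
    rw [(P1 b _ (om (S.act i) (lab i) (S.act i g v)) fun t ht => by
      rw [sh i v hv' a b g hg t ht, inv_mul_cancel_left]).2]
  have N3 : S.Neg fun i => Θ i * ψ i - ψ i := by
    have e : ∀ i a v, Mu (S.act i) T v → ψ i (a, v) =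
        pl (S.act i) (cl (S.act i) (lab i) (win c (deg a)) v).2
          (Ψ a (cl (S.act i) (lab i) (win c (deg a)) v).1) := fun i a v hv => by
      have e1 : Ψ a (cl (S.act i) (lab i) (win c (deg a)) v).1 =
          Ψ a fun t => (lab i v)⁻¹ * om (S.act i) (lab i) v t :=
        (P1 a _ _ fun t ht => by simp [cl, ht]).1
      have e2 := pl_smul (S.act i) v (lab i v) 1 _ fun b t ht =>
        hv _ (t3 (hl i v)) t (t5 ((B1 a _ (R2 i v a) b).1 ht))
      rw [← P2] at e2
      simp only [mul_inv_cancel_left, Int.cast_one, one_smul] at e2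
      rw [e1, hψ]
      exact e2
    refine Sof.neg_of_rows (hg.mono fun i v hv a => ?_)
    obtain ⟨u, u1, u2, u3⟩ := c2 i a v (hv a)
    rw [u3, e i a u u1.mu, e i a v (hv a).mu, u2]
  have N4 : S.Neg fun i => mdl (S.act i) c * Θ i - Θ i * (mdl (S.act i) c * Θ i) := by
    refine Sof.neg_of_rows (hg.mono fun i v hv a => ?_)
    obtain ⟨u, u1, u2, u3⟩ := c2 i a v (hv a)
    rw [u3, mdl, loc_mul_row, loc_mul_row]
    refine sum_congr rfl fun b _ => Finsupp.sum_congr fun g hg => ?_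
    have e0 : deg a = deg b + 1 := hc.graded a b fun h0 => by simp [h0] at hg
    have g1 := th_supp c hg
    have g2 : g ∈ win c (deg a) := by
      simpa [e0] using th_mul_mem c g1 (th_one_mem c (deg b))
    have g3 : ∀ x, gd (S.act i) T (supp c) (deg a) x →
        gd (S.act i) T (supp c) (deg b) (S.act i g x) := fun x hx => by
      rw [e0] at hx
      exact hx.2 g g1
    have g4 := fun x (hx : gd (S.act i) T (supp c) (deg a) x) =>
      cl_shift (W' := win c (deg b)) hx.mu (fun y => t3 (hl i y)) g2 ((W2 a).trans t2)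
        ((W2 b).trans t2) (fun t ht => e0 ▸ th_mul_mem c g1 ht) (t4 (R2 i x a g g2))
    congr 1
    exact c1 i b _ _ (g3 v (hv a)) (g3 u u1) (by rw [g4 v (hv a), g4 u u1, u2])
  have dΘ : ∀ i, Deg (fun p => deg p.1) (fun p => deg p.1) 0 (Θ i) := fun i p q hq => by
    simp [d1 i p q hq]
  have dχ : ∀ i, Deg (fun p => deg p.1) (fun p => deg p.1) 0 (χ i) := fun i p q hq => by
    simp [d2 i p q hq]
  have nψ : ∀ i, ‖ψ i‖ ≤ (Fintype.card ι + Fintype.card ι) * (T1.card * M1) := fun i => by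
    rw [hψ]
    exact nrm_loc _ fun p => B1 _ _ (R1 i _ _)
  have nh : ∀ i, ‖h i‖ ≤ (Fintype.card ι + Fintype.card ι) * (T2.card * M2) := fun i => by
    rw [hh]
    exact nrm_loc _ fun p => B2 _ _ (R1 i _ _)
  refine ⟨F.card + 1 + (Fintype.card ι + Fintype.card ι) * (T1.card * M1) +
    (Fintype.card ι + Fintype.card ι) * (T2.card * M2) + |Nc| * (F.card + 1), Θ,
    fun i => χ i * ψ i, h, fun i => χ i * (mdl (S.act i) c * Θ i), fun i => ?_, fun i => ?_,
    fun i => ?_, ?_, ?_, ?_, ?_⟩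
  · have a1 := nrm_mul (n2 i) (nψ i)
    have a2 := nrm_mul (n2 i) (nrm_mul ((hNc i).trans (le_abs_self _)) (n1 i))
    have a3 := (norm_nonneg _).trans a1
    have a4 := (norm_nonneg _).trans a2
    have a5 := (norm_nonneg _).trans (nh i)
    have a6 := (norm_nonneg _).trans (n1 i)
    exact ⟨by linarith [n1 i], by linarith, by linarith [nh i], by linarith⟩
  · exact ⟨i1 i, (i2 i).mul (hψ ▸ isInt_loc _ _), hh ▸ isInt_loc _ _,
      (i2 i).mul ((isInt_loc _ _).mul (i1 i))⟩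
  · refine ⟨dΘ i, ((dχ i).mul (k := 0) (hψ ▸ deg_loc _ fun p b hb => ?_)).of_eq (by norm_num),
      hh ▸ deg_loc _ fun p b hb => ?_, ((dχ i).mul ((deg_loc (j := 1) _ fun p b hb => ?_).mul
        (dΘ i))).of_eq (by norm_num)⟩
    · simp [P3 _ _ _ hb]
    · simp [P4 _ _ _ hb]
    · simp [hc.graded _ _ hb]
  · exact N4.congr fun i => by rw [← Matrix.mul_assoc (Θ i) (χ i), e1]
  · refine (((N3.mul_left fun i => mdl (S.act i) c).sub N1).mul_left χ).congr fun i => ?_
    simp only [Matrix.mul_sub, Matrix.mul_assoc, ← Matrix.mul_assoc (Θ i) (χ i), e1]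
    abel
  · refine (N3.add N2).congr fun i => ?_
    simp only [← Matrix.mul_assoc (Θ i) (χ i), e1]
    abel
  · filter_upwards [hlab] with i hi
    have a1 := k2 i (mdl (S.act i) c * Θ i) K fun p => (th_rowsum (s1 i) p).trans
      (hK ▸ sum_abs_pl (S.act i) p.2 (hMc p.1))
    have a2 := (Nat.cast_le (α := ℝ)).2 (k1 i)
    simp only [th_range] at a1 a2
    generalize hZ : ((∑ a, (Set.range fun v => cl (S.act i) (lab i) (win c (deg a)) v).ncard : ℕ)
      : ℝ) = Z at a1 a2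
    have a3 : Z ≤ Fintype.card ι * (δ / ((Fintype.card ι + 1) * (K ^ 2 + 1)) * S.N i) := by
      rw [← hZ, Nat.cast_sum, ← nsmul_eq_mul, ← card_univ, ← sum_const]
      exact sum_le_sum fun a _ => hi _ (W2 a)
    have a4 : Z * (K ^ 2 + 1) ≤ δ * S.N i := by
      have a5 : (Fintype.card ι + 1) * (δ / ((Fintype.card ι + 1) * (K ^ 2 + 1)) * S.N i) *
          (K ^ 2 + 1) = δ * S.N i := by field_simp
      rw [← a5]
      refine mul_le_mul_of_nonneg_right (a3.trans (mul_le_mul_of_nonneg_right (by linarith)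
        (by positivity))) (by positivity)
    have a6 : 0 ≤ Z := hZ ▸ Nat.cast_nonneg _
    exact ⟨by nlinarith, by nlinarith [sq_nonneg K]⟩

end

end Pool.Agent.P.MP_f30597_gt
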