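import Pool.Agent.P.MP_f30597_gt.Iface

/-! Equivariant local chain maps and homotopies attached to patterns. -/

namespace Pool.Agent.P.MP_f30597_gt

open Matrix Finset Filter Topology MeasureTheory
open scoped Matrix.Norms.L2Operator

set_option linter.unusedSectionVars false

noncomputable section

section Ev

variable {G ι M N : Type} [Group G] [Fintype ι] [AddCommGroup M] [AddCommGroup N]

/-- linear evaluation on the group ring -/
def pat_e1 (f : G → M) : ZG G →+ M :=
  AddMonoidHom.mk' (fun x => x.coeff.sum fun g m => m • f g) fun x y => by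
    rw [MonoidAlgebra.coeff_add]
    exact Finsupp.sum_add_index' (fun _ => by simp) fun _ _ _ => add_smul _ _ _

theorem pat_e1_apply (f : G → M) (x : ZG G) :
    pat_e1 f x = x.coeff.sum fun g m => m • f g := rfl

theorem pat_e1_single (f : G → M) (g : G) (m : ℤ) :
    pat_e1 f (MonoidAlgebra.single g m) = m • f g := by
  rw [pat_e1_apply, MonoidAlgebra.coeff_single, Finsupp.sum_single_index (by simp)]

theorem pat_e1_mul (f : G → M) (g : G) (m : ℤ) (z : ZG G) :
    pat_e1 f (MonoidAlgebra.single g m * z) = m • pat_e1 (fun t => f (g * t)) z := by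
  induction z using MonoidAlgebra.induction_linear with
  | zero => simp
  | add x y hx hy => rw [mul_add, map_add, map_add, hx, hy, smul_add]
  | single t n => rw [MonoidAlgebra.single_mul_single, pat_e1_single, pat_e1_single, mul_smul]

/-- linear evaluation on a free module -/
def pat_ev (F : ι → G → M) : (ι → ZG G) →+ M :=
  AddMonoidHom.mk' (fun x => ∑ b, pat_e1 (F b) (x b)) fun x y => by
    simp only [Pi.add_apply, map_add, sum_add_distrib]

theorem pat_ev_apply (F : ι → G → M) (x : ι → ZG G) :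
    pat_ev F x = ∑ b, (x b).coeff.sum fun g m => m • F b g := rfl

theorem pat_ev_congr {F F' : ι → G → M} {x : ι → ZG G}
    (h : ∀ b, ∀ g ∈ (x b).coeff.support, F b g = F' b g) : pat_ev F x = pat_ev F' x := by
  rw [pat_ev_apply, pat_ev_apply]
  refine sum_congr rfl fun b _ => Finsupp.sum_congr fun g hg => by rw [h b g hg]

theorem pat_ev_map (φ : M →+ N) (F : ι → G → M) (x : ι → ZG G) :
    φ (pat_ev F x) = pat_ev (fun b g => φ (F b g)) x := by
  rw [pat_ev_apply, pat_ev_apply, map_sum]
  refine sum_congr rfl fun b _ => ?_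
  rw [map_finsuppSum]
  simp only [map_zsmul]

theorem pat_ev_sub (F F' : ι → G → M) (x : ι → ZG G) :
    pat_ev (fun b g => F b g - F' b g) x = pat_ev F x - pat_ev F' x := by
  simp only [pat_ev_apply, Finsupp.sum, smul_sub, sum_sub_distrib]

theorem pat_ev_zero (x : ι → ZG G) : pat_ev (fun _ _ => (0 : M)) x = 0 := by
  simp [pat_ev_apply]

theorem pat_ev_smul (F : ι → G → M) (r : ZG G) (y : ι → ZG G) :
    pat_ev F (r • y) = pat_e1 (fun g => pat_ev (fun b t => F b (g * t)) y) r := by
  induction r using MonoidAlgebra.induction_linear with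
  | zero => simp
  | add x z hx hz => rw [add_smul, map_add, map_add, hx, hz]
  | single g m =>
    rw [pat_e1_single]
    change ∑ b, pat_e1 (F b) _ = m • ∑ b, pat_e1 _ (y b)
    rw [smul_sum]
    exact sum_congr rfl fun b _ => pat_e1_mul _ _ _ _

theorem pat_ev_vecMul (F : ι → G → M) (c : Matrix ι ι (ZG G)) (x : ι → ZG G) :
    pat_ev F (x ᵥ* c) = pat_ev (fun b g => pat_ev (fun b' t => F b' (g * t)) (c b)) x := by
  rw [vecMul_eq_sum, map_sum]
  exact sum_congr rfl fun b _ => pat_ev_smul _ _ _

theorem pat_ev_taut [DecidableEq ι] (x : ι → ZG G) :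
    pat_ev (fun b g => (MonoidAlgebra.single g 1 : ZG G) • (Pi.single b 1 : ι → ZG G)) x = x := by
  have h : ∀ (b : ι) (r : ZG G), pat_e1 (fun g => (MonoidAlgebra.single g 1 : ZG G) •
      (Pi.single b 1 : ι → ZG G)) r = Pi.single b r := by
    intro b r
    induction r using MonoidAlgebra.induction_linear with
    | zero => simp
    | add x z hx hz => rw [map_add, hx, hz, Pi.single_add]
    | single g m =>
      rw [pat_e1_single, ← smul_assoc, MonoidAlgebra.smul_single, ← Pi.single_smul]
      simp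
  change ∑ b, pat_e1 _ (x b) = x
  simp only [h]
  exact univ_sum_single x

theorem pat_aug (w : ι → ℤ) (x : ι → ZG G) : aug w x = pat_ev (fun b _ => w b) x := by
  rw [pat_ev_apply, aug]
  refine sum_congr rfl fun b _ => ?_
  simp only [Finsupp.sum, smul_eq_mul, mul_sum, mul_comm]

theorem pat_aug_smul (w : ι → ℤ) (g : G) (x : ι → ZG G) :
    aug w ((MonoidAlgebra.single g 1 : ZG G) • x) = aug w x := by
  rw [pat_aug, pat_aug, pat_ev_smul, pat_e1_single, one_smul]

theorem pat_aug_single [DecidableEq ι] (w : ι → ℤ) (a : ι) :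
    aug w (Pi.single a 1 : ι → ZG G) = w a := by
  rw [pat_aug]
  change ∑ b, pat_e1 _ _ = _
  rw [sum_eq_single a (fun b _ hb => by simp [hb]) (by simp), Pi.single_eq_same,
    MonoidAlgebra.one_def, pat_e1_single, one_smul]

theorem pat_aug_sub (w : ι → ℤ) (x y : ι → ZG G) : aug w (x - y) = aug w x - aug w y := by
  simp only [pat_aug, map_sub]

theorem pat_smul_smul (g h : G) (x : ι → ZG G) :
    (MonoidAlgebra.single g 1 : ZG G) • (MonoidAlgebra.single h 1 : ZG G) • x =
      (MonoidAlgebra.single (g * h) 1 : ZG G) • x := by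
  rw [smul_smul, MonoidAlgebra.single_mul_single, one_mul]

theorem pat_ev_vm (F : ι → G → ι → ZG G) (c : Matrix ι ι (ZG G)) (x : ι → ZG G) :
    pat_ev F x ᵥ* c = pat_ev (fun b g => F b g ᵥ* c) x :=
  pat_ev_map (AddMonoidHom.mk' (fun y => y ᵥ* c) fun y z => add_vecMul c y z) F x

theorem pat_ev_sm (F : ι → G → ι → ZG G) (r : ZG G) (x : ι → ZG G) :
    r • pat_ev F x = pat_ev (fun b g => r • F b g) x :=
  pat_ev_map (AddMonoidHom.mk' (fun y => r • y) fun y z => smul_add r y z) F x

theorem pat_ev_aug (w : ι → ℤ) (F : ι → G → ι → ZG G) (x : ι → ZG G) :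
    aug w (pat_ev F x) = pat_ev (fun b g => aug w (F b g)) x := by
  simp only [pat_aug]
  exact pat_ev_map _ F x

/-- homogeneous chains -/
def pat_Hom (deg : ι → ℕ) (k : ℕ) (x : ι → ZG G) : Prop := ∀ b, x b ≠ 0 → deg b = k

theorem pat_hom_smul {deg : ι → ℕ} {k : ℕ} {x : ι → ZG G} (h : pat_Hom deg k x) (r : ZG G) :
    pat_Hom deg k (r • x) := fun b hb => h b fun e => hb (by simp [e])

theorem pat_hom_sub {deg : ι → ℕ} {k : ℕ} {x y : ι → ZG G} (hx : pat_Hom deg k x)
    (hy : pat_Hom deg k y) : pat_Hom deg k (x - y) := fun b hb => by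
  by_contra hne
  have h1 : x b = 0 := by by_contra e; exact hne (hx b e)
  have h2 : y b = 0 := by by_contra e; exact hne (hy b e)
  exact hb (by simp [h1, h2])

theorem pat_hom_single [DecidableEq ι] (deg : ι → ℕ) (a : ι) :
    pat_Hom deg (deg a) (Pi.single a 1 : ι → ZG G) := fun b hb => by
  by_cases e : b = a
  · rw [e]
  · simp [e] at hb

theorem pat_hom_ev {deg : ι → ℕ} {k : ℕ} {F : ι → G → ι → ZG G} {x : ι → ZG G}
    (h : ∀ b, ∀ g ∈ (x b).coeff.support, pat_Hom deg k (F b g)) : pat_Hom deg k (pat_ev F x) := by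
  intro j hj
  by_contra hne
  refine hj ?_
  rw [pat_ev_apply, Finset.sum_apply]
  refine sum_eq_zero fun b _ => ?_
  rw [Finsupp.sum, Finset.sum_apply]
  refine sum_eq_zero fun g hg => ?_
  have : F b g j = 0 := by by_contra e; exact hne (h b g hg j e)
  simp [this]

theorem pat_ne_zero {x : ZG G} {g : G} (h : g ∈ x.coeff.support) : x ≠ 0 := by
  rintro rfl
  simp at h

end Ev

section Main

variable {G ι : Type} [Group G] [Fintype ι] [DecidableEq ι] (deg : ι → ℕ)
  (c : Matrix ι ι (ZG G))

open Classical in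
/-- a chosen filling -/
def pat_fill (k : ℕ) (x : ι → ZG G) : ι → ZG G :=
  if h : ∃ y, pat_Hom deg (k + 1) y ∧ y ᵥ* c = x then h.choose else 0

omit [DecidableEq ι] in
theorem pat_fill_hom (k : ℕ) (x : ι → ZG G) : pat_Hom deg (k + 1) (pat_fill deg c k x) := by
  unfold pat_fill
  split_ifs with h
  · exact h.choose_spec.1
  · exact fun b hb => (hb rfl).elim

/-- the chain map, level by level -/
def pat_psiK : ℕ → ι → (G → G) → ι → ZG G
  | 0, a, ω => (MonoidAlgebra.single (ω 1) 1 : ZG G) • (Pi.single a 1 : ι → ZG G)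
  | k + 1, a, ω => (MonoidAlgebra.single (ω 1) 1 : ZG G) • pat_fill deg c k
      ((MonoidAlgebra.single (ω 1)⁻¹ 1 : ZG G) •
        pat_ev (fun b g => pat_psiK k b fun t => ω (g * t)) (c a))

/-- the chain map -/
def pat_psi (a : ι) (ω : G → G) : ι → ZG G := pat_psiK deg c (deg a) a ω

/-- the prescribed boundary of the chain map -/
def pat_X (a : ι) (ω : G → G) : ι → ZG G :=
  pat_ev (fun b g => pat_psi deg c b fun t => ω (g * t)) (c a)

/-- the homotopy, level by level -/
def pat_hK : ℕ → ι → (G → G) → ι → ZG G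
  | 0, a, ω => pat_fill deg c 0 (pat_psi deg c a ω - Pi.single a 1)
  | k + 1, a, ω => pat_fill deg c (k + 1) (pat_psi deg c a ω - Pi.single a 1 -
      pat_ev (fun b g => (MonoidAlgebra.single g 1 : ZG G) •
        pat_hK k b fun t => g⁻¹ * ω (g * t)) (c a))

/-- the homotopy -/
def pat_h (a : ι) (ω : G → G) : ι → ZG G := pat_hK deg c (deg a) a ω

/-- the correction term of the homotopy -/
def pat_Y (a : ι) (ω : G → G) : ι → ZG G :=
  pat_ev (fun b g => (MonoidAlgebra.single g 1 : ZG G) •
    pat_h deg c b fun t => g⁻¹ * ω (g * t)) (c a)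

variable {deg c} {w : ι → ℤ}

omit [DecidableEq ι] in
theorem pat_deg (R : IsResolution deg c w) {a b : ι} {g : G} (h : g ∈ (c a b).coeff.support) :
    deg a = deg b + 1 := R.graded a b (pat_ne_zero h)

omit [DecidableEq ι] in
theorem pat_row (R : IsResolution deg c w) {a : ι} (h : deg a = 0) : c a = 0 := by
  funext b
  by_contra e
  have := R.graded a b e
  omega

theorem pat_cc (R : IsResolution deg c w) (a : ι) : c a ᵥ* c = 0 ∧ aug w (c a) = 0 :=
  (R.exact _).2 ⟨Pi.single a 1, single_one_vecMul a c⟩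

omit [DecidableEq ι] in
theorem pat_aug_hom (R : IsResolution deg c w) {k : ℕ} {x : ι → ZG G}
    (h : pat_Hom deg (k + 1) x) : aug w x = 0 := by
  refine sum_eq_zero fun b _ => ?_
  by_cases e : x b = 0
  · simp [e]
  · have h1 := h b e
    have : w b = 0 := by
      by_contra e'
      have := R.aug_deg b e'
      omega
    simp [this]

omit [DecidableEq ι] in
theorem pat_fill_spec (R : IsResolution deg c w) {k : ℕ} {x : ι → ZG G} (hx : pat_Hom deg k x)
    (h1 : x ᵥ* c = 0) (h2 : aug w x = 0) : pat_fill deg c k x ᵥ* c = x := by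
  have h : ∃ y, pat_Hom deg (k + 1) y ∧ y ᵥ* c = x := by
    obtain ⟨y, hy⟩ := (R.exact x).1 ⟨h1, h2⟩
    refine ⟨fun b => if deg b = k + 1 then y b else 0, fun b hb => by
      by_contra e
      simp [e] at hb, ?_⟩
    funext j
    by_cases hj : deg j = k
    · rw [← hy]
      refine sum_congr rfl fun b _ => ?_
      by_cases e : c b j = 0
      · simp [e]
      · have := R.graded b j e
        simp [show deg b = k + 1 by omega]
    · have : x j = 0 := by by_contra e; exact hj (hx j e)
      rw [this]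
      refine sum_eq_zero fun b _ => ?_
      by_cases e : c b j = 0
      · simp [e]
      · have := R.graded b j e
        simp [show deg b ≠ k + 1 by omega]
  unfold pat_fill
  rw [dif_pos h]
  exact h.choose_spec.2

theorem pat_psi_zero {a : ι} (h : deg a = 0) (ω : G → G) : pat_psi deg c a ω =
    (MonoidAlgebra.single (ω 1) 1 : ZG G) • (Pi.single a 1 : ι → ZG G) := by
  rw [pat_psi, h, pat_psiK]

theorem pat_psi_succ (R : IsResolution deg c w) {a : ι} {k : ℕ} (h : deg a = k + 1)
    (ω : G → G) : pat_psi deg c a ω = (MonoidAlgebra.single (ω 1) 1 : ZG G) • pat_fill deg c k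
      ((MonoidAlgebra.single (ω 1)⁻¹ 1 : ZG G) • pat_X deg c a ω) := by
  rw [pat_psi, h, pat_psiK, pat_X]
  congr 3
  refine pat_ev_congr fun b g hg => ?_
  have := pat_deg R hg
  rw [pat_psi, show deg b = k by omega]

theorem pat_h_eq (R : IsResolution deg c w) (a : ι) (ω : G → G) : pat_h deg c a ω =
    pat_fill deg c (deg a) (pat_psi deg c a ω - Pi.single a 1 - pat_Y deg c a ω) := by
  rcases h : deg a with _ | k
  · rw [pat_h, h, pat_hK, pat_Y, pat_row R h, map_zero, sub_zero]
  · rw [pat_h, h, pat_hK, pat_Y]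
    congr 2
    refine pat_ev_congr fun b g hg => ?_
    have := pat_deg R hg
    rw [pat_h, show deg b = k by omega]

theorem pat_psi_hom (R : IsResolution deg c w) (a : ι) (ω : G → G) :
    pat_Hom deg (deg a) (pat_psi deg c a ω) := by
  rcases h : deg a with _ | k
  · rw [pat_psi_zero h, ← h]
    exact pat_hom_smul (pat_hom_single deg a) _
  · rw [pat_psi_succ R h]
    exact pat_hom_smul (pat_fill_hom deg c k _) _

theorem pat_h_hom (R : IsResolution deg c w) (a : ι) (ω : G → G) :
    pat_Hom deg (deg a + 1) (pat_h deg c a ω) := by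
  rw [pat_h_eq R]
  exact pat_fill_hom deg c _ _

theorem pat_psi_aug (R : IsResolution deg c w) (a : ι) (ω : G → G) :
    aug w (pat_psi deg c a ω) = w a := by
  rcases h : deg a with _ | k
  · rw [pat_psi_zero h, pat_aug_smul, pat_aug_single]
  · have h1 := pat_psi_hom R a ω
    rw [h] at h1
    rw [pat_aug_hom R h1]
    by_contra e
    have := R.aug_deg a (Ne.symm e)
    omega

theorem pat_ind (R : IsResolution deg c w) {P : ι → Prop}
    (h : ∀ a, (∀ b, ∀ g ∈ (c a b).coeff.support, P b) → P a) (a : ι) : P a := by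
  have : ∀ k a, deg a < k → P a := by
    intro k
    induction k with
    | zero => intro a ha; omega
    | succ k ih =>
      intro a ha
      refine h a fun b g hg => ih b ?_
      have := pat_deg R hg
      omega
  exact this _ a (Nat.lt_succ_self _)

theorem pat_psi_bd (R : IsResolution deg c w) (a : ι) :
    ∀ ω, pat_psi deg c a ω ᵥ* c = pat_X deg c a ω := by
  refine pat_ind R (P := fun a => ∀ ω, pat_psi deg c a ω ᵥ* c = pat_X deg c a ω) ?_ a
  intro a ih ω
  rcases h : deg a with _ | k
  · rw [pat_psi_zero h, smul_vecMul, single_one_vecMul, pat_X]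
    change _ • c a = _
    rw [pat_row R h, map_zero, smul_zero]
  · have h1 : pat_Hom deg k (pat_X deg c a ω) := pat_hom_ev fun b g hg => by
      have := pat_deg R hg
      rw [show k = deg b by omega]
      exact pat_psi_hom R b _
    have h2 : pat_X deg c a ω ᵥ* c = 0 := by
      have e := pat_ev_vecMul (fun b g => pat_psi deg c b fun t => ω (g * t)) c (c a)
      rw [(pat_cc R a).1, map_zero] at e
      rw [pat_X, pat_ev_vm, e]
      refine pat_ev_congr fun b g hg => ?_
      rw [ih b g hg, pat_X]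
      simp only [mul_assoc]
    have h3 : aug w (pat_X deg c a ω) = 0 := by
      rw [pat_X, pat_ev_aug]
      simp only [pat_psi_aug R]
      rw [← pat_aug, (pat_cc R a).2]
    rw [pat_psi_succ R h, smul_vecMul, pat_fill_spec R (pat_hom_smul h1 _)
      (by rw [smul_vecMul, h2, smul_zero]) (by rw [pat_aug_smul, h3]), pat_smul_smul,
      mul_inv_cancel, ← MonoidAlgebra.one_def, one_smul]

theorem pat_psi_eqv (R : IsResolution deg c w) (a : ι) : ∀ (g : G) (ω : G → G),
    pat_psi deg c a (fun t => g * ω t) = (MonoidAlgebra.single g 1 : ZG G) • pat_psi deg c a ω := by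
  refine pat_ind R (P := fun a => ∀ (g : G) (ω : G → G), pat_psi deg c a (fun t => g * ω t) =
    (MonoidAlgebra.single g 1 : ZG G) • pat_psi deg c a ω) ?_ a
  intro a ih g ω
  rcases h : deg a with _ | k
  · rw [pat_psi_zero h, pat_psi_zero h, pat_smul_smul]
  · have e : pat_X deg c a (fun t => g * ω t) =
        (MonoidAlgebra.single g 1 : ZG G) • pat_X deg c a ω := by
      rw [pat_X, pat_X, pat_ev_sm]
      exact pat_ev_congr fun b g' hg => ih b g' hg g _
    rw [pat_psi_succ R h, pat_psi_succ R h, e, pat_smul_smul, pat_smul_smul, _root_.mul_inv_rev,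
      inv_mul_cancel_right]

omit [DecidableEq ι] in
theorem pat_one_mem (k : ℕ) : (1 : G) ∈ win c k := by
  cases k <;> simp [win]

omit [DecidableEq ι] in
theorem pat_mul_mem (R : IsResolution deg c w) {a b : ι} {g t : G}
    (hg : g ∈ (c a b).coeff.support) (ht : t ∈ win c (deg b)) : g * t ∈ win c (deg a) := by
  classical
  rw [pat_deg R hg, win]
  refine mem_insert_of_mem ?_
  convert mem_image₂_of_mem (f := (· * ·)) (show g ∈ supp c from ?_) ht
  simp only [supp, mem_biUnion]
  exact ⟨a, mem_univ _, b, mem_univ _, hg⟩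

theorem pat_psi_loc (R : IsResolution deg c w) (a : ι) : ∀ ω ω' : G → G,
    (∀ t ∈ win c (deg a), ω t = ω' t) → pat_psi deg c a ω = pat_psi deg c a ω' := by
  refine pat_ind R (P := fun a => ∀ ω ω' : G → G,
    (∀ t ∈ win c (deg a), ω t = ω' t) → pat_psi deg c a ω = pat_psi deg c a ω') ?_ a
  intro a ih ω ω' hω
  have e1 : ω 1 = ω' 1 := hω 1 (pat_one_mem _)
  rcases h : deg a with _ | k
  · rw [pat_psi_zero h, pat_psi_zero h, e1]
  · have e : pat_X deg c a ω = pat_X deg c a ω' :=
      pat_ev_congr fun b g hg => ih b g hg _ _ fun t ht => hω _ (pat_mul_mem R hg ht)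
    rw [pat_psi_succ R h, pat_psi_succ R h, e, e1]

theorem pat_h_loc (R : IsResolution deg c w) (a : ι) : ∀ ω ω' : G → G,
    (∀ t ∈ win c (deg a), ω t = ω' t) → pat_h deg c a ω = pat_h deg c a ω' := by
  refine pat_ind R (P := fun a => ∀ ω ω' : G → G,
    (∀ t ∈ win c (deg a), ω t = ω' t) → pat_h deg c a ω = pat_h deg c a ω') ?_ a
  intro a ih ω ω' hω
  have e : pat_Y deg c a ω = pat_Y deg c a ω' :=
    pat_ev_congr fun b g hg => by
      rw [ih b g hg _ (fun t => g⁻¹ * ω' (g * t)) fun t ht => by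
        rw [hω _ (pat_mul_mem R hg ht)]]
  rw [pat_h_eq R, pat_h_eq R, e, pat_psi_loc R a ω ω' hω]

theorem pat_h_bd (R : IsResolution deg c w) (a : ι) : ∀ ω,
    pat_h deg c a ω ᵥ* c = pat_psi deg c a ω - Pi.single a 1 - pat_Y deg c a ω := by
  refine pat_ind R (P := fun a => ∀ ω,
    pat_h deg c a ω ᵥ* c = pat_psi deg c a ω - Pi.single a 1 - pat_Y deg c a ω) ?_ a
  intro a ih ω
  have h1 : pat_Hom deg (deg a) (pat_Y deg c a ω) := pat_hom_ev fun b g hg => by
    rw [pat_deg R hg]
    exact pat_hom_smul (pat_h_hom R b _) _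
  have h2 : aug w (pat_Y deg c a ω) = 0 := by
    rw [pat_Y, pat_ev_aug]
    simp only [pat_aug_smul, pat_aug_hom R (pat_h_hom R _ _)]
    exact pat_ev_zero _
  have h3 : pat_Y deg c a ω ᵥ* c = pat_X deg c a ω - c a := by
    have e := pat_ev_vecMul (fun b g => (MonoidAlgebra.single g 1 : ZG G) •
      pat_h deg c b fun t => g⁻¹ * ω (g * t)) c (c a)
    rw [(pat_cc R a).1, map_zero] at e
    rw [← sub_zero (pat_X deg c a ω - c a), e]
    conv_rhs => rw [← pat_ev_taut (c a)]
    rw [pat_ev_taut (c a), pat_X]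
    nth_rewrite 2 [← pat_ev_taut (c a)]
    rw [← pat_ev_sub, ← pat_ev_sub, pat_Y, pat_ev_vm]
    refine pat_ev_congr fun b g hg => ?_
    rw [smul_vecMul, ih b g hg, smul_sub, smul_sub, ← pat_psi_eqv R, pat_Y, pat_ev_sm]
    simp only [mul_inv_cancel_left, pat_smul_smul, _root_.mul_inv_rev, mul_assoc]
  rw [pat_h_eq R]
  refine pat_fill_spec R (pat_hom_sub (pat_hom_sub (pat_psi_hom R a ω) (pat_hom_single deg a)) h1)
    ?_ ?_
  · rw [sub_vecMul, sub_vecMul, pat_psi_bd R, h3, single_one_vecMul]
    exact sub_self _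
  · rw [pat_aug_sub, pat_aug_sub, pat_psi_aug R, pat_aug_single, h2, sub_self, sub_self]

end Main

theorem t_PAT : S_PAT := by
  intro G ι _ _ _ deg c w R
  refine ⟨pat_psi deg c, pat_h deg c, fun a ω ω' h => ⟨pat_psi_loc R a ω ω' h,
    pat_h_loc R a ω ω' h⟩, fun a g ω => pat_psi_eqv R a g ω, fun a ω => pat_psi_hom R a ω,
    fun a ω => pat_h_hom R a ω, fun a ω => pat_psi_bd R a ω, fun a ω => ?_⟩
  rw [pat_h_bd R, pat_Y, pat_ev_apply]
  simp only [← smul_assoc, MonoidAlgebra.smul_single, smul_eq_mul, mul_one]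
  abel

end

end Pool.Agent.P.MP_f30597_gt
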