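import Pool.Agent.P.MP_f30597_gt.Iface

/-! Representatives of the classes of good points. -/

namespace Pool.Agent.P.MP_f30597_gt

open Matrix Finset Filter Topology MeasureTheory
open scoped Matrix.Norms.L2Operator

theorem rep_exists {ι V β : Type} (Gd : ι → V → Prop) (cls : ι → V → β) :
    ∃ r : ι → V → V, (∀ a v, Gd a v → Gd a (r a v) ∧ cls a (r a v) = cls a v) ∧
      ∀ a u v, Gd a u → Gd a v → cls a u = cls a v → r a u = r a v := by
  classical
  refine ⟨fun a v => if h : ∃ u, Gd a u ∧ cls a u = cls a v then h.choose else v, ?_, ?_⟩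
  · intro a v hv
    have h : ∃ u, Gd a u ∧ cls a u = cls a v := ⟨v, hv, rfl⟩
    simp only [dif_pos h]
    exact h.choose_spec
  · intro a u v hu hv huv
    have h : ∃ w, Gd a w ∧ cls a w = cls a v := ⟨v, hv, rfl⟩
    have h' : ∃ w, Gd a w ∧ cls a w = cls a u := ⟨u, hu, rfl⟩
    simp only [dif_pos h, dif_pos h']
    have e : (fun w => Gd a w ∧ cls a w = cls a u) = fun w => Gd a w ∧ cls a w = cls a v := by
      rw [huv]
    congr 1

theorem rep_count {ι V β : Type} [Fintype ι] [Fintype V] [DecidableEq β] (cls : ι → V → β)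
    (P : ι × V → Prop) [DecidablePred P]
    (hP : ∀ a u v, P (a, u) → P (a, v) → cls a u = cls a v → u = v) :
    (univ.filter P).card ≤ ∑ a, (univ.image (cls a)).card := by
  classical
  rw [card_eq_sum_card_fiberwise (f := Prod.fst) (t := univ) (fun _ _ => mem_coe.2 (mem_univ _))]
  refine sum_le_sum fun a _ => ?_
  refine card_le_card_of_injOn (fun p => cls a p.2) ?_ ?_
  · intro p _
    exact mem_coe.2 (mem_image_of_mem _ (mem_univ _))
  · rintro ⟨b, u⟩ hp ⟨c, v⟩ hq h
    simp only [coe_filter, mem_filter, mem_univ, true_and, Set.mem_setOf_eq] at hp hq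
    obtain ⟨hp, rfl⟩ := hp
    obtain ⟨hq, rfl⟩ := hq
    rw [hP _ u v hp hq h]

theorem rep_trace {I : Type} [Fintype I] [DecidableEq I] (P : I → Prop) [DecidablePred P]
    (Y : Matrix I I ℝ) (M : ℝ) (hY : ∀ p, ∑ q, |Y p q| ≤ M) :
    ((diagonal fun i => if P i then (1 : ℝ) else 0) * Y *
      ((diagonal fun i => if P i then (1 : ℝ) else 0) * Y)ᴴ).trace ≤
      (univ.filter P).card * M ^ 2 := by
  have h1 : ∀ p, ∑ q, Y p q ^ 2 ≤ M ^ 2 := by
    intro p
    have h0 : 0 ≤ ∑ q, |Y p q| := sum_nonneg fun _ _ => abs_nonneg _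
    calc ∑ q, Y p q ^ 2 = ∑ q, |Y p q| ^ 2 := by simp
      _ ≤ (∑ q, |Y p q|) ^ 2 := sum_sq_le_sq_sum_of_nonneg fun _ _ => abs_nonneg _
      _ ≤ M ^ 2 := pow_le_pow_left₀ h0 (hY p) 2
  have h2 : ((univ.filter P).card : ℝ) * M ^ 2 = ∑ p, if P p then M ^ 2 else 0 := by
    rw [← sum_filter, sum_const, nsmul_eq_mul]
  rw [h2, trace]
  refine sum_le_sum fun p _ => ?_
  rw [diag_apply, mul_apply]
  simp only [diagonal_mul, conjTranspose_apply, star_trivial]
  split_ifs with h
  · simpa [sq] using h1 p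
  · simp

theorem t_REP : S_REP := by
  classical
  intro ι V β _ _ _ _ Gd cls m hm
  obtain ⟨r, hr, hr'⟩ := rep_exists Gd cls
  have hrr : ∀ a v, Gd a v → r a (r a v) = r a v := fun a v hv =>
    hr' a _ _ (hr a v hv).1 hv (hr a v hv).2
  set Θ : Matrix (ι × V) (ι × V) ℝ :=
    Matrix.of fun p q => if Gd p.1 p.2 ∧ q = (p.1, r p.1 p.2) then 1 else 0 with hΘ
  have hΘa : ∀ p q, Θ p q = if Gd p.1 p.2 ∧ q = (p.1, r p.1 p.2) then 1 else 0 := fun _ _ => rfl
  have hrow : ∀ p, ∑ q, |Θ p q| ≤ 1 := by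
    intro p
    by_cases hp : Gd p.1 p.2
    · rw [sum_eq_single (p.1, r p.1 p.2)]
      · simp [hΘa, hp]
      · intro q _ hq
        simp [hΘa, hq]
      · simp
    · simp [hΘa, hp]
  have hcol : ∀ q, ∑ p, |Θ p q| ≤ m := by
    intro q
    have e : ∑ p, |Θ p q| = ((univ.filter fun p : ι × V =>
        Gd p.1 p.2 ∧ q = (p.1, r p.1 p.2)).card : ℝ) := by
      rw [card_filter]
      push_cast
      refine sum_congr rfl fun p _ => ?_
      rw [hΘa]
      split_ifs <;> simp
    rw [e]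
    refine Nat.cast_le.2 (le_trans ?_ (hm q.1 q.2))
    refine card_le_card_of_injOn (fun p => p.2) ?_ ?_
    · rintro ⟨a, v⟩ hp
      simp only [coe_filter, mem_univ, true_and, Set.mem_setOf_eq] at hp ⊢
      obtain ⟨hp, rfl⟩ := hp
      exact (hr a v hp).2.symm
    · rintro ⟨a, u⟩ hp ⟨b, v⟩ hq h
      simp only [coe_filter, mem_univ, true_and, Set.mem_setOf_eq] at hp hq h
      have := hp.2.symm.trans hq.2
      simp only [Prod.mk.injEq] at this
      rw [this.1, h]
  have hcnt : (univ.filter fun p : ι × V => Gd p.1 p.2 ∧ r p.1 p.2 = p.2).card ≤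
      ∑ a, (univ.image (cls a)).card := by
    refine rep_count cls _ ?_
    intro a u v hu hv h
    exact hu.2.symm.trans ((hr' a u v hu.1 hv.1 h).trans hv.2)
  have hmul : Θ * diagonal (fun p : ι × V => if Gd p.1 p.2 ∧ r p.1 p.2 = p.2 then (1 : ℝ) else 0)
      = Θ := by
    ext p q
    rw [mul_diagonal, hΘa]
    split_ifs with h1 h2
    · simp
    · exfalso
      obtain ⟨h1, rfl⟩ := h1
      exact h2 ⟨(hr _ _ h1).1, hrr _ _ h1⟩
    · simp
    · simp
  refine ⟨Θ, diagonal fun p => if Gd p.1 p.2 ∧ r p.1 p.2 = p.2 then 1 else 0, ?_,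
    isInt_diag _, ?_, ?_, hmul, ?_, ?_, hrow, ?_, ?_, ?_, ?_⟩
  · intro p q
    rw [hΘa]
    split_ifs
    · exact ⟨1, by simp⟩
    · exact ⟨0, by simp⟩
  · have h0 : (0 : ℝ) ≤ m := Nat.cast_nonneg _
    exact schur (by linarith) (fun p => by linarith [hrow p]) (fun q => by linarith [hcol q])
  · refine nrm_diag zero_le_one fun p => ?_
    split_ifs <;> simp
  · intro p q h
    rw [hΘa] at h
    split_ifs at h with h1
    · rw [h1.2]
    · exact absurd rfl h
  · intro p q h
    by_contra hpq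
    exact h (diagonal_apply_ne _ hpq)
  · intro a u v hu hv h
    funext q
    simp only [hΘa, hu, hv, true_and, hr' a u v hu hv h]
  · intro a v hv
    refine ⟨r a v, (hr a v hv).1, (hr a v hv).2, fun γ Y => ?_⟩
    funext j
    rw [mul_apply, sum_eq_single (a, r a v)]
    · simp [hΘa, hv]
    · intro q _ hq
      simp [hΘa, hq]
    · simp
  · rw [← hmul]
    refine (rank_mul_le_right _ _).trans ?_
    rw [rank_diagonal, Fintype.card_subtype]
    refine le_trans (card_le_card ?_) hcnt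
    intro p hp
    simp only [mem_filter, mem_univ, true_and] at hp ⊢
    by_contra h
    exact hp (if_neg h)
  · intro Y M hY
    refine (rep_trace _ Y M hY).trans ?_
    exact mul_le_mul_of_nonneg_right (Nat.cast_le.2 hcnt) (sq_nonneg M)

end Pool.Agent.P.MP_f30597_gt
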