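import Pool.Agent.P.MP_f30597_gt.Iface

/-! A sofic group has a net of finite models. -/

namespace Pool.Agent.P.MP_f30597_gt

open Matrix Finset Filter Topology MeasureTheory
open scoped Matrix.Norms.L2Operator

theorem sof_lim {G : Type} [DecidableEq G] (f : Finset G × ℕ → ℝ) (h0 : ∀ i, 0 ≤ f i)
    (T : Finset G) (h : ∀ i : Finset G × ℕ, T ⊆ i.1 → f i ≤ 1 / ((i.2 : ℝ) + 1)) :
    Tendsto f atTop (𝓝 0) := by
  have h1 : Tendsto (Prod.snd : Finset G × ℕ → ℕ) atTop atTop :=
    tendsto_atTop.mpr fun m => (eventually_ge_atTop (∅, m)).mono fun i hi => hi.2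
  refine squeeze_zero' (Eventually.of_forall h0) ?_
    (tendsto_one_div_add_atTop_nhds_zero_nat.comp h1)
  filter_upwards [eventually_ge_atTop (T, 0)] with i hi
  exact h i hi.1

theorem t_SOF : S_SOF := by
  intro G _ hG
  classical
  choose n σ h1 h2 using fun i : Finset G × ℕ =>
    hG (insert 1 (i.1.image fun g => g⁻¹)) (1 / ((i.2 : ℝ) + 1)) (by positivity)
  have hpos : ∀ i, 0 < n i := fun i => by
    have := h1 i 1 (mem_insert_self _ _) 1 (mem_insert_self _ _)
    have h3 := (Nat.cast_nonneg _).trans_lt this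
    exact_mod_cast (pos_iff_pos_of_mul_pos h3).mp (by positivity)
  have hm : ∀ (i : Finset G × ℕ) (g : G), g ∈ i.1 → g⁻¹ ∈ insert 1 (i.1.image fun g => g⁻¹) :=
    fun i g hg => mem_insert_of_mem (mem_image_of_mem _ hg)
  refine ⟨⟨Finset G × ℕ, atTop, inferInstance, n, hpos, fun i g => σ i g⁻¹, fun g h => ?_,
    fun g hg => ?_⟩⟩
  · refine sof_lim _ (fun i => by positivity) {g, h} fun i hi => ?_
    rw [div_le_iff₀ (by exact_mod_cast hpos i)]
    refine le_of_eq_of_le ?_ (h1 i _ (hm i h (hi (by simp))) _ (hm i g (hi (by simp)))).le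
    congr 2
    ext v
    rw [_root_.mul_inv_rev, mem_filter, mem_filter, eq_comm]
  · refine sof_lim _ (fun i => by positivity) {g} fun i hi => ?_
    rw [div_le_iff₀ (by exact_mod_cast hpos i)]
    refine le_of_eq_of_le ?_ (h2 i _ (hm i g (hi (by simp))) (inv_ne_one.mpr hg)).le
    congr 2
    ext v
    rw [mem_filter, mem_filter, not_not]

end Pool.Agent.P.MP_f30597_gt
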